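import Pool.Agent.H56.EX.Defs
import Pool.Agent.H89.Perc.Z2

/-!
# LINK: critical bond percolation on a cylinder and loops (definitions)

Medial lattice: the vertex `(c, r)` (column `c`, row `r`) lies on the edge `medge c r` of the square
lattice.  Faces of the medial lattice: `(c, r)` = the unit square between the columns `c`, `c + 1`
and between the rows `r - 1`, `r` (level `r`).  It is a primal vertex if `c + r` is odd, namely
`((c + r + 1) / 2, (r - c - 1) / 2)`, and a dual vertex (a face of the square lattice, named by its
lower left corner) if `c + r` is even, namely `((c + r) / 2, (r - c - 2) / 2)`.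
The primal vertex `(x, y)` lies at level `x + y`, the edge `e` lies in the row `e.1 + e.2.1`.
The seam is level `0`; the strand of the seam in column `c` lies between the primal vertex `pv c` and
the dual vertex `dv c`.  The period is `c → c + L`, `L = 2 n`, i.e. `(x, y) → (x + n, y - n)`.

At the vertex `(c, r)` the strands connect bottom - right and top - left if `tB ω c r = true`
(type B), and bottom - left and top - right if `tB ω c r = false` (type A).
-/

set_option autoImplicit false

open MeasureTheory ProbabilityTheory Filter Topology

namespace Pool.Agent.H89.Link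

open H56.EX
open Pool.Agent.H89.Perc (Vert Edge Config Pr half src tgt lowFace ball sphere)

variable {L : ℕ} {T : Type*}

/-! ### The row map -/

open Classical in
/-- Remove the positions `i, i + 1` (mod `L + 2`) and join their partners (`Q0` is a dummy). -/
noncomputable def cap (i : ℤ) (P : Pat (L + 2)) (Q0 : Pat L) : Pat L :=
  if h : ∃ Q : Pat L, E i P = ins i Q then h.choose else Q0

/-- The horizontal line of the row, coming from the left, passes the columns `0, …, k - 1`. -/
def wires (t : ℤ → Bool) : ℕ → Pat (L + 2) → Pat (L + 2)
  | 0, P => P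
  | k + 1, P => if t k = true then E ((k : ℤ) + 1) (wires t k P) else wires t k P

/-- The pattern below a row of vertices of types `t` if the pattern above is `P`. -/
noncomputable def row (t : ℤ → Bool) (P : Pat L) : Pat L :=
  rot (cap (-1) (wires t L (ins 0 P)) P)

/-- Consistent colours in one row: `top c`, `bot c` are the colours of the vertical edges above and
below the vertex `c`, `hor c` is the colour of the horizontal edge from `c` to `c + 1`. -/
def RowCol (t : ℤ → Bool) (top hor bot : ℤ → T) : Prop :=
  ∀ c : ℤ, (t c = true → bot c = hor c ∧ top c = hor (c - 1)) ∧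
    (t c = false → bot c = hor (c - 1) ∧ top c = hor c)

/-- `h` rows `r, …, r + h - 1` above level `r`, with the pattern `s` at the top. -/
noncomputable def halfP (s : Pat L) (t : ℤ → ℤ → Bool) : ℕ → ℤ → Pat L
  | 0, _ => s
  | h + 1, r => row (fun c => t c r) (halfP s t h (r + 1))

/-- The pattern of the small arcs around the primal vertices of an even level. -/
def IsStar (s : Pat L) : Prop := ∀ x : ℤ, s.m x = if x % 2 = 0 then x - 1 else x + 1

/-! ### Percolation -/

/-- The edge of the square lattice at the medial vertex `(c, r)`. -/
def medge (c r : ℤ) : Edge :=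
  if (c + r) % 2 = 0 then ((c + r) / 2, (r - c) / 2, false)
  else ((c + r + 1) / 2, (r - c - 1) / 2, true)

/-- Type of the medial vertex `(c, r)` (`true` = bottom - right and top - left). -/
def tB (ω : Config) (c r : ℤ) : Bool :=
  if (c + r) % 2 = 0 then ω (medge c r) else !ω (medge c r)

/-- The configuration with period `(n, -n)` which agrees with `ω` on the strip `0 ≤ x < n`. -/
def per (n : ℕ) (ω : Config) : Config := fun e =>
  ω (e.1 % n, e.2.1 + (e.1 - e.1 % n), e.2.2)

/-- Pattern of the rows `0, …, h - 1` above the seam. -/
noncomputable def up (s : Pat L) (n h : ℕ) (ω : Config) : Pat L :=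
  halfP s (fun c r => tB (per n ω) c r) h 0

/-- Pattern of the rows `-1, …, -h` below the seam (reflected upwards). -/
noncomputable def dn (s : Pat L) (n h : ℕ) (ω : Config) : Pat L :=
  halfP s (fun c r => !tB (per n ω) c (-1 - r)) h 0

/-- The primal vertex next to column `c` of the seam. -/
def pv (c : ℤ) : Vert := ((c + 1) / 2, -((c + 1) / 2))

/-- The dual vertex (lower left corner of the face) next to column `c` of the seam. -/
def dv (c : ℤ) : Vert := (c / 2, -(c / 2) - 1)

/-- No loop surrounds the primal vertex `0` (between the columns `-1` and `0`). -/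
def NoSurr (P Q : Pat L) : Prop :=
  ∀ X : Finset ℤ, (∀ x ∈ X, P.m x ∈ X) → (∀ x ∈ X, Q.m x ∈ X) →
    Even (X.filter fun c => 0 ≤ c).card

/-- The vertices `x`, `y` on the two sides of the face `q = (0, -1)` between the columns `0`, `1`. -/
def xx : Vert := (0, 0)
/-- see `xx` -/
def yy : Vert := (1, -1)

/-- `x` and `y` are joined to distance `k`, but not to each other. -/
def FourD (k : ℕ) : Set Config :=
  {ω | (∃ u ∈ sphere 0 k, Perc.Conn ω (ball 0 k) xx u) ∧
    (∃ u ∈ sphere 0 k, Perc.Conn ω (ball 0 k) yy u) ∧ ¬ Perc.Conn ω (ball 0 k) xx yy}

/-- The strip of levels smaller than `H` in absolute value. -/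
def strip (H : ℕ) : Set Vert := {v | -(H : ℤ) < v.1 + v.2 ∧ v.1 + v.2 < H}

/-- `y` is joined to the next copy of `x` in a strip, but not to `x`, and the cluster of `y` is
contained in a window of width less than two periods. -/
def Fc (n H : ℕ) : Set Config :=
  {ω | Perc.Conn ω (strip H) yy (n, -n) ∧ ¬ Perc.Conn ω Set.univ xx yy ∧
    ∀ v, Perc.Conn ω Set.univ yy v → -(n : ℤ) < v.1 - v.2 ∧ v.1 - v.2 < 3 * n}

/-! ### The stationary vector -/

/-- periodic extension of a row of bits -/
def bits (t : Fin L → Bool) (c : ℤ) : Bool :=
  if h : (c % (L : ℤ)).toNat < L then t ⟨(c % (L : ℤ)).toNat, h⟩ else false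

open Classical in
/-- push forward of `v` under the row map with the bits `t` -/
noncomputable def pushRow (t : Fin L → Bool) (v : Pat L → ℂ) (Q : Pat L) : ℂ :=
  ∑ P : Pat L, if row (bits t) P = Q then v P else 0

/-- `v` is stationary for the random row map with fair bits. -/
def Stat (v : Pat L → ℂ) : Prop :=
  ∀ Q : Pat L, ∑ t : Fin L → Bool, pushRow t v Q = 2 ^ L * v Q

open Classical in
/-- The law of the pattern below `h` rows with fair bits, with the pattern `s` at the top. -/
noncomputable def law (s : Pat L) : ℕ → Pat L → ℝ
  | 0, Q => if Q = s then 1 else 0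
  | h + 1, Q => (1 / 2) ^ L * ∑ t : Fin L → Bool, ∑ P : Pat L,
      if row (bits t) P = Q then law s h P else 0

end Pool.Agent.H89.Link
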