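import Pool.Agent.H89.Link.Final
import Pool.Agent.H85.Strict.Corr
import Pool.Agent.H89.Perc.RSW

/-!
# LINK module `CylArm`: an arm of the plane can be completed to a winding path on the cylinder

`n = 16 m`, `η = per n ω`.  Events for `η`, all increasing and local:
* `A = Arm 0 (2 m)`;
* `T` = `HCross η (-2m) (2m) m (2m)`, `B` = `HCross η (-2m) (2m) (-2m) (-m)`, `Le` = `VCross η (-2m) (-m) (-2m) (2m)`,
  `Ri` = `VCross η m (2m) (-2m) (2m)` (four `4 : 1` rectangles around `ball 0 m`);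
* `R1` = `HCross η (-2m) (18m) (-m) m`, `R2` = `VCross η (15m) (17m) (-18m) (2m)`.
Determinism.  An open path from `0` to `sphere 0 (2m)` in `ball 0 (2m)` ends on one of the four sides; by `hv_meet` (or
`Conn.cross_x/cross_y` + `cross`) it meets the crossing of the corresponding rectangle.  The four crossings meet pairwise
in the corners (`hv_meet`), `Le` meets `R1`, `R1` meets `R2`.  `R2` meets the translate by `(n, -n)` of `B`
(`HCross η (14m) (18m) (-18m) (-17m)`), which exists because `η` has period `(n, -n)` (`conn_sh` in `Link/Fc.lean`); the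
translate of the whole picture joins it to `(n, -n)`.  Everything is in `strip (64 m)`.
Probability.  `Pr half {ω | per n ω ∈ E} = Pr half E` for each of the seven events (`pr_per`: `base n` is injective on
`eRect a b c d` if `b - a < n` or `d - c < n`, because `base n e = base n e'` forces
`e' = (e.1 + n k, e.2.1 - n k, e.2.2)`).  `ω ↦ per n ω` is monotone and local, so FKG (`Perc.fkg`) holds for these events;
`rsw` and `long_rsw` bound the crossing probabilities from below (translate, reflect: `Pr_hcross_translate`,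
`Pr_vcross_eq_hcross`); the `20m x 2m` rectangles have aspect ratio 10.
-/

set_option autoImplicit false

open MeasureTheory ProbabilityTheory

namespace Pool.Agent.H89.Link

open Pool.Agent.H89.Perc (Vert Edge Config Pr half)

theorem cylArm_localOn_per (n : ℕ) {s : Finset Edge} {A : Set Config} (hA : Perc.LocalOn s A) :
    Perc.LocalOn (s.image (base n)) {ω | per n ω ∈ A} := by
  intro ω ω' h hA'
  refine hA _ _ (fun e he => ?_) hA'
  rw [per_eq, per_eq]
  exact h _ (Finset.mem_image_of_mem _ he)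

theorem cylArm_incr_per (n : ℕ) {A : Set Config} (iA : Perc.Incr A) :
    Perc.Incr {ω | per n ω ∈ A} := by
  intro ω ω' h hA'
  exact iA _ _ (fun e he => h _ he) hA'

/-- FKG on the cylinder. -/
theorem fkg_per (p : unitInterval) (n : ℕ) {s t : Finset Edge} {A B : Set Config}
    (hA : Perc.LocalOn s A) (hB : Perc.LocalOn t B) (iA : Perc.Incr A) (iB : Perc.Incr B) :
    Pr p {ω | per n ω ∈ A} * Pr p {ω | per n ω ∈ B} ≤ Pr p {ω | per n ω ∈ A ∩ B} := by
  have h := Perc.fkg (p := p) (cylArm_localOn_per n hA) (cylArm_localOn_per n hB)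
    (cylArm_incr_per n iA) (cylArm_incr_per n iB)
  exact h

/-- `base n` is injective on a rectangle which is narrow in one direction. -/
theorem base_injOn_rect {n : ℕ} {a b c d : ℤ} (h : b - a < n ∨ d - c < n) :
    Set.InjOn (base n) {e : Edge | a ≤ e.1 ∧ e.1 ≤ b ∧ c ≤ e.2.1 ∧ e.2.1 ≤ d} := by
  rintro ⟨x, y, o⟩ ⟨h1, h2, h3, h4⟩ ⟨x', y', o'⟩ ⟨h1', h2', h3', h4'⟩ he
  simp only [base, Prod.mk.injEq] at he
  simp only at h1 h2 h3 h4 h1' h2' h3' h4'
  obtain ⟨e1, e2, e3⟩ := he
  have hd : (n : ℤ) ∣ x - x' := Int.ModEq.dvd (Eq.symm e1)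
  have h0 : x - x' = 0 := by
    rcases h with h | h
    · have hlt : |x - x'| < (n : ℤ) := by
        rw [abs_lt]
        constructor <;> omega
      exact Int.eq_zero_of_abs_lt_dvd hd hlt
    · have hxy : x - x' = y' - y := by omega
      have hlt : |x - x'| < (n : ℤ) := by
        rw [hxy, abs_lt]
        constructor <;> omega
      exact Int.eq_zero_of_abs_lt_dvd hd hlt
  have hx : x = x' := by omega
  subst hx
  have hy : y = y' := by omega
  subst hy
  subst e3
  rfl

/-- Translation by a period, with sets. -/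
theorem cylArm_conn_sh (n : ℕ) (ω : Config) (k : ℤ) {S S' : Set Vert}
    (hS : ∀ w ∈ S, sh n k w ∈ S') {u v : Vert} (h : Perc.Conn (per n ω) S u v) :
    Perc.Conn (per n ω) S' (sh n k u) (sh n k v) := by
  refine h.induction_right (P := fun x => Perc.Conn (per n ω) S' (sh n k u) (sh n k x))
    (Perc.Conn.refl (hS _ h.mem_left)) ?_
  rintro a b _ ⟨ha, hb, e, he, ho⟩ ih
  refine ih.tail ⟨hS _ ha, hS _ hb, she n k e, ?_, ?_⟩
  · rcases he with ⟨h1, h2⟩ | ⟨h1, h2⟩
    · left; rw [src_she, tgt_she, ← h1, ← h2]; exact ⟨rfl, rfl⟩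
    · right; rw [src_she, tgt_she, ← h1, ← h2]; exact ⟨rfl, rfl⟩
  · have := per_shift n ω e k
    rw [show she n k e = (e.1 + n * k, e.2.1 - n * k, e.2.2) from rfl, this]
    exact ho

/-- The deterministic part. -/
theorem cylArm_det {m : ℕ} (hm : 1 ≤ m) {ω : Config} (hA : per (16 * m) ω ∈ Perc.Arm 0 (2 * m))
    (hT : Perc.HCross (per (16 * m) ω) (-(2 * m)) (2 * m) m (2 * m))
    (hB : Perc.HCross (per (16 * m) ω) (-(2 * m)) (2 * m) (-(2 * m)) (-m))
    (hL : Perc.VCross (per (16 * m) ω) (-(2 * m)) (-m) (-(2 * m)) (2 * m))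
    (hR : Perc.VCross (per (16 * m) ω) m (2 * m) (-(2 * m)) (2 * m))
    (h1 : Perc.HCross (per (16 * m) ω) (-(2 * m)) (18 * m) (-m) m)
    (h2 : Perc.VCross (per (16 * m) ω) (15 * m) (17 * m) (-(18 * m)) (2 * m)) :
    Perc.Conn (per (16 * m) ω) (strip (64 * m)) 0 (((16 * m : ℕ) : ℤ), -((16 * m : ℕ) : ℤ)) := by
  set η := per (16 * m) ω with hη
  have hM : (1 : ℤ) ≤ (m : ℤ) := by exact_mod_cast hm
  set M : ℤ := (m : ℤ) with hMdef
  obtain ⟨tu, tv, htu, htv, cT⟩ := hT
  obtain ⟨bu, bv, hbu, hbv, cB⟩ := hB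
  obtain ⟨lu, lv, hlu, hlv, cL⟩ := hL
  obtain ⟨ru, rv, hru, hrv, cR⟩ := hR
  obtain ⟨xu, xv, hxu, hxv, cX⟩ := h1
  obtain ⟨yu, yv, hyu, hyv, cY⟩ := h2
  obtain ⟨w, hw, cA⟩ := hA
  have hball : Perc.ball 0 (2 * m) = Perc.rect (-(2 * M)) (2 * M) (-(2 * M)) (2 * M) := by
    simp [Perc.ball, hMdef]
  rw [hball] at cA
  -- inclusions in the strip
  have sub : ∀ a b c d : ℤ, -(64 * M) < a + c → b + d < 64 * M →
      Perc.rect a b c d ⊆ strip (64 * m) := by
    intro a b c d h1 h2 v hv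
    simp only [Perc.rect, Set.mem_ofPred_eq] at hv
    simp only [strip, Set.mem_ofPred_eq]
    push_cast
    omega
  have hwc : w.1 = -(2 * M) ∨ w.1 = 2 * M ∨ w.2 = -(2 * M) ∨ w.2 = 2 * M := by
    have := hw.2
    simpa [hMdef] using this
  -- the crossings meet
  obtain ⟨z1, a1, b1⟩ := H85.Strict.hv_meet cT (by omega) (by omega) cL (by omega) (by omega) (by omega) (by omega)
  obtain ⟨z2, a2, b2⟩ := H85.Strict.hv_meet cT (by omega) (by omega) cR (by omega) (by omega) (by omega) (by omega)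
  obtain ⟨z3, a3, b3⟩ := H85.Strict.hv_meet cB (by omega) (by omega) cL (by omega) (by omega) (by omega) (by omega)
  obtain ⟨z4, a4, b4⟩ := H85.Strict.hv_meet cX (by omega) (by omega) cL (by omega) (by omega) (by omega) (by omega)
  obtain ⟨z5, a5, b5⟩ := H85.Strict.hv_meet cX (by omega) (by omega) cY (by omega) (by omega) (by omega) (by omega)
  -- connections in the strip
  have sT := sub (-(2 * M)) (2 * M) M (2 * M) (by omega) (by omega)
  have sB := sub (-(2 * M)) (2 * M) (-(2 * M)) (-M) (by omega) (by omega)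
  have sL := sub (-(2 * M)) (-M) (-(2 * M)) (2 * M) (by omega) (by omega)
  have sR := sub M (2 * M) (-(2 * M)) (2 * M) (by omega) (by omega)
  have sX := sub (-(2 * M)) (18 * M) (-M) M (by omega) (by omega)
  have sY := sub (15 * M) (17 * M) (-(18 * M)) (2 * M) (by omega) (by omega)
  have sA := sub (-(2 * M)) (2 * M) (-(2 * M)) (2 * M) (by omega) (by omega)
  have kTL : Perc.Conn η (strip (64 * m)) tu lu := (a1.mono_set sT).trans (b1.mono_set sL).symm
  have kTR : Perc.Conn η (strip (64 * m)) tu ru := (a2.mono_set sT).trans (b2.mono_set sR).symm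
  have kBL : Perc.Conn η (strip (64 * m)) bu lu := (a3.mono_set sB).trans (b3.mono_set sL).symm
  have kXL : Perc.Conn η (strip (64 * m)) xu lu := (a4.mono_set sX).trans (b4.mono_set sL).symm
  have kXY : Perc.Conn η (strip (64 * m)) xu yu := (a5.mono_set sX).trans (b5.mono_set sY).symm
  -- the arm meets the circuit
  have k0L : Perc.Conn η (strip (64 * m)) 0 lu := by
    have h00 : (0 : Vert).1 = 0 := rfl
    have h01 : (0 : Vert).2 = 0 := rfl
    rcases hwc with h | h | h | h
    · obtain ⟨z, k1, k2⟩ := H85.Strict.hv_meet cA.symm (a₂ := -(2 * M)) (b₂ := -M) (by omega)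
        (by rw [h00]; omega) cL (by omega) (by omega) (by omega) (by omega)
      exact ((cA.mono_set sA).trans (k1.mono_set sA)).trans (k2.mono_set sL).symm
    · obtain ⟨z, k1, k2⟩ := H85.Strict.hv_meet cA (a₂ := M) (b₂ := 2 * M) (by rw [h00]; omega)
        (by omega) cR (by omega) (by omega) (by omega) (by omega)
      exact (((k1.mono_set sA).trans (k2.mono_set sR).symm).trans kTR.symm).trans kTL
    · obtain ⟨z, k1, k2⟩ := H85.Strict.hv_meet cB (a₂ := -(2 * M)) (b₂ := 2 * M) (by omega)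
        (by omega) cA.symm (by omega) (by rw [h01]; omega) (by omega) (by omega)
      exact (((cA.mono_set sA).trans (k2.mono_set sA)).trans (k1.mono_set sB).symm).trans kBL
    · obtain ⟨z, k1, k2⟩ := H85.Strict.hv_meet cT (a₂ := -(2 * M)) (b₂ := 2 * M) (by omega)
        (by omega) cA (by rw [h01]; omega) (by omega) (by omega) (by omega)
      exact ((k2.mono_set sA).trans (k1.mono_set sT).symm).trans kTL
  -- the translate of `B`
  have cB' := cylArm_conn_sh (16 * m) ω 1 (S' := Perc.rect (14 * M) (18 * M) (-(18 * M)) (-(17 * M)))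
    (fun v hv => by
      simp only [Perc.rect, Set.mem_ofPred_eq, sh] at hv ⊢
      push_cast
      omega) cB
  have hbu' : (sh (16 * m) 1 bu).1 = 14 * M := by
    simp only [sh]
    push_cast
    omega
  have hbv' : (sh (16 * m) 1 bv).1 = 18 * M := by
    simp only [sh]
    push_cast
    omega
  obtain ⟨z6, a6, b6⟩ := H85.Strict.hv_meet cB' (by omega) (by omega) cY (by omega) (by omega)
    (by omega) (by omega)
  have sB' := sub (14 * M) (18 * M) (-(18 * M)) (-(17 * M)) (by omega) (by omega)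
  have k1 : Perc.Conn η (strip (64 * m)) yu (sh (16 * m) 1 bu) :=
    (b6.mono_set sY).trans (a6.mono_set sB').symm
  have k2 : Perc.Conn η (strip (64 * m)) (sh (16 * m) 1 bu) (sh (16 * m) 1 0) := by
    refine cylArm_conn_sh (16 * m) ω 1 ?_ (kBL.trans k0L.symm)
    intro v hv
    simp only [strip, Set.mem_ofPred_eq, sh] at hv ⊢
    omega
  have k3 : sh (16 * m) 1 0 = (((16 * m : ℕ) : ℤ), -((16 * m : ℕ) : ℤ)) := by
    simp [sh]
  rw [← k3]
  exact (((k0L.trans kXL.symm).trans kXY).trans k1).trans k2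

theorem cylArm_step (n : ℕ) {s t : Finset Edge} {A B : Set Config} {x y : ℝ}
    (hA : Perc.LocalOn s A) (hB : Perc.LocalOn t B) (iA : Perc.Incr A) (iB : Perc.Incr B)
    (hy0 : 0 ≤ y) (hx : x ≤ Pr half {ω | per n ω ∈ A})
    (hy : y ≤ Pr half {ω | per n ω ∈ B}) : x * y ≤ Pr half {ω | per n ω ∈ A ∩ B} :=
  (mul_le_mul hx hy hy0 Perc.Pr_nonneg).trans (fkg_per half n hA hB iA iB)

theorem cylArm_injOn {n : ℕ} {a b c d : ℤ} (h : b - a < n ∨ d - c < n) :
    Set.InjOn (base n) (Perc.eRect a b c d : Finset Edge) := by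
  refine (base_injOn_rect h).mono ?_
  intro e he
  have he' := Perc.mem_eRect.1 (Finset.mem_coe.1 he)
  exact he'

theorem cylArm_pr_h {n : ℕ} {a b c d : ℤ} (h : b - a < n ∨ d - c < n) :
    Pr half {ω | per n ω ∈ {η : Config | Perc.HCross η a b c d}} =
      Pr half {ω : Config | Perc.HCross ω a b c d} :=
  pr_per half (cylArm_injOn h) (Perc.localOn_hcross a b c d)

theorem cylArm_pr_v {n : ℕ} {a b c d : ℤ} (h : b - a < n ∨ d - c < n) :
    Pr half {ω | per n ω ∈ {η : Config | Perc.VCross η a b c d}} =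
      Pr half {ω : Config | Perc.VCross ω a b c d} :=
  pr_per half (cylArm_injOn h) (Perc.localOn_vcross a b c d)

/-- An arm of the plane can be completed to a winding path on the cylinder. -/
theorem arm_le_wind : ∃ c : ℝ, 0 < c ∧ ∀ m : ℕ, 1 ≤ m → c * Perc.arm half (2 * m) ≤
    Pr half {ω | Perc.Conn (per (16 * m) ω) (strip (64 * m)) 0
      (((16 * m : ℕ) : ℤ), -((16 * m : ℕ) : ℤ))} := by
  classical
  obtain ⟨c, hc, hrsw⟩ := Perc.rsw
  refine ⟨c ^ 14, by positivity, fun m hm => ?_⟩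
  have hM : (1 : ℤ) ≤ (m : ℤ) := by exact_mod_cast hm
  -- probabilities of the crossings
  have hshort : ∀ x y : ℤ, c ≤ Pr half {ω : Config | Perc.HCross ω x (x + 4 * m) y (y + m)} := by
    intro x y
    have h1 := Perc.Pr_hcross_translate (p := half) (a := 0) (b := 4 * (m : ℤ)) (c := 0)
      (d := (m : ℤ)) x y
    rw [zero_add, zero_add, add_comm (4 * (m : ℤ)) x, add_comm (m : ℤ) y] at h1
    rw [h1]
    exact hrsw m hm
  have hlong : ∀ x y : ℤ, c ^ 5 ≤ Pr half {ω : Config | Perc.HCross ω x (x + 20 * m) y (y + 2 * m)} := by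
    intro x y
    have h0 := H85.Strict.long_rsw (q := half) hc.le (hrsw (2 * m) (by omega)) 2
    have e1 : ((4 : ℤ) + 3 * ((2 : ℕ) : ℤ)) * ((2 * m : ℕ) : ℤ) = 20 * (m : ℤ) := by
      push_cast; ring
    have e2 : ((2 * m : ℕ) : ℤ) = 2 * (m : ℤ) := by push_cast; ring
    rw [e1, e2] at h0
    have h1 := Perc.Pr_hcross_translate (p := half) (a := 0) (b := 20 * (m : ℤ)) (c := 0)
      (d := 2 * (m : ℤ)) x y
    rw [zero_add, zero_add, add_comm (20 * (m : ℤ)) x, add_comm (2 * (m : ℤ)) y] at h1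
    rw [h1]
    simpa using h0
  have n16 : ((16 * m : ℕ) : ℤ) = 16 * (m : ℤ) := by push_cast; ring
  have pT : c ≤ Pr half {ω | per (16 * m) ω ∈ {η : Config | Perc.HCross η (-(2 * m)) (2 * m) m (2 * m)}} := by
    rw [cylArm_pr_h (by rw [n16]; omega)]
    have := hshort (-(2 * m)) m
    have e1 : -(2 * (m : ℤ)) + 4 * m = 2 * m := by ring
    have e2 : (m : ℤ) + m = 2 * m := by ring
    rw [e1, e2] at this
    exact this
  have pB : c ≤ Pr half {ω | per (16 * m) ω ∈
      {η : Config | Perc.HCross η (-(2 * m)) (2 * m) (-(2 * m)) (-m)}} := by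
    rw [cylArm_pr_h (by rw [n16]; omega)]
    have := hshort (-(2 * m)) (-(2 * m))
    have e1 : -(2 * (m : ℤ)) + 4 * m = 2 * m := by ring
    have e2 : -(2 * (m : ℤ)) + m = -m := by ring
    rw [e1, e2] at this
    exact this
  have pL : c ≤ Pr half {ω | per (16 * m) ω ∈
      {η : Config | Perc.VCross η (-(2 * m)) (-m) (-(2 * m)) (2 * m)}} := by
    rw [cylArm_pr_v (by rw [n16]; omega), Perc.Pr_vcross_eq_hcross]
    have := hshort (-(2 * m)) (-(2 * m))
    have e1 : -(2 * (m : ℤ)) + 4 * m = 2 * m := by ring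
    have e2 : -(2 * (m : ℤ)) + m = -m := by ring
    rw [e1, e2] at this
    exact this
  have pR : c ≤ Pr half {ω | per (16 * m) ω ∈
      {η : Config | Perc.VCross η m (2 * m) (-(2 * m)) (2 * m)}} := by
    rw [cylArm_pr_v (by rw [n16]; omega), Perc.Pr_vcross_eq_hcross]
    have := hshort (-(2 * m)) m
    have e1 : -(2 * (m : ℤ)) + 4 * m = 2 * m := by ring
    have e2 : (m : ℤ) + m = 2 * m := by ring
    rw [e1, e2] at this
    exact this
  have p1 : c ^ 5 ≤ Pr half {ω | per (16 * m) ω ∈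
      {η : Config | Perc.HCross η (-(2 * m)) (18 * m) (-m) m}} := by
    rw [cylArm_pr_h (by rw [n16]; omega)]
    have := hlong (-(2 * m)) (-m)
    have e1 : -(2 * (m : ℤ)) + 20 * m = 18 * m := by ring
    have e2 : -(m : ℤ) + 2 * m = m := by ring
    rw [e1, e2] at this
    exact this
  have p2 : c ^ 5 ≤ Pr half {ω | per (16 * m) ω ∈
      {η : Config | Perc.VCross η (15 * m) (17 * m) (-(18 * m)) (2 * m)}} := by
    rw [cylArm_pr_v (by rw [n16]; omega), Perc.Pr_vcross_eq_hcross]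
    have := hlong (-(18 * m)) (15 * m)
    have e1 : -(18 * (m : ℤ)) + 20 * m = 2 * m := by ring
    have e2 : 15 * (m : ℤ) + 2 * m = 17 * m := by ring
    rw [e1, e2] at this
    exact this
  have pA : Perc.arm half (2 * m) ≤ Pr half {ω | per (16 * m) ω ∈ Perc.Arm 0 (2 * m)} :=
    (pr_per_arm half (by omega)).ge
  -- FKG
  have q1 := cylArm_step (16 * m) (Perc.localOn_arm 0 (2 * m)) (Perc.localOn_hcross _ _ _ _)
    (Perc.incr_arm 0 (2 * m)) (Perc.incr_hcross _ _ _ _) hc.le pA pT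
  have q2 := cylArm_step (16 * m) ((Perc.localOn_arm 0 (2 * m)).inter' (Perc.localOn_hcross _ _ _ _))
    (Perc.localOn_hcross _ _ _ _)
    ((Perc.incr_arm 0 (2 * m)).inter (Perc.incr_hcross _ _ _ _)) (Perc.incr_hcross _ _ _ _) hc.le q1 pB
  have q3 := cylArm_step (16 * m) (((Perc.localOn_arm 0 (2 * m)).inter'
    (Perc.localOn_hcross _ _ _ _)).inter' (Perc.localOn_hcross _ _ _ _)) (Perc.localOn_vcross _ _ _ _)
    (((Perc.incr_arm 0 (2 * m)).inter (Perc.incr_hcross _ _ _ _)).inter (Perc.incr_hcross _ _ _ _))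
    (Perc.incr_vcross _ _ _ _) hc.le q2 pL
  have q4 := cylArm_step (16 * m) ((((Perc.localOn_arm 0 (2 * m)).inter'
    (Perc.localOn_hcross _ _ _ _)).inter' (Perc.localOn_hcross _ _ _ _)).inter'
    (Perc.localOn_vcross _ _ _ _)) (Perc.localOn_vcross _ _ _ _)
    ((((Perc.incr_arm 0 (2 * m)).inter (Perc.incr_hcross _ _ _ _)).inter
    (Perc.incr_hcross _ _ _ _)).inter (Perc.incr_vcross _ _ _ _))
    (Perc.incr_vcross _ _ _ _) hc.le q3 pR
  have q5 := cylArm_step (16 * m) (((((Perc.localOn_arm 0 (2 * m)).inter'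
    (Perc.localOn_hcross _ _ _ _)).inter' (Perc.localOn_hcross _ _ _ _)).inter'
    (Perc.localOn_vcross _ _ _ _)).inter' (Perc.localOn_vcross _ _ _ _)) (Perc.localOn_hcross _ _ _ _)
    (((((Perc.incr_arm 0 (2 * m)).inter (Perc.incr_hcross _ _ _ _)).inter
    (Perc.incr_hcross _ _ _ _)).inter (Perc.incr_vcross _ _ _ _)).inter (Perc.incr_vcross _ _ _ _))
    (Perc.incr_hcross _ _ _ _) (by positivity) q4 p1
  have q6 := cylArm_step (16 * m) ((((((Perc.localOn_arm 0 (2 * m)).inter'
    (Perc.localOn_hcross _ _ _ _)).inter' (Perc.localOn_hcross _ _ _ _)).inter'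
    (Perc.localOn_vcross _ _ _ _)).inter' (Perc.localOn_vcross _ _ _ _)).inter'
    (Perc.localOn_hcross _ _ _ _)) (Perc.localOn_vcross _ _ _ _)
    ((((((Perc.incr_arm 0 (2 * m)).inter (Perc.incr_hcross _ _ _ _)).inter
    (Perc.incr_hcross _ _ _ _)).inter (Perc.incr_vcross _ _ _ _)).inter
    (Perc.incr_vcross _ _ _ _)).inter (Perc.incr_hcross _ _ _ _))
    (Perc.incr_vcross _ _ _ _) (by positivity) q5 p2
  have e : c ^ 14 * Perc.arm half (2 * m) =
      Perc.arm half (2 * m) * c * c * c * c * c ^ 5 * c ^ 5 := by ring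
  rw [e]
  refine q6.trans (Perc.Pr_mono ?_)
  rintro ω ⟨⟨⟨⟨⟨⟨w1, w2⟩, w3⟩, w4⟩, w5⟩, w6⟩, w7⟩
  exact cylArm_det hm w1 w2 w3 w4 w5 w6 w7

end Pool.Agent.H89.Link
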