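import Pool.Agent.H89.Link.Defs

/-!
# LINK module `Potential`: parity potentials

`A : Edge → ZMod 2` supported in rows of absolute value `< H` (the row of `e` is `e.1 + e.2.1`).
Ray potential of the face with lower left corner `(a, b)`: the sum of `A` over the horizontal edges above,
  `pot A H (a, b) = ∑_{j = b + 1}^{H - a - 1} A (a, j, false)`   (all other terms vanish).
* `pot_hor`: `pot (a, b - 1) + pot (a, b) = A (a, b, false)` (trivial), for all `(a, b)`;
* `pot_ver`: `pot (a - 1, b) + pot (a, b) = A (a, b, true) + ∑_{j > b} vsum A (a, j)` where the sum runs over the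
  vertices `(a, j)` with `b < j` (finitely many non zero terms): telescoping of the vertical edges.
So if all vertices have even degree (`vsum A V = 0`) then `pot` is a potential on the whole plane; if the only
vertex with odd degree is `0`, then it is a potential except across the edges `(0, b, true)`, `b < 0`.
A finite or periodic sum of open paths gives such an `A`: `pathSum` of a list of vertices.
-/

set_option autoImplicit false

namespace Pool.Agent.H89.Link

open Pool.Agent.H89.Perc (Vert Edge Config src tgt lowFace vsum)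

/-- The ray potential. -/
noncomputable def pot (A : Edge → ZMod 2) (H : ℕ) (f : Vert) : ZMod 2 :=
  ∑ j ∈ Finset.Ioo f.2 ((H : ℤ) - f.1), A (f.1, j, false)

variable {A : Edge → ZMod 2} {H : ℕ}

/-- the potential vanishes at the levels `≥ H` -/
theorem pot_top (A : Edge → ZMod 2) (H : ℕ) {f : Vert} (hf : (H : ℤ) ≤ f.1 + f.2 + 1) :
    pot A H f = 0 := by
  unfold pot
  apply Finset.sum_eq_zero
  intro j hj
  rw [Finset.mem_Ioo] at hj
  omega

/-- The upper end of the ray does not matter. -/
private lemma Potential_ext (hA : ∀ e : Edge, ¬ (-(H : ℤ) < e.1 + e.2.1 ∧ e.1 + e.2.1 + 1 < H) →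
    A e = 0) (a b K : ℤ) (hK : (H : ℤ) - a ≤ K) :
    pot A H (a, b) = ∑ j ∈ Finset.Ioo b K, A (a, j, false) := by
  unfold pot
  refine Finset.sum_subset ?_ ?_
  · intro j hj
    rw [Finset.mem_Ioo] at hj ⊢
    simp only at hj
    omega
  · intro j hj hj'
    rw [Finset.mem_Ioo] at hj hj'
    simp only at hj'
    apply hA
    simp only
    omega

private lemma Potential_succ (f : ℤ → ZMod 2) (b K : ℤ) (h : b < K) :
    ∑ j ∈ Finset.Ioo b (K + 1), f j = ∑ j ∈ Finset.Ioo b K, f j + f K := by
  have h1 : Finset.Ioo b (K + 1) = insert K (Finset.Ioo b K) := by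
    ext j
    rw [Finset.mem_insert, Finset.mem_Ioo, Finset.mem_Ioo]
    omega
  rw [h1, Finset.sum_insert (by simp), add_comm]

private lemma Potential_tele (g : ℤ → ZMod 2) (b : ℤ) (m : ℕ) :
    ∑ j ∈ Finset.Ioo b (b + 1 + m), (g j + g (j - 1)) = g b + g (b + m) := by
  induction m with
  | zero =>
    have h1 : Finset.Ioo b (b + 1 + (0 : ℕ)) = ∅ := by
      ext j
      simp only [Finset.mem_Ioo, Finset.notMem_empty, iff_false]
      omega
    rw [h1, Finset.sum_empty]
    simp [CharTwo.add_self_eq_zero]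
  | succ m ih =>
    have h1 : b + 1 + ((m + 1 : ℕ) : ℤ) = (b + 1 + m) + 1 := by push_cast; ring
    rw [h1, Potential_succ _ _ _ (by omega), ih]
    have h2 : b + 1 + (m : ℤ) - 1 = b + m := by ring
    have h3 : b + ((m + 1 : ℕ) : ℤ) = b + 1 + m := by push_cast; ring
    rw [h2, h3]
    have h4 := CharTwo.add_self_eq_zero (g (b + m))
    linear_combination h4

/-- Vertical edges. -/
private lemma Potential_ver (hA : ∀ e : Edge,
    ¬ (-(H : ℤ) < e.1 + e.2.1 ∧ e.1 + e.2.1 + 1 < H) → A e = 0) (a b K : ℤ)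
    (hK : (H : ℤ) - a + 1 ≤ K) (hb : b < K) :
    pot A H (a - 1, b) + pot A H (a, b) =
      A (a, b, true) + ∑ j ∈ Finset.Ioo b K, vsum A (a, j) := by
  rw [Potential_ext hA (a - 1) b K (by omega), Potential_ext hA a b K (by omega)]
  obtain ⟨m, hm⟩ : ∃ m : ℕ, K = b + 1 + m := ⟨(K - b - 1).toNat, by omega⟩
  have h1 := Potential_tele (fun j => A (a, j, true)) b m
  rw [← hm] at h1
  have h2 : A (a, b + m, true) = 0 := by
    apply hA
    simp only
    omega
  simp only [h2, add_zero] at h1
  rw [← h1, ← Finset.sum_add_distrib, ← Finset.sum_add_distrib]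
  refine Finset.sum_congr rfl fun j _ => ?_
  unfold vsum
  simp only
  have h3 := CharTwo.add_self_eq_zero (A (a, j, true))
  have h4 := CharTwo.add_self_eq_zero (A (a, j - 1, true))
  linear_combination -h3 - h4

private lemma Potential_hor (hA : ∀ e : Edge,
    ¬ (-(H : ℤ) < e.1 + e.2.1 ∧ e.1 + e.2.1 + 1 < H) → A e = 0) (a b : ℤ) :
    pot A H (a, b - 1) + pot A H (a, b) = A (a, b, false) := by
  obtain ⟨K, hK1, hK2⟩ : ∃ K : ℤ, (H : ℤ) - a ≤ K ∧ b < K :=
    ⟨max ((H : ℤ) - a) (b + 1), le_max_left _ _, lt_of_lt_of_le (by omega) (le_max_right _ _)⟩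
  rw [Potential_ext hA a (b - 1) K hK1, Potential_ext hA a b K hK1]
  have h1 : Finset.Ioo (b - 1) K = insert b (Finset.Ioo b K) := by
    ext j
    rw [Finset.mem_insert, Finset.mem_Ioo, Finset.mem_Ioo]
    omega
  rw [h1, Finset.sum_insert (by simp), add_assoc, CharTwo.add_self_eq_zero, add_zero]

/-- Potential when all degrees are even. -/
theorem pot_even (hA : ∀ e : Edge, ¬ (-(H : ℤ) < e.1 + e.2.1 ∧ e.1 + e.2.1 + 1 < H) → A e = 0)
    (hv : ∀ V, vsum A V = 0) (e : Edge) : pot A H (lowFace e) + pot A H (src e) = A e := by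
  obtain ⟨a, b, t⟩ := e
  cases t
  · exact Potential_hor hA a b
  · have h1 := Potential_ver hA a b (max ((H : ℤ) - a + 1) (b + 1)) (le_max_left _ _)
      (lt_of_lt_of_le (by omega) (le_max_right _ _))
    rw [Finset.sum_eq_zero (fun j _ => hv _), add_zero] at h1
    exact h1

/-- Potential when `0` is the only vertex of odd degree. -/
theorem pot_odd (hA : ∀ e : Edge, ¬ (-(H : ℤ) < e.1 + e.2.1 ∧ e.1 + e.2.1 + 1 < H) → A e = 0)
    (hv : ∀ V, V ≠ 0 → vsum A V = 0) (h0 : vsum A 0 = 1) (e : Edge) :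
    pot A H (lowFace e) + pot A H (src e) =
      A e + if e.2.2 = true ∧ e.1 = 0 ∧ e.2.1 < 0 then 1 else 0 := by
  obtain ⟨a, b, t⟩ := e
  cases t
  · simp only [Bool.false_eq_true, false_and, if_false, add_zero]
    exact Potential_hor hA a b
  · obtain ⟨K, hK1, hK2, hK3⟩ : ∃ K : ℤ, (H : ℤ) - a + 1 ≤ K ∧ b < K ∧ 0 < K :=
      ⟨max ((H : ℤ) - a + 1) (max (b + 1) 1), le_max_left _ _,
        lt_of_lt_of_le (by omega) ((le_max_left _ _).trans (le_max_right _ _)),
        lt_of_lt_of_le (by omega) ((le_max_right _ _).trans (le_max_right _ _))⟩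
    have h1 := Potential_ver hA a b K hK1 hK2
    have h2 : ∑ j ∈ Finset.Ioo b K, vsum A (a, j) = if a = 0 ∧ b < 0 then 1 else 0 := by
      split_ifs with h
      · obtain ⟨ha, hb⟩ := h
        subst ha
        rw [Finset.sum_eq_single_of_mem (0 : ℤ) (Finset.mem_Ioo.2 ⟨hb, hK3⟩)]
        · exact h0
        · intro j _ hj
          apply hv
          intro h
          exact hj (congrArg Prod.snd h)
      · apply Finset.sum_eq_zero
        intro j hj
        apply hv
        intro h'
        rw [Finset.mem_Ioo] at hj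
        have e1 : a = 0 := congrArg Prod.fst h'
        have e2 : j = 0 := congrArg Prod.snd h'
        exact h ⟨e1, by omega⟩
    rw [h2] at h1
    simp only [true_and]
    exact h1

private lemma Potential_vsum_add (c c' : Edge → ZMod 2) (V : Vert) :
    vsum (fun e => c e + c' e) V = vsum c V + vsum c' V := by
  unfold vsum
  ring

open Classical in
private lemma Potential_vsum_single (e : Edge) (V : Vert) :
    vsum (fun e' => if e' = e then (1 : ZMod 2) else 0) V =
      (if V = src e then 1 else 0) + (if V = tgt e then 1 else 0) := by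
  obtain ⟨x, y, t⟩ := e
  obtain ⟨a, b⟩ := V
  cases t
  · have h1 : ((a, b) : Vert) = tgt (x, y, false) ↔ a - 1 = x ∧ b = y := by
      simp only [tgt, Bool.false_eq_true, if_false, Prod.mk.injEq]
      omega
    simp only [vsum, src, h1, Prod.mk.injEq, and_true, Bool.true_eq_false, and_false, if_false,
      add_zero]
  · have h1 : ((a, b) : Vert) = tgt (x, y, true) ↔ a = x ∧ b - 1 = y := by
      simp only [tgt, if_true, Prod.mk.injEq]
      omega
    simp only [vsum, src, h1, Prod.mk.injEq, and_true, Bool.false_eq_true, and_false, if_false,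
      add_zero, zero_add]

/-- An open path gives an edge function with values in `ZMod 2`, supported on open edges between
vertices of `S`, with odd degree exactly at the two end points (if they are different). -/
theorem exists_pathSum {ω : Config} {S : Set Vert} {u v : Vert} (h : Perc.Conn ω S u v) :
    ∃ c : Edge → ZMod 2, (∀ e, c e ≠ 0 → ω e = true ∧ src e ∈ S ∧ tgt e ∈ S) ∧
      {e | c e ≠ 0}.Finite ∧
      ∀ V, vsum c V = (if V = u then 1 else 0) + (if V = v then 1 else 0) := by
  classical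
  refine h.induction_right (P := fun v => ∃ c : Edge → ZMod 2,
    (∀ e, c e ≠ 0 → ω e = true ∧ src e ∈ S ∧ tgt e ∈ S) ∧ {e | c e ≠ 0}.Finite ∧
      ∀ V, vsum c V = (if V = u then 1 else 0) + (if V = v then 1 else 0)) ?_ ?_
  · refine ⟨fun _ => 0, fun e he => absurd rfl he, by simp, fun V => ?_⟩
    rw [CharTwo.add_self_eq_zero]
    simp [vsum]
  · rintro a b - ⟨ha, hb, e, he, heo⟩ ⟨c, hc1, hc2, hc3⟩
    refine ⟨fun e' => c e' + if e' = e then 1 else 0, ?_, ?_, ?_⟩
    · intro e' he'
      by_cases h1 : e' = e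
      · rw [h1]
        rcases he with ⟨g1, g2⟩ | ⟨g1, g2⟩
        · exact ⟨heo, g1 ▸ ha, g2 ▸ hb⟩
        · exact ⟨heo, g2 ▸ hb, g1 ▸ ha⟩
      · apply hc1
        simpa [h1] using he'
    · refine (hc2.union (Set.finite_singleton e)).subset ?_
      intro e' he'
      by_cases h1 : e' = e
      · exact Or.inr h1
      · left
        simpa [h1] using he'
    · intro V
      rw [Potential_vsum_add, hc3, Potential_vsum_single]
      rcases he with ⟨g1, g2⟩ | ⟨g1, g2⟩
      · rw [g1, g2]
        have h2 := CharTwo.add_self_eq_zero (if V = src e then (1 : ZMod 2) else 0)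
        linear_combination h2
      · rw [g1, g2]
        have h2 := CharTwo.add_self_eq_zero (if V = tgt e then (1 : ZMod 2) else 0)
        linear_combination h2

/-- For a finite set of edges only finitely many translates of an edge meet it. -/
private lemma Potential_fin {ι : Type*} (φ : ι → ℤ) (hφ : Function.Injective φ) (n : ℕ)
    (hn : 1 ≤ n) {c : Edge → ZMod 2} (hc : {e | c e ≠ 0}.Finite) (x y : ℤ) (t : Bool) :
    (Function.support fun k : ι => c (x + n * φ k, y - n * φ k, t)).Finite := by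
  refine Set.Finite.preimage (f := fun k : ι => ((x + n * φ k, y - n * φ k, t) : Edge)) ?_ hc
  intro k _ k' _ h
  have h1 := congrArg Prod.fst h
  simp only at h1
  have h2 : (n : ℤ) * φ k = n * φ k' := by linarith
  exact hφ (mul_left_cancel₀ (by exact_mod_cast (by omega : n ≠ 0)) h2)

private lemma Potential_vsum_finsum {ι : Type*} (φ : ι → ℤ) (hφ : Function.Injective φ) (n : ℕ)
    (hn : 1 ≤ n) {c : Edge → ZMod 2} (hc : {e | c e ≠ 0}.Finite) (V : Vert) :
    vsum (fun e => ∑ᶠ k : ι, c (e.1 + n * φ k, e.2.1 - n * φ k, e.2.2)) V =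
      ∑ᶠ k : ι, vsum c (V.1 + n * φ k, V.2 - n * φ k) := by
  have f1 := Potential_fin φ hφ n hn hc V.1 V.2 false
  have f2 := Potential_fin φ hφ n hn hc V.1 V.2 true
  have f3 := Potential_fin φ hφ n hn hc (V.1 - 1) V.2 false
  have f4 := Potential_fin φ hφ n hn hc V.1 (V.2 - 1) true
  have e3 : ∀ k, V.1 + (n : ℤ) * φ k - 1 = V.1 - 1 + n * φ k := fun k => by ring
  have e4 : ∀ k, V.2 - (n : ℤ) * φ k - 1 = V.2 - 1 - n * φ k := fun k => by ring
  unfold vsum
  simp only [e3, e4]
  have g1 := (f1.union f2).subset (Function.support_add _ _)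
  have g2 := (g1.union f3).subset (Function.support_add _ _)
  rw [finsum_add_distrib g2 f4, finsum_add_distrib g1 f3, finsum_add_distrib f1 f2]

/-- Sum of all translates by `(n k, - n k)`, `k ∈ ℤ`. -/
theorem exists_perSum (n : ℕ) (hn : 1 ≤ n) {c : Edge → ZMod 2} (hc : {e | c e ≠ 0}.Finite) :
    ∃ C : Edge → ZMod 2, (∀ e, C e ≠ 0 → ∃ k : ℤ, c (e.1 + n * k, e.2.1 - n * k, e.2.2) ≠ 0) ∧
      (∀ (e : Edge) (k : ℤ), C (e.1 + n * k, e.2.1 - n * k, e.2.2) = C e) ∧
      (∀ V : Vert, vsum C V = ∑ᶠ k : ℤ, vsum c (V.1 + n * k, V.2 - n * k)) := by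
  refine ⟨fun e => ∑ᶠ k : ℤ, c (e.1 + n * k, e.2.1 - n * k, e.2.2), ?_, ?_, ?_⟩
  · intro e he
    by_contra hno
    push Not at hno
    exact he (by simp only [hno]; exact finsum_zero)
  · intro e k
    simp only
    have h1 := finsum_comp_equiv (Equiv.addLeft k)
      (f := fun k' : ℤ => c (e.1 + n * k', e.2.1 - n * k', e.2.2))
    rw [← h1]
    refine finsum_congr fun k' => ?_
    congr 2
    · simp only [Equiv.coe_addLeft]
      ring
    · congr 1
      simp only [Equiv.coe_addLeft]
      ring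
  · intro V
    exact Potential_vsum_finsum (fun k : ℤ => k) (fun _ _ h => h) n hn hc V

/-- Sum of the translates of a path from `0` to `(n, -n)` by `(n k, - n k)`, `k ≥ 0`. -/
theorem exists_halfSum (n : ℕ) (hn : 1 ≤ n) {c : Edge → ZMod 2} (hc : {e | c e ≠ 0}.Finite)
    (hv : ∀ V : Vert, vsum c V = (if V = 0 then 1 else 0) + (if V = ((n : ℤ), -(n : ℤ)) then 1 else 0)) :
    ∃ C : Edge → ZMod 2, (∀ e, C e ≠ 0 → ∃ k : ℤ, c (e.1 + n * k, e.2.1 - n * k, e.2.2) ≠ 0) ∧
      (∃ B : ℤ, ∀ e, C e ≠ 0 → B ≤ e.1) ∧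
      (∀ V : Vert, V ≠ 0 → vsum C V = 0) ∧ vsum C 0 = 1 := by
  have hn0 : (0 : ℤ) < n := by exact_mod_cast hn
  have hφ : Function.Injective fun k : ℕ => -(k : ℤ) := by
    intro k k' h
    simp only at h
    omega
  obtain ⟨f, hf⟩ : ∃ f : Vert → ℕ → ZMod 2, ∀ V k, f V k =
      if V = ((n : ℤ) * k, -((n : ℤ) * k)) then 1 else 0 := ⟨_, fun _ _ => rfl⟩
  -- the degrees
  have hdeg : ∀ V : Vert, vsum (fun e => ∑ᶠ k : ℕ, c (e.1 + n * -(k : ℤ), e.2.1 - n * -(k : ℤ),
      e.2.2)) V = f V 0 := by
    intro V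
    have h1 := Potential_vsum_finsum (fun k : ℕ => -(k : ℤ)) hφ n hn hc V
    rw [h1]
    have h2 : ∀ k : ℕ, vsum c (V.1 + n * -(k : ℤ), V.2 - n * -(k : ℤ)) = f V k + f V (k + 1) := by
      intro k
      rw [hv, hf, hf]
      congr 1
      · have : ((V.1 + n * -(k : ℤ), V.2 - n * -(k : ℤ)) : Vert) = 0 ↔
            V = ((n : ℤ) * k, -((n : ℤ) * k)) := by
          obtain ⟨x, y⟩ := V
          simp only [Prod.mk_eq_zero, Prod.mk.injEq]
          constructor
          · rintro ⟨h3, h4⟩
            constructor <;> linarith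
          · rintro ⟨h3, h4⟩
            constructor <;> linarith
        simp only [this]
      · have : ((V.1 + n * -(k : ℤ), V.2 - n * -(k : ℤ)) : Vert) = ((n : ℤ), -(n : ℤ)) ↔
            V = ((n : ℤ) * ((k + 1 : ℕ) : ℤ), -((n : ℤ) * ((k + 1 : ℕ) : ℤ))) := by
          obtain ⟨x, y⟩ := V
          simp only [Prod.mk.injEq]
          push_cast
          constructor
          · rintro ⟨h3, h4⟩
            constructor <;> linarith
          · rintro ⟨h3, h4⟩
            constructor <;> linarith
        simp only [this]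
    simp only [h2]
    -- `f V k = 0` for large `k`
    have h3 : ∀ k : ℕ, V.1.natAbs < k → f V k = 0 := by
      intro k hk
      rw [hf, if_neg]
      intro h
      have h4 : V.1 = (n : ℤ) * k := by rw [h]
      have h5 : (k : ℤ) ≤ n * k := by nlinarith
      omega
    rw [finsum_eq_sum_of_support_subset (s := Finset.range (V.1.natAbs + 1))]
    · have h4 : ∀ m : ℕ, ∑ k ∈ Finset.range m, (f V k + f V (k + 1)) = f V 0 + f V m := by
        intro m
        induction m with
        | zero => simp [CharTwo.add_self_eq_zero]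
        | succ m ih =>
          rw [Finset.sum_range_succ, ih]
          have h5 := CharTwo.add_self_eq_zero (f V m)
          linear_combination h5
      rw [h4, h3 (V.1.natAbs + 1) (by omega), add_zero]
    · intro k hk
      rw [Finset.coe_range, Set.mem_Iio]
      by_contra h4
      rw [Function.mem_support] at hk
      apply hk
      rw [h3 k (by omega), h3 (k + 1) (by omega), add_zero]
  refine ⟨fun e => ∑ᶠ k : ℕ, c (e.1 + n * -(k : ℤ), e.2.1 - n * -(k : ℤ), e.2.2), ?_, ?_, ?_, ?_⟩
  · intro e he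
    by_contra hno
    push Not at hno
    exact he (by simp only [hno]; exact finsum_zero)
  · obtain ⟨B, hB⟩ := (hc.image fun e => e.1).bddBelow
    refine ⟨B, fun e he => ?_⟩
    have h1 : ∃ k : ℕ, c (e.1 + n * -(k : ℤ), e.2.1 - n * -(k : ℤ), e.2.2) ≠ 0 := by
      by_contra hno
      push Not at hno
      exact he (by simp only [hno]; exact finsum_zero)
    obtain ⟨k, hk⟩ := h1
    have h2 : B ≤ e.1 + n * -(k : ℤ) := hB ⟨_, hk, rfl⟩
    have h3 : 0 ≤ (n : ℤ) * k := by positivity
    linarith
  · intro V hV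
    rw [hdeg, hf, if_neg]
    intro h
    apply hV
    rw [h]
    simp
  · rw [hdeg, hf, if_pos]
    simp only [Nat.cast_zero, mul_zero, neg_zero]
    rfl

end Pool.Agent.H89.Link
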