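import Pool.Agent.H89.Link.Face
import Pool.Agent.H89.Link.Potential

/-!
# LINK module `Fc`: the event `Fc` implies the four-leg event

`η = per n ω`, `Conn η univ` is an equivalence relation; it is invariant under the translation by `(n, -n)`.
Clusters `C_k` = cluster of `y + k (n, -n)`; `y` is joined to `(n, -n) = x + (n, -n)`, so
`C_k` = cluster of `x + (k+1) (n, -n)`.
(1) `C_i ≠ C_j` for `i ≠ j`: by translation take `i = 0`; `j = -1`: `C_{-1}` = cluster of `x` (not joined to `y`);
`j = 1`: by translation; `|j| ≥ 2`: `y + j (n, -n)` has `v.1 - v.2 = 2 + 2 n j`, which is not in `(-n, 3n)`.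
(2) Primal colours: `F v` = cluster of `v` (type `Set Vert`, `F v = {u | Conn η univ v u}`), constant along open edges,
so `F (pv c)` is invariant under the steps of the composite graph (for `inl c` and `inr c`).
The home columns are `c = L a` (`pv c = x + a (n, -n)`) and `c = L a + 1` (`pv c = y + a (n, -n)`).
(3) Dual colours: path sum `c` of the path from `y` to `(n, -n)` in the strip, plus the edges `(0, 0, false)` and
`(1, -1, true)` shifted by `(n, -n)`, (so that it becomes a path sum from `y` to `y + (n, -n)`), periodised by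
`exists_perSum`: `A`, all degrees even, supported in the strip `H` (`H ≥ 2` because `n ≥ 2`), and open edges
except the gates `(0, 0, false) + k (n, -n)`, `(1, -1, true) + k (n, -n)`.  `G' = pot A H` (periodic).
`Gu f = G' f + 1` if `f = q + k (n, -n)` for some `k` (`q = (0, -1)`), else `G' f`; `Gd = G'`.
For closed `e` in rows `≥ 0`: `Gu (lowFace e) = Gu (src e)` (the edges of rows `≥ 0` around `q` are the gates); for
closed `e` in rows `< 0`: `Gd (lowFace e) = Gd (src e)`.  `Gu = 0` on level `h ≥ H`, `Gd` constant on level `-h`.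
So `inl c ↦ Gu (dv c)`, `inr c ↦ Gd (dv c)` is invariant under the steps (for `c` not home `dv c` is not a translate of
`q`); all `inl` home nodes have colour `G' q + 1` and all `inr` home nodes have colour `G' q`.
(4) `Leg`: if `hpos u a` and `hpos v b` are connected then `u`, `v` are both `inl` or both `inr` by (3), and by (1), (2)
`a - 1 = b - 1` (`u = v` = strand 0), `a = b` (`u = v` = strand 1), or `a - 1 = b`, or `a = b - 1`.
-/

set_option autoImplicit false

namespace Pool.Agent.H89.Link

open H56.EX
open Pool.Agent.H89.Perc (Vert Edge Config src tgt lowFace vsum)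

variable {L n : ℕ}


/-- translation of a vertex by `k` periods -/
def sh (n : ℕ) (k : ℤ) (v : Vert) : Vert := (v.1 + n * k, v.2 - n * k)

/-- translation of an edge by `k` periods -/
def she (n : ℕ) (k : ℤ) (e : Edge) : Edge := (e.1 + n * k, e.2.1 - n * k, e.2.2)

lemma src_she (n : ℕ) (k : ℤ) (e : Edge) : src (she n k e) = sh n k (src e) := rfl

lemma tgt_she (n : ℕ) (k : ℤ) (e : Edge) : tgt (she n k e) = sh n k (tgt e) := by
  obtain ⟨a, b, t⟩ := e
  rcases t with _ | _
  · simp only [tgt, she, sh, Bool.false_eq_true, if_false]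
    ext <;> simp only <;> ring
  · simp only [tgt, she, sh, if_true]
    ext <;> simp only
    ring

lemma conn_sh (n : ℕ) (ω : Config) (k : ℤ) {u v : Vert}
    (h : Perc.Conn (per n ω) Set.univ u v) :
    Perc.Conn (per n ω) Set.univ (sh n k u) (sh n k v) := by
  refine h.induction_right (P := fun x => Perc.Conn (per n ω) Set.univ (sh n k u) (sh n k x))
    (Perc.Conn.refl trivial) ?_
  rintro a b _ ⟨_, _, e, he, ho⟩ ih
  refine ih.tail ⟨trivial, trivial, she n k e, ?_, ?_⟩
  · rcases he with ⟨h1, h2⟩ | ⟨h1, h2⟩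
    · left; rw [src_she, tgt_she, ← h1, ← h2]; exact ⟨rfl, rfl⟩
    · right; rw [src_she, tgt_she, ← h1, ← h2]; exact ⟨rfl, rfl⟩
  · have := per_shift n ω e k
    rw [show she n k e = (e.1 + n * k, e.2.1 - n * k, e.2.2) from rfl, this]
    exact ho

lemma sh_sh (n : ℕ) (k l : ℤ) (v : Vert) : sh n k (sh n l v) = sh n (k + l) v := by
  unfold sh
  ext <;> simp only <;> ring

lemma sh_zero (n : ℕ) (v : Vert) : sh n 0 v = v := by
  unfold sh
  simp

/-- periodised sum -/
noncomputable def perS (n : ℕ) (c : Edge → ZMod 2) : Edge → ZMod 2 :=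
  fun e => ∑ᶠ k : ℤ, c (she n k e)

lemma she_inj {n : ℕ} (hn : 1 ≤ n) (e : Edge) : Function.Injective (fun k : ℤ => she n k e) := by
  intro k l h
  have h1 := congrArg Prod.fst h
  simp only [she] at h1
  have h2 : (n : ℤ) * k = n * l := by linarith
  exact mul_left_cancel₀ (by omega) h2

lemma sh_inj {n : ℕ} (hn : 1 ≤ n) (v : Vert) : Function.Injective (fun k : ℤ => sh n k v) := by
  intro k l h
  have h1 := congrArg Prod.fst h
  simp only [sh] at h1
  have h2 : (n : ℤ) * k = n * l := by linarith
  exact mul_left_cancel₀ (by omega) h2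

lemma perS_fin {n : ℕ} (hn : 1 ≤ n) {c : Edge → ZMod 2} (hc : {e | c e ≠ 0}.Finite) (e : Edge) :
    Function.HasFiniteSupport (fun k : ℤ => c (she n k e)) := by
  have h := Set.Finite.preimage (f := fun k : ℤ => she n k e) (s := {e | c e ≠ 0})
    ((she_inj hn e).injOn) hc
  exact h

lemma perS_per (n : ℕ) (c : Edge → ZMod 2) (k0 : ℤ) (e : Edge) :
    perS n c (she n k0 e) = perS n c e := by
  unfold perS
  rw [← finsum_comp_equiv (Equiv.addLeft k0) (f := fun k => c (she n k e))]
  congr 1
  funext k
  congr 1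
  simp only [Equiv.coe_addLeft, she]
  ext <;> simp only <;> ring

lemma perS_vsum {n : ℕ} (hn : 1 ≤ n) {c : Edge → ZMod 2} (hc : {e | c e ≠ 0}.Finite) (V : Vert) :
    vsum (perS n c) V = ∑ᶠ k : ℤ, vsum c (sh n k V) := by
  have e1 : ∀ k : ℤ, vsum c (sh n k V) = c (she n k (V.1, V.2, false)) +
      c (she n k (V.1, V.2, true)) + c (she n k (V.1 - 1, V.2, false)) +
      c (she n k (V.1, V.2 - 1, true)) := by
    intro k
    unfold vsum sh she
    simp only
    rw [show V.1 + n * k - 1 = V.1 - 1 + n * k by ring,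
      show V.2 - n * k - 1 = V.2 - 1 - n * k by ring]
  have f1 := perS_fin hn hc (V.1, V.2, false)
  have f2 := perS_fin hn hc (V.1, V.2, true)
  have f3 := perS_fin hn hc (V.1 - 1, V.2, false)
  have f4 := perS_fin hn hc (V.1, V.2 - 1, true)
  have f12 : Function.HasFiniteSupport (fun k : ℤ => c (she n k (V.1, V.2, false)) +
      c (she n k (V.1, V.2, true))) := f1.add f2
  have f123 : Function.HasFiniteSupport (fun k : ℤ => c (she n k (V.1, V.2, false)) +
      c (she n k (V.1, V.2, true)) + c (she n k (V.1 - 1, V.2, false))) := f12.add f3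
  rw [finsum_congr e1, finsum_add_distrib f123 f4, finsum_add_distrib f12 f3,
    finsum_add_distrib f1 f2]
  rfl

open Classical in
lemma finsum_ind_v {n : ℕ} (hn : 1 ≤ n) (V w : Vert) :
    (∑ᶠ k : ℤ, (if sh n k V = w then (1 : ZMod 2) else 0)) =
      if ∃ k : ℤ, sh n k V = w then 1 else 0 := by
  by_cases h : ∃ k : ℤ, sh n k V = w
  · obtain ⟨k, hk⟩ := h
    rw [if_pos ⟨k, hk⟩, finsum_eq_single _ k]
    · rw [if_pos hk]
    · intro l hl
      rw [if_neg]
      intro h2
      exact hl (sh_inj hn V (h2.trans hk.symm))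
  · rw [if_neg h]
    rw [show (fun k : ℤ => if sh n k V = w then (1 : ZMod 2) else 0) = fun _ => 0 from ?_]
    · exact finsum_zero
    · funext k
      rw [if_neg]
      exact fun h2 => h ⟨k, h2⟩

open Classical in
lemma finsum_ind_e {n : ℕ} (hn : 1 ≤ n) (e g : Edge) :
    (∑ᶠ k : ℤ, (if she n k e = g then (1 : ZMod 2) else 0)) =
      if ∃ k : ℤ, she n k e = g then 1 else 0 := by
  by_cases h : ∃ k : ℤ, she n k e = g
  · obtain ⟨k, hk⟩ := h
    rw [if_pos ⟨k, hk⟩, finsum_eq_single _ k]
    · rw [if_pos hk]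
    · intro l hl
      rw [if_neg]
      intro h2
      exact hl (she_inj hn e (h2.trans hk.symm))
  · rw [if_neg h]
    rw [show (fun k : ℤ => if she n k e = g then (1 : ZMod 2) else 0) = fun _ => 0 from ?_]
    · exact finsum_zero
    · funext k
      rw [if_neg]
      exact fun h2 => h ⟨k, h2⟩

lemma pot_sh {n : ℕ} {A : Edge → ZMod 2} (hA : ∀ (e : Edge) (k : ℤ), A (she n k e) = A e) (H : ℕ)
    (f : Vert) (k : ℤ) : pot A H (sh n k f) = pot A H f := by
  unfold pot sh
  simp only
  symm
  apply Finset.sum_bij' (fun j _ => j - n * k) (fun j _ => j + n * k)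
  · intro j hj
    rw [Finset.mem_Ioo] at hj ⊢
    constructor <;> linarith [hj.1, hj.2]
  · intro j hj
    rw [Finset.mem_Ioo] at hj ⊢
    constructor <;> linarith [hj.1, hj.2]
  · intro j _; ring
  · intro j _; ring
  · intro j _
    rw [← hA (f.1, j, false) k]
    rfl

lemma bot_const {G : Vert → ZMod 2} (h : ℕ)
    (hstep : ∀ e : Edge, e.1 + e.2.1 = -(h : ℤ) - 1 → G (lowFace e) = G (src e)) :
    ∀ f : Vert, f.1 + f.2 + 1 = -(h : ℤ) → G f = G (0, -(h : ℤ) - 1) := by
  have hstep' : ∀ a : ℤ, G (a + 1, -(h : ℤ) - 1 - (a + 1)) = G (a, -(h : ℤ) - 1 - a) := by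
    intro a
    have e1 : G (a, -(h : ℤ) - 1 - a - 1) = G (a, -(h : ℤ) - 1 - a) :=
      hstep (a, -(h : ℤ) - 1 - a, false) (by simp only; ring)
    have e2 : G (a + 1 - 1, -(h : ℤ) - 1 - a - 1) = G (a + 1, -(h : ℤ) - 1 - a - 1) :=
      hstep (a + 1, -(h : ℤ) - 1 - a - 1, true) (by simp only; ring)
    rw [show a + 1 - 1 = a by ring] at e2
    rw [show -(h : ℤ) - 1 - (a + 1) = -(h : ℤ) - 1 - a - 1 by ring, ← e2, e1]
  have hall : ∀ a : ℤ, G (a, -(h : ℤ) - 1 - a) = G (0, -(h : ℤ) - 1) := by
    intro a
    induction a using Int.induction_on with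
    | zero => simp
    | succ a ih => rw [hstep']; exact ih
    | pred a ih =>
      have := hstep' (-a - 1)
      rw [show (-(a : ℤ) - 1 + 1) = -a by ring] at this
      rw [← this]; exact ih
  intro f hf
  have h1 : f = (f.1, -(h : ℤ) - 1 - f.1) := by
    apply Prod.ext
    · rfl
    · simp only; omega
  rw [h1]
  exact hall f.1

lemma comp_const {α : Type*} {kt kb M : ℕ} {P Q : Pat L} {f : ℤ ⊕ ℤ → α}
    (hf : ∀ x y, Step kt kb M P Q x y → f x = f y) {x y : ℤ ⊕ ℤ} (h : Conn kt kb M P Q x y) :
    f x = f y := by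
  induction h with
  | rel x y h => exact hf x y h
  | refl x => rfl
  | symm x y _ ih => exact ih.symm
  | trans x y z _ _ ih1 ih2 => exact ih1.trans ih2

theorem leg_of_fc (hL : L = 2 * n) (hn : 2 ≤ n) {s : Pat L} (hs : IsStar s) {h H : ℕ}
    (he : Even h) (hH : H ≤ h) (ω : Config) (hf : per n ω ∈ Fc n H) :
    Leg 2 2 (L - 2) (up s n h ω) (dn s n h ω) := by
  classical
  have hn1 : 1 ≤ n := by omega
  set η := per n ω with hη
  obtain ⟨hf1, hf2, hf3⟩ := hf
  -- `H ≥ 2`
  have hH2 : 2 ≤ H := by
    by_contra hlt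
    have hc : ∀ v, Perc.Conn η (strip H) yy v → v = yy := by
      intro v hv
      refine hv.induction_right (P := fun x => x = yy) rfl ?_
      intro a b _ hab _
      obtain ⟨ha1, hb1, e, he1, _⟩ := hab
      exfalso
      have h12 : src e ∈ strip H ∧ tgt e ∈ strip H := by
        rcases he1 with ⟨h1, h2⟩ | ⟨h1, h2⟩
        · rw [← h1, ← h2]; exact ⟨ha1, hb1⟩
        · rw [← h1, ← h2]; exact ⟨hb1, ha1⟩
      have h3 : -(H : ℤ) < e.1 + e.2.1 := by
        have := h12.1
        simp only [strip, Set.mem_ofPred_eq, src] at this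
        exact this.1
      have h4 : e.1 + e.2.1 + 1 < H := by
        have := h12.2
        simp only [strip, Set.mem_ofPred_eq, tgt] at this
        split_ifs at this <;> simp only at this <;> omega
      omega
    have := hc _ hf1
    have h1 := congrArg Prod.fst this
    simp only [yy] at h1
    omega
  -- (1) the clusters of the translates of `y` are different
  have hkey : ∀ i j : ℤ, Perc.Conn η Set.univ (sh n i yy) (sh n j yy) → i = j := by
    have hd : ∀ d : ℤ, Perc.Conn η Set.univ yy (sh n d yy) → d = 0 := by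
      intro d hd
      have h1 := hf3 _ hd
      simp only [sh, yy] at h1
      have h2 : -(n : ℤ) < 2 + 2 * (n * d) := by linarith [h1.1]
      have h3 : 2 + 2 * ((n : ℤ) * d) < 3 * n := by linarith [h1.2]
      have hd1 : -1 < d := by
        by_contra hlt
        have : (n : ℤ) * d ≤ n * (-1) := mul_le_mul_of_nonneg_left (by omega) (by omega)
        omega
      have hd2 : d < 2 := by
        by_contra hlt
        have : (n : ℤ) * 2 ≤ n * d := mul_le_mul_of_nonneg_left (by omega) (by omega)
        omega
      rcases (show d = 0 ∨ d = 1 by omega) with h4 | h4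
      · exact h4
      · exfalso
        subst h4
        -- `y ~ x + (n, -n)` and `y ~ y + (n, -n)`
        have h5 : Perc.Conn η Set.univ yy ((n : ℤ), -(n : ℤ)) := hf1.mono_set (Set.subset_univ _)
        have h6 : Perc.Conn η Set.univ ((n : ℤ), -(n : ℤ)) (sh n 1 yy) := h5.symm.trans hd
        have h7 := conn_sh n ω (-1) h6
        apply hf2
        rw [sh_sh] at h7
        have e1 : sh n (-1) ((n : ℤ), -(n : ℤ)) = xx := by
          simp only [sh, xx]
          ext <;> simp only <;> ring
        rw [e1, show ((-1 : ℤ) + 1) = 0 by ring, sh_zero] at h7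
        exact h7
    intro i j hij
    have h1 := conn_sh n ω (-i) hij
    rw [sh_sh, sh_sh, show -i + i = 0 by ring, sh_zero] at h1
    have := hd _ h1
    omega
  have hxy : ∀ a : ℤ, Perc.Conn η Set.univ (sh n (a - 1) yy) ((n : ℤ) * a, -((n : ℤ) * a)) := by
    intro a
    have h5 : Perc.Conn η Set.univ yy ((n : ℤ), -(n : ℤ)) := hf1.mono_set (Set.subset_univ _)
    have h6 := conn_sh n ω (a - 1) h5
    have e1 : sh n (a - 1) ((n : ℤ), -(n : ℤ)) = ((n : ℤ) * a, -((n : ℤ) * a)) := by
      simp only [sh]
      ext <;> simp only <;> ring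
    rw [e1] at h6
    exact h6
  -- (2) primal colours
  set F : Vert → Set Vert := fun v => {u | Perc.Conn η Set.univ v u} with hF
  have hFc : ∀ e : Edge, η e = true → F (src e) = F (tgt e) := by
    intro e ho
    have hst : Perc.Conn η Set.univ (src e) (tgt e) :=
      Perc.Step.conn ⟨trivial, trivial, e, Perc.joins_src_tgt e, ho⟩
    ext u
    exact ⟨fun h1 => hst.symm.trans h1, fun h1 => hst.trans h1⟩
  have hupP := up_primal hL hs he ω (F := F) (fun e _ _ ho => hFc e ho)
  have hdnP := dn_primal hL hs he ω (F := F) (fun e _ _ ho => hFc e ho)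
  have hFeq : ∀ v w, F v = F w → Perc.Conn η Set.univ v w := by
    intro v w hvw
    have : w ∈ F w := Perc.Conn.refl trivial
    rw [← hvw] at this
    exact this
  -- (3) dual colours
  obtain ⟨c, hc1, hc2, hc3⟩ := exists_pathSum hf1
  set g1 : Edge := ((n : ℤ), -(n : ℤ), false) with hg1
  set g2 : Edge := ((n : ℤ) + 1, -(n : ℤ) - 1, true) with hg2
  set c' : Edge → ZMod 2 := fun e => (c e + Perc.one g1 e) + Perc.one g2 e with hc'
  have hc'fin : {e | c' e ≠ 0}.Finite := by
    apply (hc2.union (Set.toFinite {g1, g2})).subset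
    intro e he1
    rw [Set.mem_ofPred_eq] at he1
    by_contra h2
    rw [Set.mem_union, not_or] at h2
    obtain ⟨h3, h4⟩ := h2
    rw [Set.mem_insert_iff, Set.mem_singleton_iff, not_or] at h4
    rw [Set.mem_ofPred_eq, not_not] at h3
    apply he1
    rw [hc']
    simp only [Perc.one, h3, if_neg h4.1, if_neg h4.2, add_zero]
  have hc'v : ∀ V, vsum c' V = (if V = yy then 1 else 0) +
      (if V = ((n : ℤ) + 1, -(n : ℤ) - 1) then 1 else 0) := by
    intro V
    rw [hc', Perc.vsum_add, Perc.vsum_add, hc3, Perc.vsum_one, Perc.vsum_one]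
    have e1 : src g1 = ((n : ℤ), -(n : ℤ)) := rfl
    have e2 : tgt g1 = ((n : ℤ) + 1, -(n : ℤ)) := rfl
    have e3 : src g2 = ((n : ℤ) + 1, -(n : ℤ) - 1) := rfl
    have e4 : tgt g2 = ((n : ℤ) + 1, -(n : ℤ)) := by
      show ((n : ℤ) + 1, -(n : ℤ) - 1 + 1) = _
      rw [sub_add_cancel]
    rw [e1, e2, e3, e4]
    have z1 := Perc.z2_add_self (if V = ((n : ℤ), -(n : ℤ)) then (1 : ZMod 2) else 0)
    have z2 := Perc.z2_add_self (if V = ((n : ℤ) + 1, -(n : ℤ)) then (1 : ZMod 2) else 0)
    linear_combination z1 + z2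
  set C := perS n c' with hC
  have hCper : ∀ (e : Edge) (k : ℤ), C (she n k e) = C e := fun e k => perS_per n c' k e
  have hCv : ∀ V, vsum C V = 0 := by
    intro V
    rw [hC, perS_vsum hn1 hc'fin, finsum_congr (fun k => hc'v (sh n k V))]
    have hfs : ∀ w : Vert, Function.HasFiniteSupport (fun k : ℤ => if sh n k V = w then (1 : ZMod 2) else 0) := by
      intro w
      have : (Function.support (fun k : ℤ => if sh n k V = w then (1 : ZMod 2) else 0)) ⊆
          (fun k : ℤ => sh n k V) ⁻¹' {w} := by
        intro k hk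
        rw [Function.mem_support] at hk
        by_contra h2
        apply hk
        rw [if_neg]
        exact h2
      exact (Set.Finite.preimage ((sh_inj hn1 V).injOn) (Set.finite_singleton w)).subset this
    rw [finsum_add_distrib (hfs _) (hfs _), finsum_ind_v hn1, finsum_ind_v hn1]
    have hiff : (∃ k : ℤ, sh n k V = yy) ↔ ∃ k : ℤ, sh n k V = ((n : ℤ) + 1, -(n : ℤ) - 1) := by
      constructor
      · rintro ⟨k, hk⟩
        refine ⟨1 + k, ?_⟩
        rw [← sh_sh, hk]
        simp only [sh, yy]
        ext <;> simp only <;> ring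
      · rintro ⟨k, hk⟩
        refine ⟨-1 + k, ?_⟩
        rw [← sh_sh, hk]
        simp only [sh, yy]
        ext <;> simp only <;> ring
    simp only [hiff]
    exact Perc.z2_add_self _
  have hfse : ∀ (e g : Edge), Function.HasFiniteSupport
      (fun k : ℤ => if she n k e = g then (1 : ZMod 2) else 0) := by
    intro e g
    have : (Function.support (fun k : ℤ => if she n k e = g then (1 : ZMod 2) else 0)) ⊆
        (fun k : ℤ => she n k e) ⁻¹' {g} := by
      intro k hk
      rw [Function.mem_support] at hk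
      by_contra h2
      apply hk
      rw [if_neg]
      exact h2
    exact (Set.Finite.preimage ((she_inj hn1 e).injOn) (Set.finite_singleton g)).subset this
  -- value of `C` at an edge all of whose translates are outside the support of `c`
  have hCval : ∀ e : Edge, (∀ k : ℤ, c (she n k e) = 0) →
      C e = (if ∃ k : ℤ, she n k e = g1 then 1 else 0) +
        (if ∃ k : ℤ, she n k e = g2 then 1 else 0) := by
    intro e h0
    have e1 : ∀ k : ℤ, c' (she n k e) = (if she n k e = g1 then 1 else 0) +
        (if she n k e = g2 then 1 else 0) := by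
      intro k
      rw [hc']
      simp only [Perc.one, h0, zero_add]
    rw [hC]
    unfold perS
    rw [finsum_congr e1, finsum_add_distrib (hfse _ _) (hfse _ _), finsum_ind_e hn1,
      finsum_ind_e hn1]
  have hclosed0 : ∀ e : Edge, η e = false → ∀ k : ℤ, c (she n k e) = 0 := by
    intro e h1 k
    by_contra h2
    have h3 := (hc1 _ h2).1
    rw [hη, show she n k e = (e.1 + n * k, e.2.1 - n * k, e.2.2) from rfl, per_shift, ← hη,
      h1] at h3
    exact absurd h3 (by decide)
  have hlev : ∀ (e : Edge) (k : ℤ), (she n k e).1 + (she n k e).2.1 = e.1 + e.2.1 := by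
    intro e k
    simp only [she]; ring
  have hrow1 : ∀ e : Edge, (∃ k : ℤ, she n k e = g1) → e.1 + e.2.1 = 0 := by
    rintro e ⟨k, hk⟩
    rw [← hlev e k, hk, hg1]; ring
  have hrow2 : ∀ e : Edge, (∃ k : ℤ, she n k e = g2) → e.1 + e.2.1 = 0 := by
    rintro e ⟨k, hk⟩
    rw [← hlev e k, hk, hg2]; ring
  have hCs : ∀ e : Edge, ¬ (-(H : ℤ) < e.1 + e.2.1 ∧ e.1 + e.2.1 + 1 < H) → C e = 0 := by
    intro e h1
    rw [hCval e, if_neg, if_neg, add_zero]
    · intro h2; have := hrow2 e h2; omega
    · intro h2; have := hrow1 e h2; omega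
    · intro k
      by_contra h2
      obtain ⟨_, h4, h5⟩ := hc1 _ h2
      apply h1
      have h6 : -(H : ℤ) < (she n k e).1 + (she n k e).2.1 := by
        simp only [strip, Set.mem_ofPred_eq, src] at h4
        exact h4.1
      have h7 : (she n k e).1 + (she n k e).2.1 + 1 < H := by
        simp only [strip, Set.mem_ofPred_eq, tgt] at h5
        split_ifs at h5 <;> simp only at h5 <;> omega
      rw [hlev] at h6 h7
      exact ⟨h6, h7⟩
  have hpot := pot_even hCs hCv
  set G := pot C H with hG
  set isQ : Vert → Prop := fun f => ∃ k : ℤ, f = ((n : ℤ) * k, -((n : ℤ) * k) - 1) with hisQ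
  set Gu : Vert → ZMod 2 := fun f => G f + if isQ f then 1 else 0 with hGu
  have hu : ∀ e : Edge, 0 ≤ e.1 + e.2.1 → η e = false → Gu (lowFace e) = Gu (src e) := by
    intro e h1 h2
    have h3 := hpot e
    rw [hCval e (hclosed0 e h2)] at h3
    have hsrc : ¬ isQ (src e) := by
      rintro ⟨k, hk⟩
      have h4 := congrArg Prod.fst hk
      have h5 := congrArg Prod.snd hk
      simp only [src] at h4 h5
      omega
    have hlow : isQ (lowFace e) ↔ ((∃ k : ℤ, she n k e = g1) ∨ ∃ k : ℤ, she n k e = g2) := by
      obtain ⟨a, b, t⟩ := e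
      rcases t with _ | _
      · constructor
        · rintro ⟨k, hk⟩
          left
          refine ⟨1 - k, ?_⟩
          have h4 : a = n * k := congrArg Prod.fst hk
          have h5 : b - 1 = -((n : ℤ) * k) - 1 := congrArg Prod.snd hk
          simp only [she, hg1]
          ext
          · simp only; rw [h4]; ring
          · simp only; rw [show b = -((n : ℤ) * k) by linarith]; ring
          · rfl
        · rintro (⟨k, hk⟩ | ⟨k, hk⟩)
          · refine ⟨1 - k, ?_⟩
            have h4 : a + n * k = n := congrArg Prod.fst hk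
            have h5 : b - n * k = -(n : ℤ) := congrArg (fun x : Edge => x.2.1) hk
            show ((a, b - 1) : Vert) = _
            ext
            · simp only; linear_combination h4
            · simp only; linear_combination h5
          · have h4 : false = true := congrArg (fun x : Edge => x.2.2) hk
            exact absurd h4 (by decide)
      · constructor
        · rintro ⟨k, hk⟩
          right
          refine ⟨1 - k, ?_⟩
          have h4 : a - 1 = n * k := congrArg Prod.fst hk
          have h5 : b = -((n : ℤ) * k) - 1 := congrArg Prod.snd hk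
          simp only [she, hg2]
          ext
          · simp only; rw [show a = n * k + 1 by linarith]; ring
          · simp only; rw [h5]; ring
          · rfl
        · rintro (⟨k, hk⟩ | ⟨k, hk⟩)
          · have h4 : true = false := congrArg (fun x : Edge => x.2.2) hk
            exact absurd h4 (by decide)
          · refine ⟨1 - k, ?_⟩
            have h4 : a + n * k = n + 1 := congrArg Prod.fst hk
            have h5 : b - n * k = -(n : ℤ) - 1 := congrArg (fun x : Edge => x.2.1) hk
            show ((a - 1, b) : Vert) = _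
            ext
            · simp only; linear_combination h4
            · simp only; linear_combination h5
    have hexcl : ¬ ((∃ k : ℤ, she n k e = g1) ∧ ∃ k : ℤ, she n k e = g2) := by
      rintro ⟨⟨k, hk⟩, ⟨l, hl⟩⟩
      have h4 : e.2.2 = false := congrArg (fun x : Edge => x.2.2) hk
      have h5 : e.2.2 = true := congrArg (fun x : Edge => x.2.2) hl
      rw [h4] at h5
      exact absurd h5 (by decide)
    rw [hGu]
    simp only
    rw [if_neg hsrc, add_zero]
    by_cases hq : isQ (lowFace e)
    · rw [if_pos hq]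
      have h6 : G (lowFace e) + G (src e) = 1 := by
        rw [h3]
        rcases hlow.1 hq with h7 | h7
        · rw [if_pos h7, if_neg (fun h8 => hexcl ⟨h7, h8⟩), add_zero]
        · rw [if_pos h7, if_neg (fun h8 => hexcl ⟨h8, h7⟩), zero_add]
      have z1 := Perc.z2_add_self (1 : ZMod 2)
      have z2 := Perc.z2_add_self (G (src e))
      linear_combination h6 + z1 - z2
    · rw [if_neg hq, add_zero]
      have h7 : ¬ ((∃ k : ℤ, she n k e = g1) ∨ ∃ k : ℤ, she n k e = g2) := fun h8 => hq (hlow.2 h8)
      rw [not_or] at h7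
      rw [if_neg h7.1, if_neg h7.2, add_zero] at h3
      exact Perc.z2_add_eq_zero.1 h3
  have hd : ∀ e : Edge, e.1 + e.2.1 < 0 → η e = false → G (lowFace e) = G (src e) := by
    intro e h1 h2
    have h3 := hpot e
    rw [hCval e (hclosed0 e h2), if_neg, if_neg, add_zero] at h3
    · exact Perc.z2_add_eq_zero.1 h3
    · intro h4; have := hrow2 e h4; omega
    · intro h4; have := hrow1 e h4; omega
  have hupD := up_dual hL hs he ω (G := Gu) (fun e h1 _ h2 => hu e h1 h2) 0 (by
    intro f hf4
    rw [hGu]
    simp only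
    rw [hG, pot_top C H (by omega), if_neg, add_zero]
    rintro ⟨k, hk⟩
    have h4 := congrArg Prod.fst hk
    have h5 := congrArg Prod.snd hk
    simp only at h4 h5
    omega)
  have hdnD := dn_dual hL hs he ω (G := G) (fun e _ h1 h2 => hd e h1 h2) (G (0, -(h : ℤ) - 1))
    (bot_const h (by
      intro e h1
      have h3 := hpot e
      rw [hCs e (by omega)] at h3
      exact Perc.z2_add_eq_zero.1 h3))
  -- colours of the nodes of the composite graph
  set col : ℤ ⊕ ℤ → ZMod 2 := Sum.elim (fun x => Gu (dv x)) (fun y => G (dv y)) with hcol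
  set prim : ℤ ⊕ ℤ → Set Vert := Sum.elim (fun x => F (pv x)) (fun y => F (pv y)) with hprim
  have hcolS : ∀ x y, Step 2 2 (L - 2) (up s n h ω) (dn s n h ω) x y → col x = col y := by
    intro x y hxy1
    cases hxy1 with
    | top x => exact (hupD x).symm
    | bot y => exact (hdnD y).symm
    | glue a j hj =>
      show Gu (dv _) = G (dv _)
      rw [hGu]
      simp only
      rw [if_neg, add_zero]
      rintro ⟨k, hk⟩
      have h4 : (((2 : ℕ) : ℤ) + j + L * a) / 2 = n * k := congrArg Prod.fst hk
      have h5 : (((2 : ℕ) : ℤ) + j + L * a) / 2 = 1 + (j : ℤ) / 2 + n * a := by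
        subst hL
        have : ((2 : ℕ) : ℤ) + j + ((2 * n : ℕ) : ℤ) * a = (j : ℤ) + (1 + n * a) * 2 := by
          push_cast; ring
        rw [this, Int.add_mul_ediv_right _ _ (by norm_num)]
        ring
      have h6 : 1 + (j : ℤ) / 2 = n * (k - a) := by linarith
      have h7 : (0 : ℤ) < 1 + (j : ℤ) / 2 := by omega
      have h8 : 1 + (j : ℤ) / 2 < n := by omega
      have h9 : 0 < k - a := by
        by_contra hlt
        have : (n : ℤ) * (k - a) ≤ n * 0 := mul_le_mul_of_nonneg_left (by omega) (by omega)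
        omega
      have h10 : (n : ℤ) * 1 ≤ n * (k - a) := mul_le_mul_of_nonneg_left (by omega) (by omega)
      omega
  have hprimS : ∀ x y, Step 2 2 (L - 2) (up s n h ω) (dn s n h ω) x y → prim x = prim y := by
    intro x y hxy1
    cases hxy1 with
    | top x => exact (hupP x).symm
    | bot y => exact (hdnP y).symm
    | glue a j hj => rfl
  -- home nodes
  have hdvh : ∀ (t : Fin 2) (a : ℤ), dv ((t : ℕ) + L * a) = sh n a (0, -1) := by
    intro t a
    have ht := t.isLt
    have h1 : (((t : ℕ) : ℤ) + L * a) / 2 = n * a := by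
      subst hL
      have : ((t : ℕ) : ℤ) + ((2 * n : ℕ) : ℤ) * a = ((t : ℕ) : ℤ) + (n * a) * 2 := by
        push_cast; ring
      rw [this, Int.add_mul_ediv_right _ _ (by norm_num)]
      omega
    unfold dv sh
    rw [h1]
    ext <;> simp only <;> ring
  have hcolt : ∀ (t : Fin 2) (a : ℤ), col (Sum.inl ((t : ℕ) + L * a)) = G (0, -1) + 1 := by
    intro t a
    show Gu (dv _) = _
    rw [hdvh, hGu]
    simp only
    rw [hG, pot_sh hCper, if_pos]
    refine ⟨a, ?_⟩
    simp only [sh]
    ext <;> simp only <;> ring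
  have hcolb : ∀ (t : Fin 2) (a : ℤ), col (Sum.inr ((t : ℕ) + L * a)) = G (0, -1) := by
    intro t a
    show G (dv _) = _
    rw [hdvh, hG, pot_sh hCper]
  have hpv0 : ∀ a : ℤ, pv (((0 : Fin 2) : ℕ) + L * a) = ((n : ℤ) * a, -((n : ℤ) * a)) := by
    intro a
    have h1 : ((((0 : Fin 2) : ℕ) : ℤ) + L * a + 1) / 2 = n * a := by
      subst hL
      have : (((0 : Fin 2) : ℕ) : ℤ) + ((2 * n : ℕ) : ℤ) * a + 1 = 1 + (n * a) * 2 := by
        push_cast; simp; ring
      rw [this, Int.add_mul_ediv_right _ _ (by norm_num)]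
      norm_num
    unfold pv
    rw [h1]
  have hpv1 : ∀ a : ℤ, pv (((1 : Fin 2) : ℕ) + L * a) = sh n a yy := by
    intro a
    have h1 : ((((1 : Fin 2) : ℕ) : ℤ) + L * a + 1) / 2 = 1 + n * a := by
      subst hL
      have : (((1 : Fin 2) : ℕ) : ℤ) + ((2 * n : ℕ) : ℤ) * a + 1 = 0 + (1 + n * a) * 2 := by
        push_cast; simp; ring
      rw [this, Int.add_mul_ediv_right _ _ (by norm_num)]
      norm_num
    unfold pv sh yy
    rw [h1]
    ext <;> simp only
    ring
  -- index of the cluster of a home node
  have hidx : ∀ (t : Fin 2) (a : ℤ), Perc.Conn η Set.univ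
      (sh n (if t = 0 then a - 1 else a) yy) (pv ((t : ℕ) + L * a)) := by
    intro t a
    rcases (by fin_cases t <;> simp : t = 0 ∨ t = 1) with rfl | rfl
    · rw [if_pos rfl]
      have := hxy a
      rw [← hpv0 a] at this
      exact this
    · rw [if_neg (by decide), hpv1 a]
      exact Perc.Conn.refl trivial
  have hfinal : ∀ (t t' : Fin 2) (a b : ℤ), F (pv ((t : ℕ) + L * a)) = F (pv ((t' : ℕ) + L * b)) →
      (t = t' ∧ a = b) ∨ Odd (b - a) := by
    intro t t' a b hFF
    have h1 := ((hidx t a).trans (hFeq _ _ hFF)).trans (hidx t' b).symm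
    have h2 := hkey _ _ h1
    rcases (by fin_cases t <;> simp : t = 0 ∨ t = 1) with rfl | rfl <;>
    rcases (by fin_cases t' <;> simp : t' = 0 ∨ t' = 1) with rfl | rfl
    · left
      rw [if_pos rfl, if_pos rfl] at h2
      exact ⟨rfl, by linarith⟩
    · right
      rw [if_pos rfl, if_neg (by decide)] at h2
      exact ⟨-1, by linarith⟩
    · right
      rw [if_neg (by decide), if_pos rfl] at h2
      exact ⟨0, by linarith⟩
    · left
      rw [if_neg (by decide), if_neg (by decide)] at h2
      exact ⟨rfl, h2⟩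
  intro u v a b hconn
  have hcc := comp_const hcolS hconn
  have hpp := comp_const hprimS hconn
  rcases u with t | t <;> rcases v with t' | t'
  · rcases hfinal t t' a b hpp with ⟨h1, h2⟩ | h1
    · left; exact ⟨by rw [h1], h2⟩
    · right; exact h1
  · exfalso
    have h1 : G (0, -1) + 1 = G (0, -1) := by
      rw [← hcolt t a, ← hcolb t' b]; exact hcc
    have h2 : (1 : ZMod 2) = 0 := by linear_combination h1
    exact absurd h2 (by decide)
  · exfalso
    have h1 : G (0, -1) = G (0, -1) + 1 := by
      rw [← hcolt t' b, ← hcolb t a]; exact hcc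
    have h2 : (1 : ZMod 2) = 0 := by linear_combination -h1
    exact absurd h2 (by decide)
  · rcases hfinal t t' a b hpp with ⟨h1, h2⟩ | h1
    · left; exact ⟨by rw [h1], h2⟩
    · right; exact h1

end Pool.Agent.H89.Link
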