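import Pool.Agent.H89.Link.Face
import Pool.Agent.H89.Link.Potential

/-!
# LINK module `Four`: the four-leg event implies four arms

Composite graph `H56.EX.Conn 2 2 (L - 2) P Q` on `ℤ ⊕ ℤ` with `P = up s n h ω`, `Q = dn s n h ω`: `inl x ~ inl (P.m x)`,
`inr y ~ inr (Q.m y)`, `inl c ~ inr c` for the columns `c` with `c % L ≥ 2`.  Home columns: `c % L ∈ {0, 1}`.
(A) If `Leg 2 2 (L - 2) P Q` then no two different ones of the four nodes `inl 0, inl 1, inr 0, inr 1` are connected
(`a = b = 0` in `Leg`, `Odd 0` is false).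
(B) Let `Z` be a finite set of nodes closed under the steps and containing one of the four home nodes `ℓ`, all of
whose nodes have a position in `(-L + 1, L)`, so the only home positions in `Z` are `0` and `1`.  The connected
component `O` of `ℓ` is contained in `Z`, finite, closed under the fixed point free involution
`α : inl x ↦ inl (P.m x), inr y ↦ inr (Q.m y)`, so `|O|` is even; `O` without its home nodes is closed under
`β : inl c ↔ inr c`, so it has an even number of elements.  So `O` contains an even number of home nodes, hence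
another home node; this contradicts (A).
(i) Suppose `x = (0, 0)` is not joined to `sphere 0 k` in `ball 0 k`.  `C` = vertices joined to `x` in `ball 0 k`,
its indicator is constant along open edges; `Z` = nodes whose position `c` has `pv c ∈ C` is closed under the steps
(`up_primal`, `dn_primal`), finite, contains `inl 0`; positions are in `[-2 k - 1, 2 k]` and `2 k + 2 < L`. (B).
(ii) Suppose `y = (1, -1)` is not joined to `sphere 0 k` in `ball 0 k`: the same with `inl 1` (`pv 1 = y`).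
(iii) Suppose `x` and `y` are joined in `ball 0 k`.  `exists_pathSum` gives `c` with odd degrees exactly at `x`, `y`;
add the two edges `(0, 0, false)` and `(1, -1, true)` (the path `x, (1, 0), y`): `A`, all degrees even, finite,
in the strip `H = 2 k + 2`.  `G' = pot A H`.  `Gu = G'` except `Gu q = G' q + 1` for `q = (0, -1)`, `Gd = G'`.
Then `Gu (lowFace e) = Gu (src e)` for closed `e` in rows `≥ 0`: the edges of rows `≥ 0` with `q` as one of their
faces are exactly `(0, 0, false)` and `(1, -1, true)`.  The edges of rows `< 0` at `q` are `(0, -1, false)`,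
`(0, -1, true)`.  `Gu = 0` at level `h`, `Gd` = constant at level `-h` (`2 k + 2 ≤ h`); the constant is `0` because
`G'` has finite support in every level (or: `G' (a, b) = 0` for large `a`).  So the sets of nodes
`Z_ε = {inl c | Gu (dv c) = ε} ∪ {inr c | Gd (dv c) = ε}` are closed under the steps (for `c` not home,
`dv c ≠ q`, so `Gu = Gd`); `dv 0 = dv 1 = q`.  `Gu q ≠ Gd q`, so one of them is `1`: `Z_1` is finite, with positions in
`[-2 k, 2 k + 1]` (on the seam `pot A H (a, -a-1) ≠ 0` needs `|a| ≤ k`), and contains exactly the home nodes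
`inl 0, inl 1` or exactly `inr 0, inr 1`.  (B) gives a contradiction (the other home node in the component is
different from `ℓ`, and any two different home nodes contradict (A)).
-/

set_option autoImplicit false

namespace Pool.Agent.H89.Link

open H56.EX
open Pool.Agent.H89.Perc (Vert Edge Config src tgt lowFace vsum)

variable {L n : ℕ}

/-! ### Finite invariant sets of nodes -/

private lemma Four_home {c : ℤ} (h1 : -(L : ℤ) + 1 < c) (h2 : c < L) (h3 : ¬ 2 ≤ c % L)
    (hL : 2 ≤ L) : c = 0 ∨ c = 1 := by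
  have hL' : (0 : ℤ) < L := by omega
  have h4 := Int.emod_nonneg c hL'.ne'
  have h5 := Int.mul_ediv_add_emod c L
  have h6 : c / L = 0 := by
    by_contra hne
    rcases lt_or_gt_of_ne hne with h7 | h7
    · have : (L : ℤ) * (c / L) ≤ L * (-1) := mul_le_mul_of_nonneg_left (by omega) hL'.le
      omega
    · have : (L : ℤ) * 1 ≤ L * (c / L) := mul_le_mul_of_nonneg_left (by omega) hL'.le
      omega
  rw [h6, mul_zero] at h5
  omega

/-- position of a node -/
private def Four_pos : ℤ ⊕ ℤ → ℤ := Sum.elim id id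

private def Four_alpha (P Q : Pat L) : ℤ ⊕ ℤ → ℤ ⊕ ℤ :=
  Sum.elim (fun x => Sum.inl (P.m x)) (fun y => Sum.inr (Q.m y))

private def Four_beta : ℤ ⊕ ℤ → ℤ ⊕ ℤ := Sum.elim Sum.inr Sum.inl

private lemma Four_leg {P Q : Pat L} (hleg : Leg 2 2 (L - 2) P Q) {ℓ ℓ' : ℤ ⊕ ℤ}
    (h : ℓ = Sum.inl 0 ∨ ℓ = Sum.inl 1 ∨ ℓ = Sum.inr 0 ∨ ℓ = Sum.inr 1)
    (h' : ℓ' = Sum.inl 0 ∨ ℓ' = Sum.inl 1 ∨ ℓ' = Sum.inr 0 ∨ ℓ' = Sum.inr 1)
    (hc : H56.EX.Conn 2 2 (L - 2) P Q ℓ ℓ') : ℓ = ℓ' := by
  have key : ∀ {ν : ℤ ⊕ ℤ}, (ν = Sum.inl 0 ∨ ν = Sum.inl 1 ∨ ν = Sum.inr 0 ∨ ν = Sum.inr 1) →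
      ∃ u : Fin 2 ⊕ Fin 2, hpos L L 2 2 u 0 = ν := by
    rintro ν (rfl | rfl | rfl | rfl)
    · exact ⟨Sum.inl 0, by simp [hpos]⟩
    · exact ⟨Sum.inl 1, by simp [hpos]⟩
    · exact ⟨Sum.inr 0, by simp [hpos]⟩
    · exact ⟨Sum.inr 1, by simp [hpos]⟩
  obtain ⟨u, hu⟩ := key h
  obtain ⟨v, hv⟩ := key h'
  rw [← hu, ← hv] at hc
  rcases hleg u v 0 0 hc with ⟨h1, -⟩ | h1
  · rw [← hu, ← hv, h1]
  · simp at h1

private lemma Four_closed (hL : 2 ≤ L) {P Q : Pat L} (Z : Finset (ℤ ⊕ ℤ))
    (hP : ∀ x, Sum.inl x ∈ Z → Sum.inl (P.m x) ∈ Z)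
    (hQ : ∀ x, Sum.inr x ∈ Z → Sum.inr (Q.m x) ∈ Z)
    (hg : ∀ c : ℤ, 2 ≤ c % L → (Sum.inl c ∈ Z ↔ Sum.inr c ∈ Z)) {ν μ : ℤ ⊕ ℤ}
    (h : H56.EX.Conn 2 2 (L - 2) P Q ν μ) : ν ∈ Z ↔ μ ∈ Z := by
  induction h with
  | rel ν μ h =>
    cases h with
    | top x =>
      constructor
      · exact hP x
      · intro h
        have := hP _ h
        rwa [P.inv] at this
    | bot y =>
      constructor
      · exact hQ y
      · intro h
        have := hQ _ h
        rwa [Q.inv] at this
    | glue a j hj =>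
      apply hg
      have e : (((2 : ℕ) : ℤ) + (j : ℤ) + L * a) % L = 2 + j := by
        rw [Int.add_mul_emod_self_left, Int.emod_eq_of_lt (by positivity) (by push_cast; omega)]
        push_cast
        ring
      rw [e]
      omega
  | refl ν => exact Iff.rfl
  | symm ν μ _ ih => exact ih.symm
  | trans ν μ ξ _ _ ih1 ih2 => exact ih1.trans ih2

private lemma Four_no_finite (hL : 2 ≤ L) {P Q : Pat L} (hleg : Leg 2 2 (L - 2) P Q)
    (Z : Finset (ℤ ⊕ ℤ)) (hP : ∀ x, Sum.inl x ∈ Z → Sum.inl (P.m x) ∈ Z)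
    (hQ : ∀ x, Sum.inr x ∈ Z → Sum.inr (Q.m x) ∈ Z)
    (hg : ∀ c : ℤ, 2 ≤ c % L → (Sum.inl c ∈ Z ↔ Sum.inr c ∈ Z))
    (hpos : ∀ c : ℤ, (Sum.inl c ∈ Z ∨ Sum.inr c ∈ Z) → -(L : ℤ) + 1 < c ∧ c < L)
    (ℓ : ℤ ⊕ ℤ) (hℓ : ℓ ∈ Z)
    (hh : ℓ = Sum.inl 0 ∨ ℓ = Sum.inl 1 ∨ ℓ = Sum.inr 0 ∨ ℓ = Sum.inr 1) : False := by
  classical
  obtain ⟨O, hO⟩ : ∃ O : Finset (ℤ ⊕ ℤ), O = Z.filter (fun ν => H56.EX.Conn 2 2 (L - 2) P Q ℓ ν) :=
    ⟨_, rfl⟩
  have memO : ∀ ν, ν ∈ O ↔ H56.EX.Conn 2 2 (L - 2) P Q ℓ ν := by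
    intro ν
    rw [hO, Finset.mem_filter]
    exact ⟨fun h => h.2, fun h => ⟨(Four_closed hL Z hP hQ hg h).1 hℓ, h⟩⟩
  have hOZ : ∀ ν, ν ∈ O → ν ∈ Z := fun ν h => by
    rw [hO, Finset.mem_filter] at h
    exact h.1
  have h1 : ∑ ν ∈ O, (1 : ZMod 2) = 0 := by
    apply Finset.sum_involution (fun ν _ => Four_alpha P Q ν)
    · intro ν _
      exact CharTwo.add_self_eq_zero 1
    · intro ν _ _
      rcases ν with x | y
      · intro h
        exact P.ne x (Sum.inl.inj h)
      · intro h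
        exact Q.ne y (Sum.inr.inj h)
    · intro ν hν
      rw [memO] at hν ⊢
      rcases ν with x | y
      · exact Relation.EqvGen.trans _ _ _ hν (Relation.EqvGen.rel _ _ (H56.EX.Step.top x))
      · exact Relation.EqvGen.trans _ _ _ hν (Relation.EqvGen.rel _ _ (H56.EX.Step.bot y))
    · intro ν _
      rcases ν with x | y
      · show Sum.inl (P.m (P.m x)) = Sum.inl x
        rw [P.inv]
      · show Sum.inr (Q.m (Q.m y)) = Sum.inr y
        rw [Q.inv]
  have hglue : ∀ c : ℤ, 2 ≤ c % L → H56.EX.Conn 2 2 (L - 2) P Q (Sum.inl c) (Sum.inr c) := by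
    intro c hc
    have hlt := Int.emod_lt_of_pos c (show (0 : ℤ) < L by omega)
    have h2 := H56.EX.Step.glue (kt := 2) (kb := 2) (M := L - 2) (Pt := P) (Pb := Q) (c / L)
      (c % L - 2).toNat (by omega)
    have e : ((2 : ℕ) : ℤ) + ((c % L - 2).toNat : ℤ) + L * (c / L) = c := by
      have h5 := Int.mul_ediv_add_emod c L
      have : (((c % L - 2).toNat : ℕ) : ℤ) = c % L - 2 := Int.toNat_of_nonneg (by omega)
      rw [this]
      push_cast
      linarith
    rw [e] at h2
    exact Relation.EqvGen.rel _ _ h2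
  have h2 : ∑ ν ∈ O.filter (fun ν => 2 ≤ Four_pos ν % L), (1 : ZMod 2) = 0 := by
    apply Finset.sum_involution (fun ν _ => Four_beta ν)
    · intro ν _
      exact CharTwo.add_self_eq_zero 1
    · intro ν _ _
      rcases ν with x | y
      · intro h
        exact absurd h (by simp [Four_beta])
      · intro h
        exact absurd h (by simp [Four_beta])
    · intro ν hν
      rw [Finset.mem_filter, memO] at hν ⊢
      rcases ν with x | y
      · refine ⟨Relation.EqvGen.trans _ _ _ hν.1 (hglue x hν.2), hν.2⟩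
      · refine ⟨Relation.EqvGen.trans _ _ _ hν.1 (Relation.EqvGen.symm _ _ (hglue y hν.2)), hν.2⟩
    · intro ν _
      rcases ν with x | y <;> rfl
  have h3 : ∑ ν ∈ O.filter (fun ν => ¬ 2 ≤ Four_pos ν % L), (1 : ZMod 2) = 0 := by
    have h4 := Finset.sum_filter_add_sum_filter_not O (fun ν => 2 ≤ Four_pos ν % (L : ℤ))
      (fun _ => (1 : ZMod 2))
    rw [h1, h2, zero_add] at h4
    exact h4
  have hhome : ¬ 2 ≤ Four_pos ℓ % (L : ℤ) := by
    have h01 : Four_pos ℓ = 0 ∨ Four_pos ℓ = 1 := by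
      rcases hh with rfl | rfl | rfl | rfl
      · exact Or.inl rfl
      · exact Or.inr rfl
      · exact Or.inl rfl
      · exact Or.inr rfl
    rcases h01 with h | h
    · rw [h]; simp
    · rw [h, Int.emod_eq_of_lt (by norm_num) (by omega)]
      norm_num
  have hmem : ℓ ∈ O.filter (fun ν => ¬ 2 ≤ Four_pos ν % (L : ℤ)) := by
    rw [Finset.mem_filter, memO]
    exact ⟨Relation.EqvGen.refl _, hhome⟩
  have hall : ∀ ν ∈ O.filter (fun ν => ¬ 2 ≤ Four_pos ν % (L : ℤ)), ν = ℓ := by
    intro ν hν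
    rw [Finset.mem_filter] at hν
    obtain ⟨hν1, hν2⟩ := hν
    have h01 : ν = Sum.inl 0 ∨ ν = Sum.inl 1 ∨ ν = Sum.inr 0 ∨ ν = Sum.inr 1 := by
      have hZ := hOZ ν hν1
      rcases ν with c | c
      · obtain ⟨h5, h6⟩ := hpos c (Or.inl hZ)
        rcases Four_home h5 h6 hν2 hL with rfl | rfl
        · exact Or.inl rfl
        · exact Or.inr (Or.inl rfl)
      · obtain ⟨h5, h6⟩ := hpos c (Or.inr hZ)
        rcases Four_home h5 h6 hν2 hL with rfl | rfl
        · exact Or.inr (Or.inr (Or.inl rfl))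
        · exact Or.inr (Or.inr (Or.inr rfl))
    exact (Four_leg hleg hh h01 ((memO ν).1 hν1)).symm
  have heq : O.filter (fun ν => ¬ 2 ≤ Four_pos ν % (L : ℤ)) = {ℓ} :=
    Finset.eq_singleton_iff_unique_mem.2 ⟨hmem, hall⟩
  rw [heq, Finset.sum_singleton] at h3
  exact one_ne_zero h3

/-! ### The primal arms -/

private lemma Four_mem_ball {k : ℕ} {v : Vert} : v ∈ Perc.ball 0 k ↔
    -(k : ℤ) ≤ v.1 ∧ v.1 ≤ k ∧ -(k : ℤ) ≤ v.2 ∧ v.2 ≤ k := by
  show (0 : ℤ) - k ≤ v.1 ∧ v.1 ≤ 0 + k ∧ (0 : ℤ) - k ≤ v.2 ∧ v.2 ≤ 0 + k ↔ _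
  simp

private lemma Four_arm (hL : L = 2 * n) {s : Pat L} (hs : IsStar s) {h k : ℕ} (he : Even h)
    (hk : k + 2 < n) (ω : Config)
    (hleg : Leg 2 2 (L - 2) (up s n h ω) (dn s n h ω)) (v : Vert) (hv : v ∈ Perc.ball 0 k)
    (c0 : ℤ) (hc0 : c0 = 0 ∨ c0 = 1) (hpv : pv c0 = v) :
    ∃ u ∈ Perc.sphere 0 k, Perc.Conn (per n ω) (Perc.ball 0 k) v u := by
  classical
  by_contra hcon
  push Not at hcon
  -- the indicator of the cluster
  have hstep : ∀ a b : Vert, ∀ e : Edge, Perc.Joins e a b → per n ω e = true →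
      Perc.Conn (per n ω) (Perc.ball 0 k) v a → Perc.Conn (per n ω) (Perc.ball 0 k) v b := by
    intro a b e hj ho ha
    have h1 := ha.mem_right
    have h2 : a ∉ Perc.sphere 0 k := fun h => hcon a h ha
    have h3 : Perc.Step (per n ω) Set.univ a b := ⟨trivial, trivial, e, hj, ho⟩
    have h4 := h3.cases
    have h5 : b ∈ Perc.ball 0 k := by
      rw [Four_mem_ball] at h1 ⊢
      have h6 : ¬ (a.1 = -(k : ℤ) ∨ a.1 = k ∨ a.2 = -(k : ℤ) ∨ a.2 = k) := by
        intro h6
        apply h2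
        refine ⟨Four_mem_ball.2 h1, ?_⟩
        show a.1 = 0 - (k : ℤ) ∨ a.1 = 0 + (k : ℤ) ∨ a.2 = 0 - (k : ℤ) ∨ a.2 = 0 + (k : ℤ)
        omega
      omega
    exact ha.tail ⟨h1, h5, e, hj, ho⟩
  have hF : ∀ e : Edge, per n ω e = true →
      (Perc.Conn (per n ω) (Perc.ball 0 k) v (src e)) =
        (Perc.Conn (per n ω) (Perc.ball 0 k) v (tgt e)) := by
    intro e ho
    apply propext
    exact ⟨hstep _ _ e (Perc.joins_src_tgt e) ho, hstep _ _ e (Perc.joins_src_tgt e).symm ho⟩
  have hup := up_primal (F := fun a => Perc.Conn (per n ω) (Perc.ball 0 k) v a) hL hs he ω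
    (fun e _ _ ho => hF e ho)
  have hdn := dn_primal (F := fun a => Perc.Conn (per n ω) (Perc.ball 0 k) v a) hL hs he ω
    (fun e _ _ ho => hF e ho)
  obtain ⟨Z, hZ⟩ : ∃ Z : Finset (ℤ ⊕ ℤ), ∀ ν, ν ∈ Z ↔
      Perc.Conn (per n ω) (Perc.ball 0 k) v (pv (Four_pos ν)) := by
    obtain ⟨S, hS⟩ : ∃ S : Finset ℤ, S = (Finset.Icc (-(2 * k : ℤ) - 1) (2 * k)).filter
        (fun c => Perc.Conn (per n ω) (Perc.ball 0 k) v (pv c)) := ⟨_, rfl⟩
    have memS : ∀ c, c ∈ S ↔ Perc.Conn (per n ω) (Perc.ball 0 k) v (pv c) := by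
      intro c
      rw [hS, Finset.mem_filter, Finset.mem_Icc]
      constructor
      · exact fun h => h.2
      · intro h
        refine ⟨?_, h⟩
        have h1 := Four_mem_ball.1 h.mem_right
        simp only [pv] at h1
        omega
    refine ⟨S.image Sum.inl ∪ S.image Sum.inr, ?_⟩
    intro ν
    rcases ν with c | c
    · rw [show Four_pos (Sum.inl c) = c from rfl, ← memS]
      simp
    · rw [show Four_pos (Sum.inr c) = c from rfl, ← memS]
      simp
  have hn3 : 3 ≤ n := by omega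
  apply Four_no_finite (by omega) hleg Z _ _ _ _ (Sum.inl c0)
  · rw [hZ]
    show Perc.Conn (per n ω) (Perc.ball 0 k) v (pv c0)
    rw [hpv]
    exact Perc.Conn.refl hv
  · rcases hc0 with rfl | rfl
    · exact Or.inl rfl
    · exact Or.inr (Or.inl rfl)
  · intro x hx
    rw [hZ] at hx ⊢
    show Perc.Conn (per n ω) (Perc.ball 0 k) v (pv ((up s n h ω).m x))
    rw [hup x]
    exact hx
  · intro x hx
    rw [hZ] at hx ⊢
    show Perc.Conn (per n ω) (Perc.ball 0 k) v (pv ((dn s n h ω).m x))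
    rw [hdn x]
    exact hx
  · intro c _
    rw [hZ, hZ]
    rfl
  · intro c hc
    have h1 : Perc.Conn (per n ω) (Perc.ball 0 k) v (pv c) := by
      rcases hc with h | h
      · exact (hZ _).1 h
      · exact (hZ _).1 h
    have h2 := Four_mem_ball.1 h1.mem_right
    simp only [pv] at h2
    omega

/-! ### The two arms are not connected -/

private lemma Four_pot_zero {A : Edge → ZMod 2} {k : ℕ}
    (hA : ∀ e : Edge, A e ≠ 0 → src e ∈ Perc.ball 0 k ∧ tgt e ∈ Perc.ball 0 k)
    (hv : ∀ V, vsum A V = 0) {f : Vert} (hf : f.1 < -(k : ℤ) ∨ (k : ℤ) < f.1 ∨ f.2 < -(k : ℤ)) :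
    pot A (2 * k + 2) f = 0 := by
  have hA1 : ∀ e : Edge, (e.1 < -(k : ℤ) ∨ (k : ℤ) < e.1 ∨ e.2.1 < -(k : ℤ)) → A e = 0 := by
    intro e he
    by_contra hne
    have h1 := (hA e hne).1
    rw [Four_mem_ball] at h1
    simp only [src] at h1
    omega
  have hA2 : ∀ e : Edge, ¬ (-((2 * k + 2 : ℕ) : ℤ) < e.1 + e.2.1 ∧
      e.1 + e.2.1 + 1 < ((2 * k + 2 : ℕ) : ℤ)) → A e = 0 := by
    intro e he
    by_contra hne
    obtain ⟨h1, h2⟩ := hA e hne
    rw [Four_mem_ball] at h1 h2
    simp only [src, tgt] at h1 h2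
    apply he
    push_cast
    split_ifs at h2 <;> simp only at h2 <;> omega
  have hside : ∀ f : Vert, (f.1 < -(k : ℤ) ∨ (k : ℤ) < f.1) → pot A (2 * k + 2) f = 0 := by
    intro f hf
    unfold pot
    apply Finset.sum_eq_zero
    intro j _
    apply hA1
    rcases hf with h | h
    · exact Or.inl h
    · exact Or.inr (Or.inl h)
  rcases hf with h | h | h
  · exact hside f (Or.inl h)
  · exact hside f (Or.inr h)
  · obtain ⟨a, b⟩ := f
    simp only at h
    have key : ∀ m : ℕ, pot A (2 * k + 2) ((k : ℤ) + 1 - m, b) = 0 := by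
      intro m
      induction m with
      | zero =>
        apply hside
        right
        simp
      | succ m ih =>
        have h1 := pot_even hA2 hv ((k : ℤ) + 1 - m, b, true)
        have h2 : lowFace ((k : ℤ) + 1 - m, b, true) = ((k : ℤ) + 1 - ((m + 1 : ℕ) : ℤ), b) := by
          simp only [lowFace, if_true]
          rw [Prod.mk.injEq]
          refine ⟨?_, rfl⟩
          push_cast
          ring
        have h3 : src ((k : ℤ) + 1 - m, b, true) = ((k : ℤ) + 1 - m, b) := rfl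
        rw [h2, h3, ih, add_zero] at h1
        rw [h1]
        exact hA1 _ (Or.inr (Or.inr h))
    by_cases ha : (k : ℤ) < a
    · exact hside _ (Or.inr ha)
    · have h1 := key ((k : ℤ) + 1 - a).toNat
      rw [Int.toNat_of_nonneg (by omega)] at h1
      rw [show (k : ℤ) + 1 - ((k : ℤ) + 1 - a) = a by ring] at h1
      exact h1

private lemma Four_dv {c : ℤ} (h : dv c = (0, -1)) : c = 0 ∨ c = 1 := by
  simp only [dv, Prod.mk.injEq] at h
  omega

private lemma Four_sep (hL : L = 2 * n) {s : Pat L} (hs : IsStar s) {h k : ℕ} (he : Even h)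
    (hk1 : 1 ≤ k) (hk : k + 2 < n) (hh : 2 * k + 2 ≤ h) (ω : Config)
    (hleg : Leg 2 2 (L - 2) (up s n h ω) (dn s n h ω)) :
    ¬ Perc.Conn (per n ω) (Perc.ball 0 k) xx yy := by
  classical
  intro hconn
  obtain ⟨c, hc, -, hcv⟩ := exists_pathSum hconn
  obtain ⟨A, hAdef⟩ : ∃ A : Edge → ZMod 2, A = fun e =>
      (fun e => c e + Perc.one (0, 0, false) e) e + Perc.one (1, -1, true) e := ⟨_, rfl⟩
  have hAe : ∀ e, A e = c e + Perc.one (0, 0, false) e + Perc.one (1, -1, true) e := by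
    intro e
    rw [hAdef]
  have hA : ∀ e : Edge, A e ≠ 0 → src e ∈ Perc.ball 0 k ∧ tgt e ∈ Perc.ball 0 k := by
    intro e hne
    by_cases h1 : c e = 0
    · by_cases h2 : e = (0, 0, false)
      · subst h2
        rw [Four_mem_ball, Four_mem_ball]
        simp only [src, tgt]
        simp
        omega
      · by_cases h3 : e = (1, -1, true)
        · subst h3
          rw [Four_mem_ball, Four_mem_ball]
          simp only [src, tgt]
          simp
          omega
        · exfalso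
          apply hne
          rw [hAe, h1]
          simp [Perc.one, h2, h3]
    · exact (hc e h1).2
  have hv : ∀ V, vsum A V = 0 := by
    intro V
    rw [hAdef, Perc.vsum_add, Perc.vsum_add, hcv, Perc.vsum_one, Perc.vsum_one]
    have e1 : src ((0, 0, false) : Edge) = xx := rfl
    have e2 : tgt ((0, 0, false) : Edge) = (1, 0) := rfl
    have e3 : src ((1, -1, true) : Edge) = yy := rfl
    have e4 : tgt ((1, -1, true) : Edge) = (1, 0) := rfl
    rw [e1, e2, e3, e4]
    generalize (if V = xx then (1 : ZMod 2) else 0) = a1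
    generalize (if V = yy then (1 : ZMod 2) else 0) = a2
    generalize (if V = ((1, 0) : Vert) then (1 : ZMod 2) else 0) = a3
    revert a1 a2 a3
    decide
  have hA2 : ∀ e : Edge, ¬ (-((2 * k + 2 : ℕ) : ℤ) < e.1 + e.2.1 ∧
      e.1 + e.2.1 + 1 < ((2 * k + 2 : ℕ) : ℤ)) → A e = 0 := by
    intro e he
    by_contra hne
    obtain ⟨h1, h2⟩ := hA e hne
    rw [Four_mem_ball] at h1 h2
    simp only [src, tgt] at h1 h2
    apply he
    push_cast
    split_ifs at h2 <;> simp only at h2 <;> omega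
  obtain ⟨G, hGdef⟩ : ∃ G : Vert → ZMod 2, G = pot A (2 * k + 2) := ⟨_, rfl⟩
  have hG0 : ∀ f : Vert, (f.1 < -(k : ℤ) ∨ (k : ℤ) < f.1 ∨ f.2 < -(k : ℤ)) → G f = 0 := by
    intro f hf
    rw [hGdef]
    exact Four_pot_zero hA hv hf
  have hGe : ∀ e : Edge, G (lowFace e) + G (src e) = A e := by
    intro e
    rw [hGdef]
    exact pot_even hA2 hv e
  obtain ⟨Gu, hGu⟩ : ∃ Gu : Vert → ZMod 2, ∀ f, Gu f = G f + if f = (0, -1) then 1 else 0 :=
    ⟨fun f => G f + if f = (0, -1) then 1 else 0, fun _ => rfl⟩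
  have hclosed : ∀ e : Edge, per n ω e = false →
      G (lowFace e) + G (src e) = Perc.one (0, 0, false) e + Perc.one (1, -1, true) e := by
    intro e ho
    have h1 : c e = 0 := by
      by_contra h1
      rw [(hc e h1).1] at ho
      cases ho
    rw [hGe, hAe, h1, zero_add]
  have hup := up_dual (G := Gu) hL hs he ω (by
    intro e hr _ ho
    have h1 := hclosed e ho
    rw [← Perc.z2_add_eq_zero, hGu, hGu]
    obtain ⟨a, b, bb⟩ := e
    simp only at hr
    have h2 : src (a, b, bb) ≠ (0, -1) := by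
      intro h2
      simp only [src, Prod.mk.injEq] at h2
      omega
    have h3 : lowFace (a, b, bb) = (0, -1) ↔ ((a, b, bb) = ((0, 0, false) : Edge) ∨
        (a, b, bb) = ((1, -1, true) : Edge)) := by
      cases bb <;> simp [lowFace, Prod.mk.injEq] <;> omega
    have h4 : ¬ ((a, b, bb) = ((0, 0, false) : Edge) ∧ (a, b, bb) = ((1, -1, true) : Edge)) := by
      rintro ⟨h5, h6⟩
      rw [h5] at h6
      simp at h6
    rw [if_neg h2, add_zero]
    have h5 : G (lowFace (a, b, bb)) + (if lowFace (a, b, bb) = (0, -1) then 1 else 0) +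
        G (src (a, b, bb)) = (G (lowFace (a, b, bb)) + G (src (a, b, bb))) +
        (if lowFace (a, b, bb) = (0, -1) then 1 else 0) := by ring
    rw [h5, h1]
    simp only [Perc.one]
    by_cases h6 : (a, b, bb) = ((0, 0, false) : Edge)
    · have h7 : ¬ (a, b, bb) = ((1, -1, true) : Edge) := fun h => h4 ⟨h6, h⟩
      rw [if_pos h6, if_neg h7, if_pos (h3.2 (Or.inl h6))]
      decide
    · by_cases h7 : (a, b, bb) = ((1, -1, true) : Edge)
      · rw [if_neg h6, if_pos h7, if_pos (h3.2 (Or.inr h7))]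
        decide
      · rw [if_neg h6, if_neg h7, if_neg (fun h => by
          rcases h3.1 h with h | h
          · exact h6 h
          · exact h7 h)]
        decide) 0 (by
    intro f hf
    rw [hGu, if_neg (by rintro rfl; simp at hf; omega), add_zero, hGdef]
    apply pot_top
    push_cast
    omega)
  have hdn := dn_dual (G := G) hL hs he ω (by
    intro e _ hr ho
    have h1 := hclosed e ho
    rw [← Perc.z2_add_eq_zero, h1]
    have h2 : e ≠ (0, 0, false) := by
      rintro rfl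
      simp at hr
    have h3 : e ≠ (1, -1, true) := by
      rintro rfl
      simp at hr
    simp [Perc.one, h2, h3]) 0 (by
    intro f hf
    apply hG0
    omega)
  obtain ⟨Z, hZ1, hZ2⟩ : ∃ Z : Finset (ℤ ⊕ ℤ), (∀ c, Sum.inl c ∈ Z ↔ Gu (dv c) = 1) ∧
      (∀ c, Sum.inr c ∈ Z ↔ G (dv c) = 1) := by
    have hrange : ∀ c : ℤ, G (dv c) = 1 → c ∈ Finset.Icc (-(2 * k : ℤ)) (2 * k + 1) := by
      intro c hc
      rw [Finset.mem_Icc]
      by_contra hcon
      have h1 : G (dv c) = 0 := by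
        apply hG0
        simp only [dv]
        omega
      rw [h1] at hc
      exact zero_ne_one hc
    refine ⟨((Finset.Icc (-(2 * k : ℤ)) (2 * k + 1)).filter (fun c => Gu (dv c) = 1)).image Sum.inl ∪
      ((Finset.Icc (-(2 * k : ℤ)) (2 * k + 1)).filter (fun c => G (dv c) = 1)).image Sum.inr, ?_, ?_⟩
    · intro c
      simp only [Finset.mem_union, Finset.mem_image, Finset.mem_filter, Sum.inl.injEq,
        exists_eq_right, reduceCtorEq, and_false, exists_false, or_false]
      constructor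
      · exact fun h => h.2
      · intro hc
        refine ⟨?_, hc⟩
        by_cases h1 : dv c = (0, -1)
        · rw [Finset.mem_Icc]
          rcases Four_dv h1 with rfl | rfl <;> constructor <;> omega
        · rw [hGu, if_neg h1, add_zero] at hc
          exact hrange c hc
    · intro c
      simp only [Finset.mem_union, Finset.mem_image, Finset.mem_filter, Sum.inr.injEq,
        exists_eq_right, reduceCtorEq, and_false, exists_false, false_or]
      constructor
      · exact fun h => h.2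
      · intro hc
        exact ⟨hrange c hc, hc⟩
  have hq : Gu (0, -1) = 1 ∨ G (0, -1) = 1 := by
    rw [hGu, if_pos rfl]
    generalize G (0, -1) = a
    revert a
    decide
  have hdv0 : dv 0 = (0, -1) := by simp [dv]
  have main : ∀ ℓ : ℤ ⊕ ℤ, ℓ ∈ Z →
      (ℓ = Sum.inl 0 ∨ ℓ = Sum.inl 1 ∨ ℓ = Sum.inr 0 ∨ ℓ = Sum.inr 1) → False := by
    intro ℓ hℓ hhome
    apply Four_no_finite (by omega) hleg Z _ _ _ _ ℓ hℓ hhome
    · intro x hx
      rw [hZ1] at hx ⊢
      rw [hup x]
      exact hx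
    · intro x hx
      rw [hZ2] at hx ⊢
      rw [hdn x]
      exact hx
    · intro c hc2
      rw [hZ1, hZ2, hGu]
      have h1 : dv c ≠ (0, -1) := by
        intro h1
        rcases Four_dv h1 with rfl | rfl
        · simp at hc2
        · rw [Int.emod_eq_of_lt (by norm_num) (by omega)] at hc2
          norm_num at hc2
      rw [if_neg h1, add_zero]
    · intro c hcc
      have hrange : -(2 * k : ℤ) ≤ c ∧ c ≤ 2 * k + 1 := by
        by_contra hcon
        have h1 : G (dv c) = 0 := by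
          apply hG0
          simp only [dv]
          omega
        rcases hcc with h2 | h2
        · rw [hZ1, hGu, h1] at h2
          by_cases h3 : dv c = (0, -1)
          · rcases Four_dv h3 with rfl | rfl <;> omega
          · rw [if_neg h3] at h2
            simp at h2
        · rw [hZ2, h1] at h2
          exact zero_ne_one h2
      omega
  rcases hq with h1 | h1
  · refine main (Sum.inl 0) ?_ (Or.inl rfl)
    rw [hZ1, hdv0]
    exact h1
  · refine main (Sum.inr 0) ?_ (Or.inr (Or.inr (Or.inl rfl)))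
    rw [hZ2, hdv0]
    exact h1

theorem fourD_of_leg (hL : L = 2 * n) {s : Pat L} (hs : IsStar s) {h k : ℕ} (he : Even h)
    (hk1 : 1 ≤ k) (hk : k + 2 < n) (hh : 2 * k + 2 ≤ h) (ω : Config)
    (hleg : Leg 2 2 (L - 2) (up s n h ω) (dn s n h ω)) : per n ω ∈ FourD k := by
  refine ⟨?_, ?_, Four_sep hL hs he hk1 hk hh ω hleg⟩
  · refine Four_arm hL hs he hk ω hleg xx ?_ 0 (Or.inl rfl) ?_
    · rw [Four_mem_ball]
      simp [xx]
    · simp [pv, xx]
  · refine Four_arm hL hs he hk ω hleg yy ?_ 1 (Or.inr rfl) ?_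
    · rw [Four_mem_ball]
      simp only [yy]
      omega
    · simp [pv, yy]

end Pool.Agent.H89.Link
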