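import Pool.Agent.H89.Link.Face
import Pool.Agent.H89.Link.Potential

/-!
# LINK module `One`: one arm

`arm_of_noSurr`.  Suppose `per n ω ∉ Arm 0 k`.  Let `C` be the set of vertices joined to `0` inside
`ball 0 k`; it is finite, contains `0` and no point of `sphere 0 k`, hence its indicator `F` is constant along
all open edges of `per n ω` (a neighbour of a point of the ball which is not on the sphere is in the ball).
By `up_primal`, `dn_primal` the finite set `X = {c | pv c ∈ C}` is invariant under both involutions.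
`pv c = (j, -j)` with `j = (c + 1) / 2`: the columns `2 j - 1, 2 j`.  So
`#{c ∈ X | 0 ≤ c} = 1 + 2 #{j ≥ 1 | (j, -j) ∈ C}` is odd, which contradicts `NoSurr`.

`noSurr_of_path`.  `exists_pathSum` and `exists_halfSum` give `A : Edge → ZMod 2` supported on open edges of
`per n ω` in the strip, with `0` the only vertex of odd degree; `G = pot A H`.  By `pot_odd`
`Gu f = G f` satisfies `Gu (lowFace e) = Gu (src e)` for all closed edges `e` in rows `≥ 0` (there
`e.1 = 0 ∧ e.2.1 < 0` is impossible), and `Gd f = G f + (if 0 ≤ f.1 then 1 else 0)` satisfies the same for closed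
edges in rows `< 0` (check: only `e = (0, b, true)` has `lowFace e`, `src e` on different sides of `f.1 = 0`, and
in the rows `< 0` it has `b < 0`).  Top level `h ≥ H`: `Gu = 0` (`pot_top`).  Bottom level `-h ≤ -H`: `Gd` is
constant: for `f.1 + f.2 + 1 = -h` moving from `(a, b)` to `(a + 1, b - 1)` crosses edges of rows `< -H` (or
`≤ -H`), where `A = 0`, so `Gd` does not change; (equivalently `Gd (a, b) = Gd (a+1, b-1)` for all `a`, then
integer induction).  Hence `up_dual`, `dn_dual`: with `hu c = Gu (dv c)`, `hd c = Gd (dv c)`: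
`hu ((up ..).m c) = hu c`, `hd ((dn ..).m c) = hd c`, and `hu c + hd c = if 0 ≤ c then 1 else 0`
(`(dv c).1 = c / 2 ≥ 0 ↔ c ≥ 0`).  For an invariant finite set `X`: `∑_{c ∈ X} hu c = 0` in `ZMod 2` (a fixed point
free involution of `X` preserves `hu`; `Finset.sum_involution`), same for `hd`; so `#{c ∈ X | 0 ≤ c}` is even.
-/

set_option autoImplicit false

namespace Pool.Agent.H89.Link

open H56.EX
open Pool.Agent.H89.Perc (Vert Edge Config src tgt lowFace vsum)

variable {L n : ℕ}

/-- a sum in `ZMod 2` which is invariant under a fixed point free involution vanishes -/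
lemma sum_invol_zero {X : Finset ℤ} (P : Pat L) (hX : ∀ x ∈ X, P.m x ∈ X) (f : ℤ → ZMod 2)
    (hf : ∀ x, f (P.m x) = f x) : ∑ x ∈ X, f x = 0 := by
  apply Finset.sum_involution (fun x _ => P.m x)
  · intro a _
    rw [hf]
    exact Perc.z2_add_self _
  · intro a _ _
    exact P.ne a
  · intro a ha
    exact hX a ha
  · intro a _
    exact P.inv a

lemma even_card_of_invol {X : Finset ℤ} (g : ℤ → ℤ) (hm : ∀ x ∈ X, g x ∈ X)
    (hi : ∀ x ∈ X, g (g x) = x) (hn : ∀ x ∈ X, g x ≠ x) : Even X.card := by
  rw [← ZMod.natCast_eq_zero_iff_even, Finset.card_eq_sum_ones]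
  push_cast
  apply Finset.sum_involution (fun x _ => g x)
  · intro a _
    exact Perc.z2_add_self _
  · intro a ha _
    exact hn a ha
  · intro a ha
    exact hm a ha
  · intro a ha
    exact hi a ha

/-- The cluster of `v` inside a ball is a cluster of the whole configuration if it does not reach the
sphere. -/
lemma conn_ball_step {η : Config} {k : ℕ} {v : Vert} (hno : ∀ u ∈ Perc.sphere 0 k,
    ¬ Perc.Conn η (Perc.ball 0 k) v u) {a b : Vert} (ha : Perc.Conn η (Perc.ball 0 k) v a)
    {e : Edge} (he : Perc.Joins e a b) (ho : η e = true) : Perc.Conn η (Perc.ball 0 k) v b := by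
  have hab : Perc.Step η Set.univ a b := ⟨trivial, trivial, e, he, ho⟩
  have h1 : a ∈ Perc.ball 0 k := ha.mem_right
  have h2 : a ∉ Perc.sphere 0 k := fun h => hno a h ha
  have h3 : ¬ (a.1 = (0 : Vert).1 - k ∨ a.1 = (0 : Vert).1 + k ∨ a.2 = (0 : Vert).2 - k ∨
      a.2 = (0 : Vert).2 + k) := fun h => h2 ⟨h1, h⟩
  have h4 := hab.fst_le
  have h5 := hab.snd_le
  have hb : b ∈ Perc.ball 0 k := by
    simp only [Perc.mem_ball] at h1 ⊢
    omega
  exact ha.tail ⟨h1, hb, e, he, ho⟩

theorem arm_of_noSurr (hL : L = 2 * n) {s : Pat L} (hs : IsStar s) {h : ℕ} (he : Even h)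
    (ω : Config) (hN : NoSurr (up s n h ω) (dn s n h ω)) (k : ℕ) : per n ω ∈ Perc.Arm 0 k := by
  classical
  by_contra harm
  set η := per n ω with hη
  have hno : ∀ u ∈ Perc.sphere 0 k, ¬ Perc.Conn η (Perc.ball 0 k) 0 u := by
    intro u hu hc
    exact harm ⟨u, hu, hc⟩
  set F : Vert → Prop := fun v => Perc.Conn η (Perc.ball 0 k) 0 v with hF
  have hconst : ∀ e : Edge, η e = true → F (src e) = F (tgt e) := by
    intro e ho
    apply propext
    constructor
    · intro h1
      exact conn_ball_step hno h1 (Perc.joins_src_tgt e) ho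
    · intro h1
      exact conn_ball_step hno h1 (Perc.joins_src_tgt e).symm ho
  have hup : ∀ x, F (pv ((up s n h ω).m x)) = F (pv x) :=
    up_primal hL hs he ω (fun e _ _ ho => hconst e ho)
  have hdn : ∀ x, F (pv ((dn s n h ω).m x)) = F (pv x) :=
    dn_primal hL hs he ω (fun e _ _ ho => hconst e ho)
  set X : Finset ℤ := (Finset.Icc (-2 * (k : ℤ) - 1) (2 * k)).filter (fun c => F (pv c)) with hX
  have hmem : ∀ c, c ∈ X ↔ F (pv c) := by
    intro c
    rw [hX, Finset.mem_filter]
    constructor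
    · exact fun h => h.2
    · intro h
      refine ⟨?_, h⟩
      have h1 : pv c ∈ Perc.ball 0 k := Perc.Conn.mem_right h
      simp only [Perc.mem_ball, pv] at h1
      have h2 : (0 : Vert).1 = 0 := rfl
      have h3 : (0 : Vert).2 = 0 := rfl
      rw [h2, h3] at h1
      rw [Finset.mem_Icc]
      omega
  have hEven := hN X (fun x hx => by rw [hmem] at hx ⊢; rw [hup]; exact hx)
    (fun x hx => by rw [hmem] at hx ⊢; rw [hdn]; exact hx)
  have h0 : (0 : ℤ) ∈ X := by
    rw [hmem]
    have : pv 0 = (0 : Vert) := by simp [pv]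
    rw [this]
    exact Perc.Conn.refl Perc.self_mem_ball
  have h0' : (0 : ℤ) ∈ X.filter (fun c => 0 ≤ c) := by
    rw [Finset.mem_filter]; exact ⟨h0, le_refl _⟩
  have hY : Even ((X.filter (fun c => 0 ≤ c)).erase 0).card := by
    apply even_card_of_invol (fun c => if c % 2 = 0 then c - 1 else c + 1)
    · intro c hc
      rw [Finset.mem_erase, Finset.mem_filter, hmem] at hc ⊢
      obtain ⟨h1, h2, h3⟩ := hc
      have hpv : pv (if c % 2 = 0 then c - 1 else c + 1) = pv c := by
        unfold pv
        have : ((if c % 2 = 0 then c - 1 else c + 1) + 1) / 2 = (c + 1) / 2 := by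
          split_ifs <;> omega
        rw [this]
      refine ⟨?_, ?_, ?_⟩
      · split_ifs <;> omega
      · rw [hpv]; exact h2
      · split_ifs <;> omega
    · intro c _
      show (if (if c % 2 = 0 then c - 1 else c + 1) % 2 = 0 then _ else _) = c
      split_ifs <;> omega
    · intro c _
      show (if c % 2 = 0 then c - 1 else c + 1) ≠ c
      split_ifs <;> omega
  have h1 : ((X.filter (fun c => 0 ≤ c)).erase 0).card + 1 = (X.filter (fun c => 0 ≤ c)).card :=
    Finset.card_erase_add_one h0'
  rw [← h1] at hEven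
  rcases hY with ⟨a, ha⟩
  rcases hEven with ⟨b, hb⟩
  omega

lemma level_shift (n : ℕ) (e : Edge) (k : ℤ) :
    (e.1 + n * k) + (e.2.1 - n * k) = e.1 + e.2.1 := by ring

lemma mem_strip_src {H : ℕ} {e : Edge} (h1 : src e ∈ strip H) (h2 : tgt e ∈ strip H) :
    -(H : ℤ) < e.1 + e.2.1 ∧ e.1 + e.2.1 + 1 < H := by
  simp only [strip, Set.mem_ofPred_eq, src] at h1
  simp only [strip, Set.mem_ofPred_eq, tgt] at h2
  split_ifs at h2 with h
  · simp only at h2
    omega
  · simp only at h2
    omega

theorem noSurr_of_path (hL : L = 2 * n) (hn : 1 ≤ n) {s : Pat L} (hs : IsStar s) {h H : ℕ}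
    (he : Even h) (hH : H ≤ h) (ω : Config)
    (hp : Perc.Conn (per n ω) (strip H) 0 ((n : ℤ), -(n : ℤ))) :
    NoSurr (up s n h ω) (dn s n h ω) := by
  classical
  set η := per n ω with hη
  obtain ⟨c, hc1, hc2, hc3⟩ := exists_pathSum hp
  obtain ⟨A, hA1, ⟨B, hB⟩, hA2, hA3⟩ := exists_halfSum n hn hc2 hc3
  -- support of `A`
  have hAo : ∀ e, A e ≠ 0 → η e = true ∧ -(H : ℤ) < e.1 + e.2.1 ∧ e.1 + e.2.1 + 1 < H := by
    intro e hAe
    obtain ⟨k, hk⟩ := hA1 e hAe
    obtain ⟨h1, h2, h3⟩ := hc1 _ hk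
    have h4 := mem_strip_src h2 h3
    simp only at h4
    rw [level_shift] at h4
    refine ⟨?_, h4⟩
    rw [hη, ← per_shift n ω e k]
    exact h1
  have hAclosed : ∀ e, η e = false → A e = 0 := by
    intro e h1
    by_contra h2
    rw [(hAo e h2).1] at h1
    exact absurd h1 (by decide)
  have hAs : ∀ e : Edge, ¬ (-(H : ℤ) < e.1 + e.2.1 ∧ e.1 + e.2.1 + 1 < H) → A e = 0 := by
    intro e h1
    by_contra h2
    exact h1 (hAo e h2).2
  have hpot := pot_odd hAs hA2 hA3
  set G := pot A H with hG
  set Gd : Vert → ZMod 2 := fun f => G f + if 0 ≤ f.1 then 1 else 0 with hGd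
  have hu : ∀ e : Edge, 0 ≤ e.1 + e.2.1 → A e = 0 → G (lowFace e) = G (src e) := by
    intro e h1 h2
    have h3 := hpot e
    rw [h2, if_neg (by omega), add_zero] at h3
    exact Perc.z2_add_eq_zero.1 h3
  have hGd' : ∀ a b : ℤ, Gd (a, b) = G (a, b) + if 0 ≤ a then 1 else 0 := fun a b => rfl
  have hd : ∀ e : Edge, e.1 + e.2.1 < 0 → A e = 0 → Gd (lowFace e) = Gd (src e) := by
    intro e h1 h2
    have h3 := hpot e
    rw [h2, zero_add] at h3
    obtain ⟨a, b, t⟩ := e
    simp only at h1
    rcases t with _ | _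
    · have h4 : G (a, b - 1) + G (a, b) = 0 := by
        rw [if_neg (by simp)] at h3
        exact h3
      show Gd (a, b - 1) = Gd (a, b)
      rw [hGd', hGd', Perc.z2_add_eq_zero.1 h4]
    · show Gd (a - 1, b) = Gd (a, b)
      rw [hGd', hGd']
      by_cases ha : a = 0
      · have hb : b < 0 := by omega
        have h5 : G (a - 1, b) + G (a, b) = 1 := by
          rw [if_pos ⟨rfl, ha, hb⟩] at h3
          exact h3
        have h4 : G (a - 1, b) = 1 + G (a, b) := by
          have h6 : G (a - 1, b) + G (a, b) + G (a, b) = 1 + G (a, b) := by rw [h5]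
          rwa [add_assoc, Perc.z2_add_self, add_zero] at h6
        rw [if_neg (by omega), if_pos (by omega), add_zero, h4, add_comm]
      · have h5 : G (a - 1, b) + G (a, b) = 0 := by
          rw [if_neg (by rintro ⟨_, h6, _⟩; exact ha h6)] at h3
          exact h3
        rw [Perc.z2_add_eq_zero.1 h5]
        by_cases ha' : 0 ≤ a
        · rw [if_pos ha', if_pos (by omega)]
        · rw [if_neg ha', if_neg (by omega)]
  have hup := up_dual hL hs he ω (G := G)
    (fun e h1 _ h2 => hu e h1 (hAclosed e h2)) 0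
    (fun f hf => pot_top A H (by omega))
  have hbot : ∀ f : Vert, f.1 + f.2 + 1 = -(h : ℤ) → Gd f = Gd (0, -(h : ℤ) - 1) := by
    have hstep : ∀ a : ℤ, Gd (a + 1, -(h : ℤ) - 1 - (a + 1)) = Gd (a, -(h : ℤ) - 1 - a) := by
      intro a
      have e1 := hd (a, -(h : ℤ) - 1 - a, false) (by simp only; omega) (hAs _ (by simp only; omega))
      have e2 := hd (a + 1, -(h : ℤ) - 1 - a - 1, true) (by simp only; omega)
        (hAs _ (by simp only; omega))
      simp only [lowFace, src, Bool.false_eq_true, if_false, if_true] at e1 e2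
      rw [show a + 1 - 1 = a by ring] at e2
      rw [show -(h : ℤ) - 1 - (a + 1) = -(h : ℤ) - 1 - a - 1 by ring, ← e2, e1]
    have hall : ∀ a : ℤ, Gd (a, -(h : ℤ) - 1 - a) = Gd (0, -(h : ℤ) - 1) := by
      intro a
      induction a using Int.induction_on with
      | zero => simp
      | succ a ih => rw [hstep]; exact ih
      | pred a ih =>
        have := hstep (-a - 1)
        rw [show (-(a : ℤ) - 1 + 1) = -a by ring] at this
        rw [← this]; exact ih
    intro f hf
    have h1 : f = (f.1, -(h : ℤ) - 1 - f.1) := by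
      apply Prod.ext
      · rfl
      · simp only; omega
    rw [h1]
    exact hall f.1
  have hdn := dn_dual hL hs he ω (G := Gd)
    (fun e _ h1 h2 => hd e h1 (hAclosed e h2)) (Gd (0, -(h : ℤ) - 1)) hbot
  intro X hX1 hX2
  have s1 := sum_invol_zero (up s n h ω) hX1 (fun c => G (dv c)) hup
  have s2 := sum_invol_zero (dn s n h ω) hX2 (fun c => Gd (dv c)) hdn
  have s3 : ∑ x ∈ X, (if 0 ≤ x then (1 : ZMod 2) else 0) = 0 := by
    have e1 : ∀ x : ℤ, (if 0 ≤ x then (1 : ZMod 2) else 0) = G (dv x) + Gd (dv x) := by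
      intro x
      rw [hGd]
      simp only
      rw [← add_assoc, Perc.z2_add_self, zero_add]
      have h3 : (dv x).1 = x / 2 := rfl
      rw [h3]
      by_cases hx : 0 ≤ x
      · rw [if_pos hx, if_pos (by omega)]
      · rw [if_neg hx, if_neg (by omega)]
    rw [Finset.sum_congr rfl (fun x _ => e1 x), Finset.sum_add_distrib]
    rw [show (∑ x ∈ X, G (dv x)) = 0 from s1, show (∑ x ∈ X, Gd (dv x)) = 0 from s2, add_zero]
  rw [← ZMod.natCast_eq_zero_iff_even, Finset.card_eq_sum_ones]
  push_cast
  rw [Finset.sum_filter]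
  exact s3

end Pool.Agent.H89.Link
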