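import Pool.Agent.H89.Link.Defs
import Pool.Agent.H89.Perc.Prob

/-!
# LINK module `PerProb`: local events have the same probability in the plane and on the cylinder

`per n ω e = ω (base n e)` with `base n e = (e.1 % n, e.2.1 + (e.1 - e.1 % n), e.2.2)`.  If `base n` is injective on
the finite set `S` and `A` depends only on `S`, then `{ω | per n ω ∈ A}` is the image of `A` under the
relabelling, and has the same probability (the law of `(ω (base n e))_{e ∈ S}` is the product law).
`base n` is injective on the edges with `|e.1| ≤ k` if `2 k < n`.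
-/

set_option autoImplicit false

open MeasureTheory ProbabilityTheory unitInterval

namespace Pool.Agent.H89.Link

open Pool.Agent.H89.Perc (Vert Edge Config Pr half)

/-- The representative of the edge `e` in the strip `0 ≤ x < n`. -/
def base (n : ℕ) (e : Edge) : Edge := (e.1 % n, e.2.1 + (e.1 - e.1 % n), e.2.2)

theorem per_eq (n : ℕ) (ω : Config) (e : Edge) : per n ω e = ω (base n e) := rfl

theorem base_injOn {n k : ℕ} (hk : 2 * k < n) :
    Set.InjOn (base n) {e : Edge | -(k : ℤ) ≤ e.1 ∧ e.1 ≤ k} := by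
  rintro ⟨x, y, b⟩ ⟨h1, h2⟩ ⟨x', y', b'⟩ ⟨h1', h2'⟩ h
  simp only [base, Prod.mk.injEq] at h
  simp only at h1 h2 h1' h2'
  obtain ⟨e1, e2, e3⟩ := h
  have hd : (n : ℤ) ∣ x - x' := Int.ModEq.dvd (Eq.symm e1)
  have hlt : |x - x'| < (n : ℤ) := by
    rw [abs_lt]
    constructor <;> omega
  have h0 : x - x' = 0 := Int.eq_zero_of_abs_lt_dvd hd hlt
  have hx : x = x' := by omega
  subst hx
  have hy : y = y' := by omega
  subst hy
  subst e3
  rfl

theorem pr_per (p : I) {n : ℕ} {S : Finset Edge} (hS : Set.InjOn (base n) S) {A : Set Config}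
    (hA : Perc.LocalOn S A) : Pr p {ω | per n ω ∈ A} = Pr p A :=
  Perc.Pr_comp hA hS

/-- `base n` is injective on the edges of a box. -/
theorem perProb_injOn {n k : ℕ} (hk : 2 * k < n) :
    Set.InjOn (base n) (Perc.eRect (-(k : ℤ)) k (-(k : ℤ)) k : Finset Edge) := by
  refine (base_injOn hk).mono ?_
  intro e he
  have he' := Perc.mem_eRect.1 (Finset.mem_coe.1 he)
  exact ⟨he'.1, he'.2.1⟩

theorem perProb_ball (k : ℕ) : Perc.ball 0 k = Perc.rect (-(k : ℤ)) k (-(k : ℤ)) k := by
  simp [Perc.ball]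

theorem pr_per_arm (p : I) {n k : ℕ} (hk : 2 * k < n) :
    Pr p {ω | per n ω ∈ Perc.Arm 0 k} = Perc.arm p k := by
  have h := Perc.localOn_arm 0 k
  simp only [Prod.fst_zero, Prod.snd_zero, zero_sub, zero_add] at h
  exact pr_per p (perProb_injOn hk) h

theorem perProb_localOn (k : ℕ) :
    Perc.LocalOn (Perc.eRect (-(k : ℤ)) k (-(k : ℤ)) k) (FourD k) := by
  intro ω ω' h hA
  have hc : ∀ (u v : Vert), Perc.Conn ω (Perc.ball 0 k) u v → Perc.Conn ω' (Perc.ball 0 k) u v := by
    intro u v huv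
    rw [perProb_ball] at huv ⊢
    exact Perc.localOn_conn u v ω ω' h huv
  have hc' : ∀ (u v : Vert), Perc.Conn ω' (Perc.ball 0 k) u v → Perc.Conn ω (Perc.ball 0 k) u v := by
    intro u v huv
    rw [perProb_ball] at huv ⊢
    exact Perc.localOn_conn u v ω' ω (fun e he => (h e he).symm) huv
  obtain ⟨⟨u, hu, h1⟩, ⟨v, hv, h2⟩, h3⟩ := hA
  exact ⟨⟨u, hu, hc _ _ h1⟩, ⟨v, hv, hc _ _ h2⟩, fun h4 => h3 (hc' _ _ h4)⟩

theorem pr_per_fourD (p : I) {n k : ℕ} (hk : 2 * k < n) :
    Pr p {ω | per n ω ∈ FourD k} = Pr p (FourD k) :=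
  pr_per p (perProb_injOn hk) (perProb_localOn k)

end Pool.Agent.H89.Link
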