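import Pool.Agent.H89.Link.Law
import Pool.Agent.H89.Link.One
import Pool.Agent.H89.Link.Four
import Pool.Agent.H89.Link.Fc
import Pool.Agent.H89.Link.PerProb

/-!
# LINK module `Final`

Let `h → ∞` through even numbers in `pr_up_dn` with `A` = the event in question, use `law_tendsto`.
-/

set_option autoImplicit false

open MeasureTheory ProbabilityTheory Filter Topology

namespace Pool.Agent.H89.Link

open H56.EX
open Pool.Agent.H89.Perc (Vert Edge Config Pr half)

variable {L n : ℕ}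

open Classical in
theorem pr_tendsto (hL : L = 2 * n) (hn : 1 ≤ n) {s : Pat L} (hs : IsStar s) {v : Pat L → ℂ}
    (hv : Stat v) (hS : ∑ P, v P ≠ 0) (A : Set (Pat L × Pat L)) :
    Tendsto (fun h : ℕ => ((Pr half {ω | (up s n (2 * h) ω, dn s n (2 * h) ω) ∈ A} : ℝ) : ℂ)) atTop
      (𝓝 ((∑ P : Pat L, ∑ Q : Pat L, if (P, Q) ∈ A then v P * v Q else 0) / (∑ P, v P) ^ 2)) := by
  have h2 : Tendsto (fun h : ℕ => 2 * h) atTop atTop :=
    tendsto_atTop_mono (fun h => by simp only [id]; omega) tendsto_id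
  have hlaw : ∀ Q : Pat L, Tendsto (fun h : ℕ => (law s (2 * h) Q : ℂ)) atTop
      (𝓝 (v Q / ∑ P, v P)) := fun Q => (law_tendsto hL hn hs hv hS Q).comp h2
  have hlim : (∑ P : Pat L, ∑ Q : Pat L, if (P, Q) ∈ A then v P * v Q else 0) / (∑ P, v P) ^ 2 =
      ∑ P : Pat L, ∑ Q : Pat L, if (P, Q) ∈ A then (v P / ∑ P, v P) * (v Q / ∑ P, v P) else 0 := by
    rw [Finset.sum_div]
    refine Finset.sum_congr rfl fun P _ => ?_
    rw [Finset.sum_div]
    refine Finset.sum_congr rfl fun Q _ => ?_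
    split_ifs
    · field_simp
    · simp
  rw [hlim]
  have heq : (fun h : ℕ => ((Pr half {ω | (up s n (2 * h) ω, dn s n (2 * h) ω) ∈ A} : ℝ) : ℂ)) =
      fun h : ℕ => ∑ P : Pat L, ∑ Q : Pat L,
        if (P, Q) ∈ A then (law s (2 * h) P : ℂ) * (law s (2 * h) Q : ℂ) else 0 := by
    funext h
    rw [pr_up_dn hL hn s (2 * h) A]
    push_cast
    refine Finset.sum_congr rfl fun P _ => Finset.sum_congr rfl fun Q _ => ?_
    split_ifs <;> simp
  rw [heq]
  refine tendsto_finsetSum _ fun P _ => tendsto_finsetSum _ fun Q _ => ?_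
  split_ifs
  · exact (hlaw P).mul (hlaw Q)
  · exact tendsto_const_nhds

/-- The limit of real numbers in `ℂ` is real. -/
private lemma real_limit {a : ℕ → ℝ} {z : ℂ} (h : Tendsto (fun n => (a n : ℂ)) atTop (𝓝 z)) :
    ∃ g : ℝ, (g : ℂ) = z ∧ Tendsto a atTop (𝓝 g) := by
  have h1 : Tendsto a atTop (𝓝 z.re) := by
    have := (Complex.continuous_re.tendsto z).comp h
    simpa [Function.comp_def] using this
  have h2 : Tendsto (fun n => (a n : ℂ)) atTop (𝓝 (z.re : ℂ)) :=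
    (Complex.continuous_ofReal.tendsto z.re).comp h1
  exact ⟨z.re, tendsto_nhds_unique h2 h, h1⟩

private lemma pr_mono {A B : Set Config} (h : A ⊆ B) : Pr half A ≤ Pr half B :=
  measureReal_mono h

open Classical in
/-- **One arm.** -/
theorem link_one (hL : L = 2 * n) (hn : 1 ≤ n) {v : Pat L → ℂ} (hv : Stat v) (hS : ∑ P, v P ≠ 0) :
    ∃ g : ℝ, (g : ℂ) = (∑ P : Pat L, ∑ Q : Pat L, if NoSurr P Q then v P * v Q else 0) /
        (∑ P, v P) ^ 2 ∧
      (∀ k : ℕ, 2 * k < n → g ≤ Perc.arm half k) ∧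
      ∀ H : ℕ, Pr half {ω | Perc.Conn (per n ω) (strip H) 0 ((n : ℤ), -(n : ℤ))} ≤ g := by
  obtain ⟨s, hs⟩ := exists_star hL hn
  have hT := pr_tendsto hL hn hs hv hS {PQ : Pat L × Pat L | NoSurr PQ.1 PQ.2}
  obtain ⟨g, hg, ht⟩ := real_limit hT
  refine ⟨g, ?_, ?_, ?_⟩
  · rw [hg]
    rfl
  · intro k hk
    refine le_of_tendsto' ht fun h => ?_
    rw [← pr_per_arm half hk]
    refine pr_mono fun ω hω => ?_
    exact arm_of_noSurr hL hs (even_two_mul h) ω hω k
  · intro H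
    refine ge_of_tendsto ht ?_
    filter_upwards [eventually_ge_atTop H] with h hh
    refine pr_mono fun ω hω => ?_
    exact noSurr_of_path hL hn hs (even_two_mul h) (by omega) ω hω

open Classical in
/-- **Four arms.** -/
theorem link_four (hL : L = 2 * n) (hn : 2 ≤ n) {v : Pat L → ℂ} (hv : Stat v) (hS : ∑ P, v P ≠ 0) :
    ∃ g : ℝ, (g : ℂ) = legSum 2 2 (L - 2) v v / (∑ P, v P) ^ 2 ∧
      (∀ k : ℕ, 1 ≤ k → 2 * k < n → k + 2 < n → g ≤ Pr half (FourD k)) ∧
      ∀ H : ℕ, Pr half {ω | per n ω ∈ Fc n H} ≤ g := by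
  obtain ⟨s, hs⟩ := exists_star hL (by omega : 1 ≤ n)
  have hT := pr_tendsto hL (by omega : 1 ≤ n) hs hv hS
    {PQ : Pat L × Pat L | Leg 2 2 (L - 2) PQ.1 PQ.2}
  obtain ⟨g, hg, ht⟩ := real_limit hT
  refine ⟨g, ?_, ?_, ?_⟩
  · rw [hg]
    rfl
  · intro k hk1 hk2 hk3
    refine le_of_tendsto ht ?_
    filter_upwards [eventually_ge_atTop (2 * k + 2)] with h hh
    rw [← pr_per_fourD half hk2]
    refine pr_mono fun ω hω => ?_
    exact fourD_of_leg hL hs (even_two_mul h) hk1 hk3 (by omega) ω hω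
  · intro H
    refine ge_of_tendsto ht ?_
    filter_upwards [eventually_ge_atTop H] with h hh
    refine pr_mono fun ω hω => ?_
    exact leg_of_fc hL hn hs (even_two_mul h) (by omega) ω hω

end Pool.Agent.H89.Link
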