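import Pool.Agent.H89.Link.Fc
import Pool.Agent.H89.Link.Final

/-!
# LINK module `Fc2`: two disjoint winding clusters at the pair `x`, `y` imply the four-leg event

`Fc2 n H`: `x` is joined to `x + (n, -n)` and `y` to `y + (n, -n)` in the strip, and `x` is not joined
to `y`.  `leg_of_wind`: `per n ω ∈ Fc2 n H` implies `Leg 2 2 (L - 2) (up s n h ω) (dn s n h ω)`.
-/

set_option autoImplicit false

open MeasureTheory ProbabilityTheory Filter Topology

namespace Pool.Agent.H89.Link

open H56.EX
open Pool.Agent.H89.Perc (Vert Edge Config Pr half src tgt lowFace vsum)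

variable {L n : ℕ}

/-- Two different winding clusters at `x` and `y`. -/
def Fc2 (n H : ℕ) : Set Config :=
  {ω | Perc.Conn ω (strip H) xx (n, -n) ∧ Perc.Conn ω (strip H) yy (n + 1, -n - 1) ∧
    ¬ Perc.Conn ω Set.univ xx yy}

/-- sum of the translates of `c` by `k ≥ 0` periods -/
noncomputable def halfS (n : ℕ) (c : Edge → ZMod 2) : Edge → ZMod 2 :=
  fun e => ∑ᶠ k : ℕ, c (she n (-(k : ℤ)) e)

lemma she_neg_inj {n : ℕ} (hn : 1 ≤ n) (e : Edge) :
    Function.Injective (fun k : ℕ => she n (-(k : ℤ)) e) := by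
  intro k l h
  have h1 := she_inj hn e h
  omega

lemma sh_neg_inj {n : ℕ} (hn : 1 ≤ n) (v : Vert) :
    Function.Injective (fun k : ℕ => sh n (-(k : ℤ)) v) := by
  intro k l h
  have h1 := sh_inj hn v h
  omega

lemma halfS_fin {n : ℕ} (hn : 1 ≤ n) {c : Edge → ZMod 2} (hc : {e | c e ≠ 0}.Finite) (e : Edge) :
    Function.HasFiniteSupport (fun k : ℕ => c (she n (-(k : ℤ)) e)) := by
  have h := Set.Finite.preimage (f := fun k : ℕ => she n (-(k : ℤ)) e) (s := {e | c e ≠ 0})
    ((she_neg_inj hn e).injOn) hc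
  exact h

lemma halfS_vsum {n : ℕ} (hn : 1 ≤ n) {c : Edge → ZMod 2} (hc : {e | c e ≠ 0}.Finite) (V : Vert) :
    vsum (halfS n c) V = ∑ᶠ k : ℕ, vsum c (sh n (-(k : ℤ)) V) := by
  have e1 : ∀ k : ℕ, vsum c (sh n (-(k : ℤ)) V) = c (she n (-(k : ℤ)) (V.1, V.2, false)) +
      c (she n (-(k : ℤ)) (V.1, V.2, true)) + c (she n (-(k : ℤ)) (V.1 - 1, V.2, false)) +
      c (she n (-(k : ℤ)) (V.1, V.2 - 1, true)) := by
    intro k
    unfold vsum sh she
    simp only
    rw [show V.1 + n * (-(k : ℤ)) - 1 = V.1 - 1 + n * (-(k : ℤ)) by ring,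
      show V.2 - n * (-(k : ℤ)) - 1 = V.2 - 1 - n * (-(k : ℤ)) by ring]
  have f1 := halfS_fin hn hc (V.1, V.2, false)
  have f2 := halfS_fin hn hc (V.1, V.2, true)
  have f3 := halfS_fin hn hc (V.1 - 1, V.2, false)
  have f4 := halfS_fin hn hc (V.1, V.2 - 1, true)
  have f12 : Function.HasFiniteSupport (fun k : ℕ => c (she n (-(k : ℤ)) (V.1, V.2, false)) +
      c (she n (-(k : ℤ)) (V.1, V.2, true))) := f1.add f2
  have f123 : Function.HasFiniteSupport (fun k : ℕ => c (she n (-(k : ℤ)) (V.1, V.2, false)) +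
      c (she n (-(k : ℤ)) (V.1, V.2, true)) + c (she n (-(k : ℤ)) (V.1 - 1, V.2, false))) :=
    f12.add f3
  rw [finsum_congr e1, finsum_add_distrib f123 f4, finsum_add_distrib f12 f3,
    finsum_add_distrib f1 f2]
  rfl

open Classical in
lemma finsum_ind_half {n : ℕ} (hn : 1 ≤ n) (V w : Vert) :
    (∑ᶠ k : ℕ, (if sh n (-(k : ℤ)) V = w then (1 : ZMod 2) else 0)) =
      if ∃ k : ℕ, sh n (-(k : ℤ)) V = w then 1 else 0 := by
  by_cases h : ∃ k : ℕ, sh n (-(k : ℤ)) V = w
  · obtain ⟨k, hk⟩ := h
    rw [if_pos ⟨k, hk⟩, finsum_eq_single _ k]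
    · rw [if_pos hk]
    · intro l hl
      rw [if_neg]
      intro h2
      exact hl (sh_neg_inj hn V (h2.trans hk.symm))
  · rw [if_neg h]
    rw [show (fun k : ℕ => if sh n (-(k : ℤ)) V = w then (1 : ZMod 2) else 0) = fun _ => 0 from ?_]
    · exact finsum_zero
    · funext k
      rw [if_neg]
      exact fun h2 => h ⟨k, h2⟩

lemma hfs_half {n : ℕ} (hn : 1 ≤ n) (V w : Vert) : Function.HasFiniteSupport
    (fun k : ℕ => if sh n (-(k : ℤ)) V = w then (1 : ZMod 2) else 0) := by
  have : (Function.support (fun k : ℕ => if sh n (-(k : ℤ)) V = w then (1 : ZMod 2) else 0)) ⊆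
      (fun k : ℕ => sh n (-(k : ℤ)) V) ⁻¹' {w} := by
    intro k hk
    rw [Function.mem_support] at hk
    by_contra h2
    apply hk
    rw [if_neg]
    exact h2
  exact (Set.Finite.preimage ((sh_neg_inj hn V).injOn) (Set.finite_singleton w)).subset this

lemma hfs_per {n : ℕ} (hn : 1 ≤ n) (V w : Vert) : Function.HasFiniteSupport
    (fun k : ℤ => if sh n k V = w then (1 : ZMod 2) else 0) := by
  have : (Function.support (fun k : ℤ => if sh n k V = w then (1 : ZMod 2) else 0)) ⊆
      (fun k : ℤ => sh n k V) ⁻¹' {w} := by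
    intro k hk
    rw [Function.mem_support] at hk
    by_contra h2
    apply hk
    rw [if_neg]
    exact h2
  exact (Set.Finite.preimage ((sh_inj hn V).injOn) (Set.finite_singleton w)).subset this

/-- the half sum of a path from `u` to `u + (n, -n)` has odd degree at `u` only -/
lemma halfS_vsum_path {n : ℕ} (hn : 1 ≤ n) {c : Edge → ZMod 2} (hc : {e | c e ≠ 0}.Finite)
    {u : Vert} (hv : ∀ V : Vert, vsum c V = (if V = u then 1 else 0) +
      (if V = sh n 1 u then 1 else 0)) (V : Vert) :
    vsum (halfS n c) V = if V = u then 1 else 0 := by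
  classical
  rw [halfS_vsum hn hc, finsum_congr (fun k : ℕ => hv (sh n (-(k : ℤ)) V)),
    finsum_add_distrib (hfs_half hn _ _) (hfs_half hn _ _), finsum_ind_half hn, finsum_ind_half hn]
  have key : ∀ (k : ℤ) (w : Vert), sh n (-k) V = w ↔ V = sh n k w := by
    intro k w
    constructor
    · rintro rfl
      rw [sh_sh, show k + -k = 0 by ring, sh_zero]
    · rintro rfl
      rw [sh_sh, show -k + k = 0 by ring, sh_zero]
  by_cases h : ∃ k : ℕ, sh n (-(k : ℤ)) V = u
  · obtain ⟨k, hk⟩ := h
    rw [if_pos ⟨k, hk⟩]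
    have hk' := (key k u).1 hk
    rcases Nat.eq_zero_or_pos k with h0 | hpos
    · subst h0
      rw [Nat.cast_zero, sh_zero] at hk'
      rw [if_pos hk', if_neg, add_zero]
      rintro ⟨l, hl⟩
      have hl' := (key l _).1 hl
      rw [sh_sh, hk'] at hl'
      have h3 : (fun k : ℤ => sh n k u) 0 = (fun k : ℤ => sh n k u) ((l : ℤ) + 1) := by
        simp only [sh_zero]; exact hl'
      have h4 := sh_inj hn u h3
      omega
    · rw [if_pos, if_neg, Perc.z2_add_self]
      · intro h5
        rw [h5] at hk'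
        have h3 : (fun k : ℤ => sh n k u) 0 = (fun k : ℤ => sh n k u) (k : ℤ) := by
          simp only [sh_zero]; exact hk'
        have h4 := sh_inj hn u h3
        omega
      · refine ⟨k - 1, ?_⟩
        rw [key, hk', sh_sh]
        congr 1
        omega
  · rw [if_neg h, if_neg, if_neg, add_zero]
    · intro h5
      exact h ⟨0, by rw [key, Nat.cast_zero, sh_zero]; exact h5⟩
    · rintro ⟨l, hl⟩
      apply h
      refine ⟨l + 1, ?_⟩
      rw [key] at hl ⊢
      rw [hl, sh_sh]
      push_cast
      rfl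

/-- the periodic sum of a path from `u` to `u + (n, -n)` has even degrees -/
lemma perS_vsum_path {n : ℕ} (hn : 1 ≤ n) {c : Edge → ZMod 2} (hc : {e | c e ≠ 0}.Finite)
    {u : Vert} (hv : ∀ V : Vert, vsum c V = (if V = u then 1 else 0) +
      (if V = sh n 1 u then 1 else 0)) (V : Vert) : vsum (perS n c) V = 0 := by
  classical
  rw [perS_vsum hn hc, finsum_congr (fun k => hv (sh n k V)),
    finsum_add_distrib (hfs_per hn _ _) (hfs_per hn _ _), finsum_ind_v hn, finsum_ind_v hn]
  have hiff : (∃ k : ℤ, sh n k V = u) ↔ ∃ k : ℤ, sh n k V = sh n 1 u := by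
    constructor
    · rintro ⟨k, hk⟩
      exact ⟨1 + k, by rw [← sh_sh, hk]⟩
    · rintro ⟨k, hk⟩
      exact ⟨-1 + k, by rw [← sh_sh, hk, sh_sh, show (-1 : ℤ) + 1 = 0 by ring, sh_zero]⟩
  simp only [hiff]
  exact Perc.z2_add_self _

lemma halfS_eq_zero {n : ℕ} {c : Edge → ZMod 2} {e : Edge}
    (h : ∀ k : ℕ, c (she n (-(k : ℤ)) e) = 0) : halfS n c e = 0 := by
  unfold halfS
  rw [finsum_congr h]
  exact finsum_zero

lemma perS_eq_zero {n : ℕ} {c : Edge → ZMod 2} {e : Edge}
    (h : ∀ k : ℤ, c (she n k e) = 0) : perS n c e = 0 := by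
  unfold perS
  rw [finsum_congr h]
  exact finsum_zero

lemma halfS_left {n : ℕ} {c : Edge → ZMod 2} {lo : ℤ} (hlo : ∀ e, c e ≠ 0 → lo ≤ e.1)
    {e : Edge} (he : e.1 < lo) : halfS n c e = 0 := by
  apply halfS_eq_zero
  intro k
  by_contra h
  have h1 := hlo _ h
  simp only [she] at h1
  have h2 : (0 : ℤ) ≤ (n : ℤ) * k := by positivity
  have h3 : (n : ℤ) * (-(k : ℤ)) = -((n : ℤ) * k) := by ring
  rw [h3] at h1
  linarith

lemma halfS_right {n : ℕ} {c : Edge → ZMod 2} {hi : ℤ}
    (hhi : ∀ e, c e ≠ 0 → e.1 ≤ hi) {e : Edge} (he : hi < e.1) : halfS n c e = perS n c e := by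
  unfold halfS perS
  have e1 : (∑ᶠ k : ℤ, c (she n k e)) = ∑ᶠ k : ℤ, c (she n (-k) e) := by
    rw [← finsum_comp_equiv (Equiv.neg ℤ) (f := fun k => c (she n k e))]
    rfl
  rw [e1]
  symm
  have hz : ∀ k : ℤ, k < 0 → c (she n (-k) e) = 0 := by
    intro k hk
    by_contra h
    have h1 := hhi _ h
    simp only [she] at h1
    have h2 : (0 : ℤ) ≤ (n : ℤ) * (-k) := mul_nonneg (by omega) (by omega)
    linarith
  rw [← finsum_mem_univ, ← finsum_mem_inter_support]
  have hset : (Set.univ ∩ Function.support fun k : ℤ => c (she n (-k) e)) =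
      (Set.range (fun k : ℕ => (k : ℤ)) ∩ Function.support fun k : ℤ => c (she n (-k) e)) := by
    ext k
    simp only [Set.mem_inter_iff, Set.mem_univ, true_and, Set.mem_range, Function.mem_support]
    constructor
    · intro h
      refine ⟨?_, h⟩
      have : 0 ≤ k := by
        by_contra hk
        exact h (hz k (by omega))
      exact ⟨k.toNat, by omega⟩
    · exact fun h => h.2
  rw [hset, finsum_mem_inter_support, finsum_mem_range]
  intro k l h
  simpa using h

/-- supports of the sums in the strip -/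
lemma halfS_strip {n : ℕ} {c : Edge → ZMod 2} {H : ℕ}
    (hs : ∀ e, c e ≠ 0 → -(H : ℤ) < e.1 + e.2.1 ∧ e.1 + e.2.1 + 1 < H) (e : Edge)
    (he : ¬ (-(H : ℤ) < e.1 + e.2.1 ∧ e.1 + e.2.1 + 1 < H)) : halfS n c e = 0 := by
  apply halfS_eq_zero
  intro k
  by_contra h
  have h1 := hs _ h
  have h2 : (she n (-(k : ℤ)) e).1 + (she n (-(k : ℤ)) e).2.1 = e.1 + e.2.1 := by
    simp only [she]; ring
  rw [h2] at h1
  exact he h1

lemma perS_strip {n : ℕ} {c : Edge → ZMod 2} {H : ℕ}
    (hs : ∀ e, c e ≠ 0 → -(H : ℤ) < e.1 + e.2.1 ∧ e.1 + e.2.1 + 1 < H) (e : Edge)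
    (he : ¬ (-(H : ℤ) < e.1 + e.2.1 ∧ e.1 + e.2.1 + 1 < H)) : perS n c e = 0 := by
  apply perS_eq_zero
  intro k
  by_contra h
  have h1 := hs _ h
  have h2 : (she n k e).1 + (she n k e).2.1 = e.1 + e.2.1 := by
    simp only [she]; ring
  rw [h2] at h1
  exact he h1

lemma pot_congr {A B : Edge → ZMod 2} {H : ℕ} {f : Vert}
    (h : ∀ j, A (f.1, j, false) = B (f.1, j, false)) : pot A H f = pot B H f := by
  unfold pot
  exact Finset.sum_congr rfl (fun j _ => h j)

lemma pot_zero {A : Edge → ZMod 2} {H : ℕ} {f : Vert}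
    (h : ∀ j, A (f.1, j, false) = 0) : pot A H f = 0 := by
  unfold pot
  exact Finset.sum_eq_zero (fun j _ => h j)

lemma pot_add {A B : Edge → ZMod 2} {H : ℕ} (f : Vert) :
    pot (fun e => A e + B e) H f = pot A H f + pot B H f := by
  unfold pot
  exact Finset.sum_add_distrib

/-- the potential of the periodic sum of a path from `0` to `(n, -n)` is `1` at the bottom -/
lemma bottom_one0 {n : ℕ} (hn : 1 ≤ n) {c : Edge → ZMod 2} (hc : {e | c e ≠ 0}.Finite) {H : ℕ}
    (hs : ∀ e, c e ≠ 0 → -(H : ℤ) < e.1 + e.2.1 ∧ e.1 + e.2.1 + 1 < H)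
    (hv : ∀ V : Vert, vsum c V = (if V = 0 then 1 else 0) +
      (if V = sh n 1 0 then 1 else 0)) (f : Vert) (hf : f.1 + f.2 + 1 = -(H : ℤ)) :
    pot (perS n c) H f = 1 := by
  obtain ⟨hi, hhi⟩ := (hc.image Prod.fst).bddAbove
  obtain ⟨lo, hlo⟩ := (hc.image Prod.fst).bddBelow
  have hhi' : ∀ e, c e ≠ 0 → e.1 ≤ hi := fun e he => hhi ⟨e, he, rfl⟩
  have hlo' : ∀ e, c e ≠ 0 → lo ≤ e.1 := fun e he => hlo ⟨e, he, rfl⟩
  have hpo := pot_odd (A := halfS n c) (H := H) (halfS_strip hs)
    (fun V hV => by rw [halfS_vsum_path hn hc hv, if_neg hV])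
    (by rw [halfS_vsum_path hn hc hv, if_pos rfl])
  set G := pot (halfS n c) H with hG
  have hA0 : ∀ e : Edge, e.1 + e.2.1 = -(H : ℤ) - 1 → halfS n c e = 0 := by
    intro e he
    exact halfS_strip hs e (by omega)
  have hstep : ∀ a : ℤ, G (a + 1, -(H : ℤ) - 1 - (a + 1)) = G (a, -(H : ℤ) - 1 - a) +
      if a + 1 = 0 then 1 else 0 := by
    intro a
    have e1 := hpo (a, -(H : ℤ) - 1 - a, false)
    rw [hA0 _ (by simp only; ring), zero_add, if_neg (by simp)] at e1
    have e1' : G (a, -(H : ℤ) - 1 - a - 1) + G (a, -(H : ℤ) - 1 - a) = 0 := e1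
    have e2 := hpo (a + 1, -(H : ℤ) - 1 - a - 1, true)
    rw [hA0 _ (by simp only; ring), zero_add] at e2
    have e2' : G (a + 1 - 1, -(H : ℤ) - 1 - a - 1) + G (a + 1, -(H : ℤ) - 1 - a - 1) =
        if a + 1 = 0 then 1 else 0 := by
      rw [show (if a + 1 = 0 then (1 : ZMod 2) else 0) =
        if (a + 1, -(H : ℤ) - 1 - a - 1, true).2.2 = true ∧
          (a + 1, -(H : ℤ) - 1 - a - 1, true).1 = 0 ∧
          (a + 1, -(H : ℤ) - 1 - a - 1, true).2.1 < 0 then 1 else 0 from ?_]
      · exact e2
      · by_cases ha : a + 1 = 0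
        · rw [if_pos ha, if_pos ⟨rfl, ha, by simp only; omega⟩]
        · rw [if_neg ha, if_neg (by rintro ⟨_, h2, _⟩; exact ha h2)]
    rw [show a + 1 - 1 = a by ring] at e2'
    rw [show -(H : ℤ) - 1 - (a + 1) = -(H : ℤ) - 1 - a - 1 by ring]
    have z1 := Perc.z2_add_self (G (a, -(H : ℤ) - 1 - a - 1))
    have z2 := Perc.z2_add_self (G (a, -(H : ℤ) - 1 - a))
    linear_combination e2' + e1' - z1 - z2
  -- value 0 on the left
  have hleft : ∀ a : ℤ, a < lo → G (a, -(H : ℤ) - 1 - a) = 0 := by
    intro a ha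
    rw [hG]
    exact pot_zero (fun j => halfS_left hlo' ha)
  have hneg : ∀ k : ℕ, ∀ a : ℤ, a < 0 → a < lo + k → G (a, -(H : ℤ) - 1 - a) = 0 := by
    intro k
    induction k with
    | zero => intro a _ h2; exact hleft a (by simpa using h2)
    | succ k ih =>
      intro a h1 h2
      have h3 := hstep (a - 1)
      rw [show a - 1 + 1 = a by ring, if_neg h1.ne, add_zero] at h3
      rw [h3]
      exact ih (a - 1) (by omega) (by push_cast at h2; omega)
  have hneg' : ∀ a : ℤ, a < 0 → G (a, -(H : ℤ) - 1 - a) = 0 := by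
    intro a ha
    exact hneg (a - lo + 1).toNat a ha (by omega)
  have hpos : ∀ k : ℕ, G ((k : ℤ), -(H : ℤ) - 1 - k) = 1 := by
    intro k
    induction k with
    | zero =>
      have h3 := hstep (-1)
      rw [show (-1 : ℤ) + 1 = 0 by ring, if_pos rfl, hneg' (-1) (by norm_num), zero_add] at h3
      exact h3
    | succ k ih =>
      have h3 := hstep k
      rw [if_neg (by omega), add_zero, ih] at h3
      push_cast
      exact h3
  -- compare with the periodic sum on a column far to the right
  set N : ℕ := (max hi 0).toNat + 1 with hN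
  have hNhi : hi < (N : ℤ) := by
    have := le_max_left hi 0
    have := le_max_right hi 0
    omega
  have h1 : pot (perS n c) H ((N : ℤ), -(H : ℤ) - 1 - N) = 1 := by
    rw [← hpos N, hG]
    exact pot_congr (fun j => (halfS_right hhi' hNhi).symm)
  have hpe := pot_even (A := perS n c) (H := H) (perS_strip hs) (perS_vsum_path hn hc hv)
  have hb := bot_const (G := pot (perS n c) H) H (by
    intro e he
    have h3 := hpe e
    rw [perS_strip hs e (by omega)] at h3
    exact Perc.z2_add_eq_zero.1 h3)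
  rw [hb f hf, ← hb ((N : ℤ), -(H : ℤ) - 1 - N) (by simp only; ring)]
  exact h1

/-- the same for a path from `(m, -m)` to `(m + n, -m - n)` -/
lemma bottom_one {n : ℕ} (hn : 1 ≤ n) {c : Edge → ZMod 2} (hc : {e | c e ≠ 0}.Finite) {H : ℕ}
    (hs : ∀ e, c e ≠ 0 → -(H : ℤ) < e.1 + e.2.1 ∧ e.1 + e.2.1 + 1 < H) (m : ℤ)
    (hv : ∀ V : Vert, vsum c V = (if V = (m, -m) then 1 else 0) +
      (if V = sh n 1 (m, -m) then 1 else 0)) (f : Vert) (hf : f.1 + f.2 + 1 = -(H : ℤ)) :
    pot (perS n c) H f = 1 := by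
  set T : Edge → Edge := fun e => (e.1 + m, e.2.1 - m, e.2.2) with hT
  have hTi : Function.Injective T := by
    rintro ⟨a, b, t⟩ ⟨a', b', t'⟩ h
    simp only [hT, Prod.mk.injEq] at h
    obtain ⟨h1, h2, h3⟩ := h
    ext
    · simp only; linarith
    · simp only; linarith
    · simp only; rw [h3]
  have hc0 : {e | c (T e) ≠ 0}.Finite := Set.Finite.preimage (f := T) (hTi.injOn) hc
  have hs0 : ∀ e, c (T e) ≠ 0 → -(H : ℤ) < e.1 + e.2.1 ∧ e.1 + e.2.1 + 1 < H := by
    intro e he
    have h1 := hs _ he
    simp only [hT] at h1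
    rw [show e.1 + m + (e.2.1 - m) = e.1 + e.2.1 by ring] at h1
    exact h1
  have hv0 : ∀ V : Vert, vsum (fun e => c (T e)) V = (if V = 0 then 1 else 0) +
      (if V = sh n 1 0 then 1 else 0) := by
    intro V
    have e1 : vsum (fun e => c (T e)) V = vsum c (V.1 + m, V.2 - m) := by
      unfold vsum
      simp only [hT]
      rw [show V.1 + m - 1 = V.1 - 1 + m by ring, show V.2 - m - 1 = V.2 - 1 - m by ring]
    rw [e1, hv]
    have h1 : ((V.1 + m, V.2 - m) : Vert) = (m, -m) ↔ V = 0 := by
      constructor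
      · intro h
        have h2 := congrArg Prod.fst h
        have h3 := congrArg Prod.snd h
        simp only at h2 h3
        ext
        · show V.1 = 0; linarith
        · show V.2 = 0; linarith
      · rintro rfl
        ext
        · show (0 : ℤ) + m = m; ring
        · show (0 : ℤ) - m = -m; ring
    have h2 : ((V.1 + m, V.2 - m) : Vert) = sh n 1 (m, -m) ↔ V = sh n 1 0 := by
      unfold sh
      constructor
      · intro h
        have h2 := congrArg Prod.fst h
        have h3 := congrArg Prod.snd h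
        simp only at h2 h3
        ext
        · show V.1 = 0 + n * 1; linarith
        · show V.2 = 0 - n * 1; linarith
      · rintro rfl
        ext
        · show (0 : ℤ) + n * 1 + m = m + n * 1; ring
        · show (0 : ℤ) - n * 1 - m = -m - n * 1; ring
    simp only [h1, h2]
  have h1 := bottom_one0 hn hc0 hs0 hv0 (f.1 - m, f.2 + m) (by simp only; linarith)
  rw [← h1]
  have hper : ∀ e, perS n (fun e => c (T e)) e = perS n c (T e) := by
    intro e
    unfold perS
    apply finsum_congr
    intro k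
    have e1 : T (she n k e) = she n k (T e) := by
      simp only [hT, she]
      ext
      · simp only; ring
      · simp only; ring
      · rfl
    show c (T (she n k e)) = _
    rw [e1]
  unfold pot
  symm
  apply Finset.sum_bij' (fun j _ => j - m) (fun j _ => j + m)
  · intro j hj
    rw [Finset.mem_Ioo] at hj ⊢
    constructor <;> linarith [hj.1, hj.2]
  · intro j hj
    rw [Finset.mem_Ioo] at hj ⊢
    constructor <;> linarith [hj.1, hj.2]
  · intro j _; ring
  · intro j _; ring
  · intro j _
    rw [hper]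
    show perS n c (f.1 - m + m, j - m, false) = perS n c (f.1, j - m, false)
    rw [sub_add_cancel]

/-- a periodic sequence in `ZMod 2` cannot be `0` on the left and `1` on the right -/
lemma no_period {r : ℤ → ZMod 2} {d r0 : ℤ} (hd : d ≠ 0) (h : ∀ m : ℤ, r (r0 + (m + 1) * d) = r (r0 + m * d))
    {A B : ℤ} (h0 : ∀ j, j ≤ A → r j = 0) (h1 : ∀ j, B ≤ j → r j = 1) : False := by
  have hconst : ∀ m : ℤ, r (r0 + m * d) = r r0 := by
    intro m
    induction m using Int.induction_on with
    | zero => simp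
    | succ m ih => rw [h]; exact ih
    | pred m ih =>
      have := h (-m - 1)
      rw [show (-(m : ℤ) - 1 + 1) = -m by ring] at this
      rw [← this]; exact ih
  -- choose `m` with `r0 + m d` very negative and very positive
  have hlow : ∃ m : ℤ, r0 + m * d ≤ A := by
    rcases lt_or_gt_of_ne hd with hd' | hd'
    · refine ⟨|r0| + |A|, ?_⟩
      have h2 : (|r0| + |A|) * d ≤ (|r0| + |A|) * (-1) :=
        mul_le_mul_of_nonneg_left (by omega) (by positivity)
      have h3 := le_abs_self r0
      have h4 := neg_abs_le A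
      linarith
    · refine ⟨-(|r0| + |A|), ?_⟩
      have h2 : (|r0| + |A|) * 1 ≤ (|r0| + |A|) * d :=
        mul_le_mul_of_nonneg_left (by omega) (by positivity)
      have h3 := le_abs_self r0
      have h4 := neg_abs_le A
      linarith
  have hhigh : ∃ m : ℤ, B ≤ r0 + m * d := by
    rcases lt_or_gt_of_ne hd with hd' | hd'
    · refine ⟨-(|r0| + |B|), ?_⟩
      have h2 : (|r0| + |B|) * d ≤ (|r0| + |B|) * (-1) :=
        mul_le_mul_of_nonneg_left (by omega) (by positivity)
      have h3 := neg_abs_le r0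
      have h4 := le_abs_self B
      linarith
    · refine ⟨|r0| + |B|, ?_⟩
      have h2 : (|r0| + |B|) * 1 ≤ (|r0| + |B|) * d :=
        mul_le_mul_of_nonneg_left (by omega) (by positivity)
      have h3 := neg_abs_le r0
      have h4 := le_abs_self B
      linarith
  obtain ⟨m1, hm1⟩ := hlow
  obtain ⟨m2, hm2⟩ := hhigh
  have e1 := hconst m1
  have e2 := hconst m2
  rw [h0 _ hm1] at e1
  rw [h1 _ hm2, ← e1] at e2
  exact absurd e2 (by decide)

/-- Data of a winding cluster: an open path from `u` to `u + (n, -n)` in the strip. -/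
lemma wind_data {n : ℕ} {ω : Config} {H : ℕ} (m : ℤ)
    (h : Perc.Conn (per n ω) (strip H) (m, -m) (sh n 1 (m, -m))) :
    ∃ c : Edge → ZMod 2, {e | c e ≠ 0}.Finite ∧
      (∀ e, c e ≠ 0 → -(H : ℤ) < e.1 + e.2.1 ∧ e.1 + e.2.1 + 1 < H) ∧
      (∀ V : Vert, vsum c V = (if V = (m, -m) then 1 else 0) +
        (if V = sh n 1 (m, -m) then 1 else 0)) ∧
      (∀ e, per n ω e = false → ∀ k : ℤ, c (she n k e) = 0) ∧
      (∀ e, perS n c e ≠ 0 → Perc.Conn (per n ω) Set.univ (m, -m) (src e) ∧
        Perc.Conn (per n ω) Set.univ (m, -m) (tgt e)) := by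
  set η := per n ω with hη
  have hu : Perc.Conn η Set.univ ((m, -m) : Vert) (sh n 1 (m, -m)) := h.mono_set (Set.subset_univ _)
  have hsh : ∀ k : ℤ, Perc.Conn η Set.univ ((m, -m) : Vert) (sh n k (m, -m)) := by
    intro k
    induction k using Int.induction_on with
    | zero => rw [sh_zero]; exact Perc.Conn.refl trivial
    | succ k ih =>
      have h1 := conn_sh n ω k hu
      rw [sh_sh] at h1
      exact ih.trans h1
    | pred k ih =>
      have h1 := conn_sh n ω (-(k : ℤ) - 1) hu
      rw [sh_sh, show -(k : ℤ) - 1 + 1 = -k by ring] at h1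
      exact ih.trans h1.symm
  have h' : Perc.Conn η (strip H ∩ {v | Perc.Conn η Set.univ ((m, -m) : Vert) v}) (m, -m)
      (sh n 1 (m, -m)) := by
    refine h.induction_right (P := fun x => Perc.Conn η (strip H ∩
      {v | Perc.Conn η Set.univ ((m, -m) : Vert) v}) (m, -m) x)
      (Perc.Conn.refl ⟨h.mem_left, Perc.Conn.refl trivial⟩) ?_
    intro a b _ hab ih
    refine ih.tail ⟨ih.mem_right, ⟨hab.2.1, ?_⟩, hab.2.2⟩
    have h1 : Perc.Conn η Set.univ ((m, -m) : Vert) a := ih.mem_right.2
    exact h1.tail ⟨trivial, trivial, hab.2.2⟩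
  obtain ⟨c, hc1, hc2, hc3⟩ := exists_pathSum h'
  refine ⟨c, hc2, ?_, hc3, ?_, ?_⟩
  · intro e he
    obtain ⟨_, h4, h5⟩ := hc1 _ he
    have h6 : -(H : ℤ) < e.1 + e.2.1 := by
      have := h4.1
      simp only [strip, Set.mem_ofPred_eq, src] at this
      exact this.1
    have h7 : e.1 + e.2.1 + 1 < H := by
      have := h5.1
      simp only [strip, Set.mem_ofPred_eq, tgt] at this
      split_ifs at this <;> simp only at this <;> omega
    exact ⟨h6, h7⟩
  · intro e h1 k
    by_contra h2
    have h3 := (hc1 _ h2).1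
    rw [hη, show she n k e = (e.1 + n * k, e.2.1 - n * k, e.2.2) from rfl, per_shift, ← hη,
      h1] at h3
    exact absurd h3 (by decide)
  · intro e he
    have h1 : ∃ k : ℤ, c (she n k e) ≠ 0 := by
      by_contra h2
      push Not at h2
      exact he (perS_eq_zero h2)
    obtain ⟨k, hk⟩ := h1
    obtain ⟨_, h4, h5⟩ := hc1 _ hk
    have h6 : Perc.Conn η Set.univ ((m, -m) : Vert) (src (she n k e)) := h4.2
    have h7 : Perc.Conn η Set.univ ((m, -m) : Vert) (tgt (she n k e)) := h5.2
    rw [src_she] at h6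
    rw [tgt_she] at h7
    have h8 := conn_sh n ω (-k) h6
    have h9 := conn_sh n ω (-k) h7
    rw [sh_sh n (-k) k, show -k + k = 0 by ring, sh_zero] at h8 h9
    exact ⟨(hsh (-k)).trans h8, (hsh (-k)).trans h9⟩

/-- A potential is constant around a cluster which carries no edge of its edge function. -/
lemma pot_cluster {η : Config} {A : Edge → ZMod 2} {G : Vert → ZMod 2}
    (hpot : ∀ e : Edge, G (lowFace e) + G (src e) = A e) {K : Vert → Prop}
    (hA : ∀ e, A e ≠ 0 → ¬ K (src e) ∧ ¬ K (tgt e)) {V : Vert} (hV : K V) :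
    G (V.1, V.2 - 1) = G V ∧ G (V.1 - 1, V.2) = G V ∧
      (∀ e, η e = true → src e = V → K (tgt e) → G (tgt e) = G V) := by
  have h1 : ∀ e, K (src e) ∨ K (tgt e) → G (lowFace e) = G (src e) := by
    intro e he
    have h2 := hpot e
    have h3 : A e = 0 := by
      by_contra h4
      obtain ⟨h5, h6⟩ := hA e h4
      rcases he with h7 | h7
      · exact h5 h7
      · exact h6 h7
    rw [h3] at h2
    exact Perc.z2_add_eq_zero.1 h2
  refine ⟨h1 (V.1, V.2, false) (Or.inl hV), h1 (V.1, V.2, true) (Or.inl hV), ?_⟩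
  rintro ⟨a, b, t⟩ _ hs ht
  rcases t with _ | _
  · -- tgt = (a + 1, b), use the edge (a+1, b, true)
    have h2 := h1 (a + 1, b, true) (Or.inl ht)
    have h3 : G (a + 1 - 1, b) = G (a + 1, b) := h2
    rw [show a + 1 - 1 = a by ring] at h3
    show G (a + 1, b) = G V
    rw [← h3, ← hs]
    rfl
  · have h2 := h1 (a, b + 1, false) (Or.inl ht)
    have h3 : G (a, b + 1 - 1) = G (a, b + 1) := h2
    rw [show b + 1 - 1 = b by ring] at h3
    show G (a, b + 1) = G V
    rw [← h3, ← hs]
    rfl

lemma pot_cluster_const {η : Config} {A : Edge → ZMod 2} {G : Vert → ZMod 2}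
    (hpot : ∀ e : Edge, G (lowFace e) + G (src e) = A e) {u : Vert}
    (hA : ∀ e, A e ≠ 0 → ¬ Perc.Conn η Set.univ u (src e) ∧ ¬ Perc.Conn η Set.univ u (tgt e))
    {V : Vert} (hV : Perc.Conn η Set.univ u V) : G V = G u := by
  refine hV.induction_right (P := fun x => G x = G u) rfl ?_
  rintro a b ha ⟨_, _, e, he, ho⟩ ih
  have hb : Perc.Conn η Set.univ u b := ha.tail ⟨trivial, trivial, e, he, ho⟩
  rcases he with ⟨h1, h2⟩ | ⟨h1, h2⟩
  · have := (pot_cluster (η := η) hpot (K := fun v => Perc.Conn η Set.univ u v) hA ha).2.2 e ho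
      h1.symm (by rw [← h2]; exact hb)
    rw [← ih, ← this, ← h2]
  · have := (pot_cluster (η := η) hpot (K := fun v => Perc.Conn η Set.univ u v) hA hb).2.2 e ho
      h2.symm (by rw [← h1]; exact ha)
    rw [← ih, ← this, ← h1]

theorem leg_of_wind (hL : L = 2 * n) (hn : 1 ≤ n) {s : Pat L} (hs : IsStar s) {h H : ℕ}
    (he : Even h) (hH : H ≤ h) (ω : Config) (hf : per n ω ∈ Fc2 n H) :
    Leg 2 2 (L - 2) (up s n h ω) (dn s n h ω) := by
  classical
  set η := per n ω with hη
  obtain ⟨hf1, hf2, hf3⟩ := hf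
  have hx1 : Perc.Conn η (strip H) ((0 : ℤ), -(0 : ℤ)) (sh n 1 ((0 : ℤ), -(0 : ℤ))) := by
    have : sh n 1 ((0 : ℤ), -(0 : ℤ)) = ((n : ℤ), -(n : ℤ)) := by
      unfold sh; ext <;> simp
    rw [this]
    exact hf1
  have hy1 : Perc.Conn η (strip H) ((1 : ℤ), -(1 : ℤ)) (sh n 1 ((1 : ℤ), -(1 : ℤ))) := by
    have : sh n 1 ((1 : ℤ), -(1 : ℤ)) = ((n : ℤ) + 1, -(n : ℤ) - 1) := by
      unfold sh; ext
      · simp only; ring
      · simp only; ring
    rw [this]
    exact hf2
  obtain ⟨cx, cxf, cxs, cxv, cxc, cxk⟩ := wind_data 0 hx1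
  obtain ⟨cy, cyf, cys, cyv, cyc, cyk⟩ := wind_data 1 hy1
  have hxx : ((0 : ℤ), -(0 : ℤ)) = xx := rfl
  have hyy : ((1 : ℤ), -(1 : ℤ)) = yy := rfl
  rw [hxx] at cxk
  rw [hyy] at cyk
  -- `H ≥ 2`
  have hH2 : 2 ≤ H := by
    by_contra hlt
    have hne : ∃ e, cx e ≠ 0 := by
      by_contra h0
      push Not at h0
      have h1 := cxv ((0 : ℤ), -(0 : ℤ))
      rw [if_pos rfl, if_neg] at h1
      · unfold vsum at h1
        simp only [h0] at h1
        exact absurd h1 (by decide)
      · intro h2
        have h3 := congrArg Prod.fst h2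
        simp only [sh] at h3
        omega
    obtain ⟨e, he1⟩ := hne
    have := cxs e he1
    omega
  -- full periodic potentials
  set Gx := pot (perS n cx) H with hGx
  set Gy := pot (perS n cy) H with hGy
  have hpx : ∀ e, Gx (lowFace e) + Gx (src e) = perS n cx e :=
    pot_even (perS_strip cxs) (perS_vsum_path hn cxf cxv)
  have hpy : ∀ e, Gy (lowFace e) + Gy (src e) = perS n cy e :=
    pot_even (perS_strip cys) (perS_vsum_path hn cyf cyv)
  have hAy : ∀ e, perS n cy e ≠ 0 → ¬ Perc.Conn η Set.univ xx (src e) ∧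
      ¬ Perc.Conn η Set.univ xx (tgt e) := by
    intro e h1
    obtain ⟨h2, h3⟩ := cyk e h1
    exact ⟨fun h4 => hf3 (h4.trans h2.symm), fun h4 => hf3 (h4.trans h3.symm)⟩
  have hAx : ∀ e, perS n cx e ≠ 0 → ¬ Perc.Conn η Set.univ yy (src e) ∧
      ¬ Perc.Conn η Set.univ yy (tgt e) := by
    intro e h1
    obtain ⟨h2, h3⟩ := cxk e h1
    exact ⟨fun h4 => hf3 (h2.trans h4.symm), fun h4 => hf3 (h3.trans h4.symm)⟩
  -- values at `q`
  have hgx : Gx (0, -1) = Gx yy :=
    (pot_cluster (η := η) hpx (K := fun v => Perc.Conn η Set.univ yy v) hAx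
      (Perc.Conn.refl trivial : Perc.Conn η Set.univ yy yy)).2.1
  have hgy : Gy (0, -1) = Gy xx :=
    (pot_cluster (η := η) hpy (K := fun v => Perc.Conn η Set.univ xx v) hAy
      (Perc.Conn.refl trivial : Perc.Conn η Set.univ xx xx)).1
  have hsum : Gx (0, -1) + Gy (0, -1) = 1 := by
    by_contra hne
    have hgg : Gx yy = Gy xx := by
      rw [hgx, hgy] at hne
      by_contra h2
      exact hne (Perc.z2_add_eq_one.2 h2)
    set g := Gx yy with hg
    have hR : ∀ j : ℤ, (Gx (0, j - 1) = 1 + g ∧ Gy (0, j - 1) = 1 + g) ↔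
        (Gx (0, j) = 1 + g ∧ Gy (0, j) = 1 + g) := by
      intro j
      have e1 : Gx (0, j - 1) + Gx (0, j) = perS n cx (0, j, false) := hpx (0, j, false)
      have e2 : Gy (0, j - 1) + Gy (0, j) = perS n cy (0, j, false) := hpy (0, j, false)
      have hg1 : g ≠ 1 + g := by
        intro h1
        have h2 : (1 : ZMod 2) = 0 := by linear_combination -h1
        exact absurd h2 (by decide)
      -- if the edge is in the x path, then Gy takes the value g on both sides
      have f1 : perS n cx (0, j, false) ≠ 0 → Gy (0, j - 1) = g ∧ Gy (0, j) = g := by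
        intro h1
        have h2 : Perc.Conn η Set.univ xx (0, j) := (cxk _ h1).1
        have h3 := pot_cluster_const hpy hAy h2
        have h4 := (pot_cluster (η := η) hpy (K := fun v => Perc.Conn η Set.univ xx v) hAy h2).1
        rw [h3, ← hgg] at h4
        rw [← hgg] at h3
        exact ⟨h4, h3⟩
      have f2 : perS n cy (0, j, false) ≠ 0 → Gx (0, j - 1) = g ∧ Gx (0, j) = g := by
        intro h1
        have h2 : Perc.Conn η Set.univ yy (0, j) := (cyk _ h1).1
        have h3 := pot_cluster_const hpx hAx h2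
        have h4 := (pot_cluster (η := η) hpx (K := fun v => Perc.Conn η Set.univ yy v) hAx h2).1
        rw [h3] at h4
        exact ⟨h4, h3⟩
      constructor
      · rintro ⟨h1, h2⟩
        have h3 : perS n cx (0, j, false) = 0 := by
          by_contra h4
          exact hg1 ((f1 h4).1.symm.trans h2)
        have h5 : perS n cy (0, j, false) = 0 := by
          by_contra h4
          exact hg1 ((f2 h4).1.symm.trans h1)
        rw [h3] at e1
        rw [h5] at e2
        rw [← Perc.z2_add_eq_zero.1 e1, ← Perc.z2_add_eq_zero.1 e2]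
        exact ⟨h1, h2⟩
      · rintro ⟨h1, h2⟩
        have h3 : perS n cx (0, j, false) = 0 := by
          by_contra h4
          exact hg1 ((f1 h4).2.symm.trans h2)
        have h5 : perS n cy (0, j, false) = 0 := by
          by_contra h4
          exact hg1 ((f2 h4).2.symm.trans h1)
        rw [h3] at e1
        rw [h5] at e2
        rw [Perc.z2_add_eq_zero.1 e1, Perc.z2_add_eq_zero.1 e2]
        exact ⟨h1, h2⟩
    have hRall : ∀ k : ℕ, (Gx (0, -(H : ℤ) - 1) = 1 + g ∧ Gy (0, -(H : ℤ) - 1) = 1 + g) ↔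
        (Gx (0, -(H : ℤ) - 1 + k) = 1 + g ∧ Gy (0, -(H : ℤ) - 1 + k) = 1 + g) := by
      intro k
      induction k with
      | zero => simp
      | succ k ih =>
        rw [ih]
        have := hR (-(H : ℤ) - 1 + (k + 1))
        rw [show -(H : ℤ) - 1 + (k + 1) - 1 = -(H : ℤ) - 1 + k by ring] at this
        push_cast
        exact this
    have hfin := hRall (2 * H + 1)
    have hb1 : Gx (0, -(H : ℤ) - 1) = 1 := bottom_one hn cxf cxs 0 cxv _ (by simp only; ring)
    have hb2 : Gy (0, -(H : ℤ) - 1) = 1 := bottom_one hn cyf cys 1 cyv _ (by simp only; ring)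
    have ht1 : Gx (0, -(H : ℤ) - 1 + ((2 * H + 1 : ℕ) : ℤ)) = 0 := by
      rw [hGx]
      apply pot_top
      simp only
      push_cast
      linarith
    have ht2 : Gy (0, -(H : ℤ) - 1 + ((2 * H + 1 : ℕ) : ℤ)) = 0 := by
      rw [hGy]
      apply pot_top
      simp only
      push_cast
      linarith
    rw [hb1, hb2, ht1, ht2] at hfin
    rcases (show g = 0 ∨ g = 1 by
      by_cases h0 : g = 0
      · exact Or.inl h0
      · exact Or.inr (Perc.z2_one_of_ne h0)) with h0 | h0
    · rw [h0] at hfin
      exact absurd (hfin.1 ⟨by decide, by decide⟩).1 (by decide)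
    · rw [h0] at hfin
      exact absurd (hfin.2 ⟨by decide, by decide⟩).1 (by decide)
  -- the half infinite path and its potential
  set g1 : Edge := (0, 0, false) with hg1
  set g2 : Edge := (1, -1, true) with hg2
  set A : Edge → ZMod 2 := fun e => ((halfS n cx e + halfS n cy e) + Perc.one g1 e) +
    Perc.one g2 e with hA
  have hAv : ∀ V, vsum A V = 0 := by
    intro V
    rw [hA, Perc.vsum_add, Perc.vsum_add, Perc.vsum_add, halfS_vsum_path hn cxf cxv,
      halfS_vsum_path hn cyf cyv, Perc.vsum_one, Perc.vsum_one]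
    have e1 : src g1 = ((0 : ℤ), -(0 : ℤ)) := rfl
    have e2 : tgt g1 = ((1 : ℤ), (0 : ℤ)) := rfl
    have e3 : src g2 = ((1 : ℤ), -(1 : ℤ)) := rfl
    have e4 : tgt g2 = ((1 : ℤ), (0 : ℤ)) := rfl
    rw [e1, e2, e3, e4]
    have z1 := Perc.z2_add_self (if V = ((0 : ℤ), -(0 : ℤ)) then (1 : ZMod 2) else 0)
    have z2 := Perc.z2_add_self (if V = ((1 : ℤ), (0 : ℤ)) then (1 : ZMod 2) else 0)
    have z3 := Perc.z2_add_self (if V = ((1 : ℤ), -(1 : ℤ)) then (1 : ZMod 2) else 0)
    linear_combination z1 + z2 + z3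
  have hAstrip : ∀ e : Edge, ¬ (-(H : ℤ) < e.1 + e.2.1 ∧ e.1 + e.2.1 + 1 < H) → A e = 0 := by
    intro e h1
    rw [hA]
    simp only
    rw [halfS_strip cxs e h1, halfS_strip cys e h1]
    have h2 : Perc.one g1 e = 0 := by
      unfold Perc.one
      rw [if_neg]
      rintro rfl
      rw [hg1] at h1
      simp only at h1
      omega
    have h3 : Perc.one g2 e = 0 := by
      unfold Perc.one
      rw [if_neg]
      rintro rfl
      rw [hg2] at h1
      simp only at h1
      omega
    rw [h2, h3]
    simp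
  have hAclosed : ∀ e, η e = false → A e = Perc.one g1 e + Perc.one g2 e := by
    intro e h1
    rw [hA]
    simp only
    rw [halfS_eq_zero (fun k => cxc e h1 _), halfS_eq_zero (fun k => cyc e h1 _)]
    ring
  have hpA := pot_even hAstrip hAv
  set P := pot A H with hP
  set Pu : Vert → ZMod 2 := fun f => P f + if f = (0, -1) then 1 else 0 with hPu
  have hu : ∀ e : Edge, 0 ≤ e.1 + e.2.1 → η e = false → Pu (lowFace e) = Pu (src e) := by
    intro e h1 h2
    have h3 := hpA e
    rw [hAclosed e h2] at h3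
    have hsrc : src e ≠ (0, -1) := by
      intro h4
      have h5 : e.1 = 0 := congrArg Prod.fst h4
      have h6 : e.2.1 = -1 := congrArg Prod.snd h4
      omega
    have hlow : (Perc.one g1 e + Perc.one g2 e : ZMod 2) = if lowFace e = (0, -1) then 1 else 0 := by
      obtain ⟨a, b, t⟩ := e
      rcases t with _ | _
      · have h4 : lowFace (a, b, false) = (a, b - 1) := rfl
        have h5 : Perc.one g2 (a, b, false) = 0 := by
          unfold Perc.one
          rw [if_neg]
          intro h6
          have h7 : false = true := congrArg (fun x : Edge => x.2.2) h6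
          exact absurd h7 (by decide)
        rw [h4, h5, add_zero]
        unfold Perc.one
        by_cases h6 : (a, b, false) = g1
        · have h7 : a = 0 := congrArg Prod.fst h6
          have h8 : b = 0 := congrArg (fun x : Edge => x.2.1) h6
          rw [if_pos h6, if_pos (by rw [h7, h8]; rfl)]
        · rw [if_neg h6, if_neg]
          intro h7
          apply h6
          have h8 : a = 0 := congrArg Prod.fst h7
          have h9 : b - 1 = -1 := congrArg Prod.snd h7
          have h10 : b = 0 := by omega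
          rw [h8, h10]
      · have h4 : lowFace (a, b, true) = (a - 1, b) := rfl
        have h5 : Perc.one g1 (a, b, true) = 0 := by
          unfold Perc.one
          rw [if_neg]
          intro h6
          have h7 : true = false := congrArg (fun x : Edge => x.2.2) h6
          exact absurd h7 (by decide)
        rw [h4, h5, zero_add]
        unfold Perc.one
        by_cases h6 : (a, b, true) = g2
        · have h7 : a = 1 := congrArg Prod.fst h6
          have h8 : b = -1 := congrArg (fun x : Edge => x.2.1) h6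
          rw [if_pos h6, if_pos (by rw [h7, h8]; rfl)]
        · rw [if_neg h6, if_neg]
          intro h7
          apply h6
          have h8 : a - 1 = 0 := congrArg Prod.fst h7
          have h9 : b = -1 := congrArg Prod.snd h7
          have h10 : a = 1 := by omega
          rw [h9, h10]
    rw [hPu]
    simp only
    rw [if_neg hsrc, add_zero]
    rw [hlow] at h3
    by_cases hq : lowFace e = (0, -1)
    · rw [if_pos hq] at h3 ⊢
      have z1 := Perc.z2_add_self (1 : ZMod 2)
      have z2 := Perc.z2_add_self (P (src e))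
      linear_combination h3 + z1 - z2
    · rw [if_neg hq] at h3 ⊢
      rw [add_zero]
      exact Perc.z2_add_eq_zero.1 h3
  have hd : ∀ e : Edge, e.1 + e.2.1 < 0 → η e = false → P (lowFace e) = P (src e) := by
    intro e h1 h2
    have h3 := hpA e
    rw [hAclosed e h2] at h3
    have h4 : Perc.one g1 e = 0 := by
      unfold Perc.one
      rw [if_neg]
      rintro rfl
      rw [hg1] at h1
      simp only at h1
      omega
    have h5 : Perc.one g2 e = 0 := by
      unfold Perc.one
      rw [if_neg]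
      rintro rfl
      rw [hg2] at h1
      simp only at h1
      omega
    rw [h4, h5, add_zero] at h3
    exact Perc.z2_add_eq_zero.1 h3
  have hupD := up_dual hL hs he ω (G := Pu) (fun e h1 _ h2 => hu e h1 h2) 0 (by
    intro f hf4
    rw [hPu]
    simp only
    rw [hP, pot_top A H (by omega), if_neg, add_zero]
    intro h4
    have h5 : f.1 = 0 := congrArg Prod.fst h4
    have h6 : f.2 = -1 := congrArg Prod.snd h4
    omega)
  have hdnD := dn_dual hL hs he ω (G := P) (fun e _ h1 h2 => hd e h1 h2) (P (0, -(h : ℤ) - 1))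
    (bot_const h (by
      intro e h1
      have h3 := hpA e
      rw [hAstrip e (by omega)] at h3
      exact Perc.z2_add_eq_zero.1 h3))
  -- primal colours
  set F : Vert → Set Vert := fun v => {u | Perc.Conn η Set.univ v u} with hF
  have hFc : ∀ e : Edge, η e = true → F (src e) = F (tgt e) := by
    intro e ho
    have hst : Perc.Conn η Set.univ (src e) (tgt e) :=
      Perc.Step.conn ⟨trivial, trivial, e, Perc.joins_src_tgt e, ho⟩
    ext u
    exact ⟨fun h1 => hst.symm.trans h1, fun h1 => hst.trans h1⟩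
  have hupP := up_primal hL hs he ω (F := F) (fun e _ _ ho => hFc e ho)
  have hdnP := dn_primal hL hs he ω (F := F) (fun e _ _ ho => hFc e ho)
  have hFeq : ∀ v w, F v = F w → Perc.Conn η Set.univ v w := by
    intro v w hvw
    have : w ∈ F w := Perc.Conn.refl trivial
    rw [← hvw] at this
    exact this
  -- colours of the nodes, translated by `k` periods
  set col : ℤ → ℤ ⊕ ℤ → ZMod 2 := fun k => Sum.elim (fun x => Pu (dv (x - L * k)))
    (fun y => P (dv (y - L * k))) with hcol
  set prim : ℤ ⊕ ℤ → Set Vert := Sum.elim (fun x => F (pv x)) (fun y => F (pv y)) with hprim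
  have hshiftm : ∀ (Q : Pat L) (x k : ℤ), Q.m x - L * k = Q.m (x - L * k) := by
    intro Q x k
    have := Q.per_mul (x - L * k) k
    rw [sub_add_cancel] at this
    linarith
  have hcolS : ∀ k x y, Step 2 2 (L - 2) (up s n h ω) (dn s n h ω) x y → col k x = col k y := by
    intro k x y hxy1
    cases hxy1 with
    | top x =>
      show Pu (dv (x - L * k)) = Pu (dv ((up s n h ω).m x - L * k))
      rw [hshiftm]
      exact (hupD _).symm
    | bot y =>
      show P (dv (y - L * k)) = P (dv ((dn s n h ω).m y - L * k))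
      rw [hshiftm]
      exact (hdnD _).symm
    | glue a j hj =>
      show Pu (dv _) = P (dv _)
      rw [hPu]
      simp only
      rw [if_neg, add_zero]
      intro hk
      have h4 : (((2 : ℕ) : ℤ) + j + L * a - L * k) / 2 = 0 := congrArg Prod.fst hk
      have h5 : (((2 : ℕ) : ℤ) + j + L * a - L * k) / 2 = 1 + (j : ℤ) / 2 + n * (a - k) := by
        subst hL
        have : ((2 : ℕ) : ℤ) + j + ((2 * n : ℕ) : ℤ) * a - ((2 * n : ℕ) : ℤ) * k =
            (j : ℤ) + (1 + n * (a - k)) * 2 := by
          push_cast; ring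
        rw [this, Int.add_mul_ediv_right _ _ (by norm_num)]
        ring
      have h6 : 1 + (j : ℤ) / 2 = n * (k - a) := by linarith
      have h7 : (0 : ℤ) < 1 + (j : ℤ) / 2 := by omega
      have h8 : 1 + (j : ℤ) / 2 < n := by omega
      have h9 : 0 < k - a := by
        by_contra hlt
        have : (n : ℤ) * (k - a) ≤ n * 0 := mul_le_mul_of_nonneg_left (by omega) (by omega)
        omega
      have h10 : (n : ℤ) * 1 ≤ n * (k - a) := mul_le_mul_of_nonneg_left (by omega) (by omega)
      omega
  have hprimS : ∀ x y, Step 2 2 (L - 2) (up s n h ω) (dn s n h ω) x y → prim x = prim y := by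
    intro x y hxy1
    cases hxy1 with
    | top x => exact (hupP x).symm
    | bot y => exact (hdnP y).symm
    | glue a j hj => rfl
  -- the sequence `p`
  set p : ℤ → ZMod 2 := fun a => P (sh n a (0, -1)) with hp
  have hdvh : ∀ (t : Fin 2) (a k : ℤ), dv ((t : ℕ) + L * a - L * k) = sh n (a - k) (0, -1) := by
    intro t a k
    have ht := t.isLt
    have h1 : (((t : ℕ) : ℤ) + L * a - L * k) / 2 = n * (a - k) := by
      subst hL
      have : ((t : ℕ) : ℤ) + ((2 * n : ℕ) : ℤ) * a - ((2 * n : ℕ) : ℤ) * k =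
          ((t : ℕ) : ℤ) + (n * (a - k)) * 2 := by
        push_cast; ring
      rw [this, Int.add_mul_ediv_right _ _ (by norm_num)]
      omega
    unfold dv sh
    rw [h1]
    ext <;> simp only <;> ring
  have hshq : ∀ a : ℤ, sh n a ((0 : ℤ), (-1 : ℤ)) = (0, -1) ↔ a = 0 := by
    intro a
    constructor
    · intro h1
      have h2 : (fun k : ℤ => sh n k ((0 : ℤ), (-1 : ℤ))) a =
          (fun k : ℤ => sh n k ((0 : ℤ), (-1 : ℤ))) 0 := by
        simp only [sh_zero]; exact h1
      exact sh_inj hn _ h2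
    · rintro rfl
      exact sh_zero _ _
  have hcolt : ∀ (t : Fin 2) (a k : ℤ), col k (Sum.inl ((t : ℕ) + L * a)) =
      p (a - k) + if a - k = 0 then 1 else 0 := by
    intro t a k
    show Pu (dv _) = _
    rw [hdvh, hPu]
    simp only [hshq, hp]
  have hcolb : ∀ (t : Fin 2) (a k : ℤ), col k (Sum.inr ((t : ℕ) + L * a)) = p (a - k) := by
    intro t a k
    show P (dv _) = _
    rw [hdvh]
  -- the limits of `p`
  have hbound : ∃ A0 B0 : ℤ, A0 < 0 ∧ 0 < B0 ∧ (∀ j, j ≤ A0 → p j = 0) ∧ ∀ j, B0 ≤ j → p j = 1 := by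
    obtain ⟨hix, hhix⟩ := (cxf.image Prod.fst).bddAbove
    obtain ⟨lox, hlox⟩ := (cxf.image Prod.fst).bddBelow
    obtain ⟨hiy, hhiy⟩ := (cyf.image Prod.fst).bddAbove
    obtain ⟨loy, hloy⟩ := (cyf.image Prod.fst).bddBelow
    have bx1 : ∀ e, cx e ≠ 0 → e.1 ≤ hix := fun e he => hhix ⟨e, he, rfl⟩
    have bx2 : ∀ e, cx e ≠ 0 → lox ≤ e.1 := fun e he => hlox ⟨e, he, rfl⟩
    have by1 : ∀ e, cy e ≠ 0 → e.1 ≤ hiy := fun e he => hhiy ⟨e, he, rfl⟩
    have by2 : ∀ e, cy e ≠ 0 → loy ≤ e.1 := fun e he => hloy ⟨e, he, rfl⟩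
    refine ⟨-(|lox| + |loy| + 1), |hix| + |hiy| + 2, ?_, ?_, ?_, ?_⟩
    · have := abs_nonneg lox
      have := abs_nonneg loy
      linarith
    · have := abs_nonneg hix
      have := abs_nonneg hiy
      linarith
    · intro j hj
      have h1 : (n : ℤ) * j ≤ j := by
        have h2 : (n : ℤ) * (-j) ≥ 1 * (-j) := by
          apply mul_le_mul_of_nonneg_right (by omega)
          have := abs_nonneg lox
          have := abs_nonneg loy
          linarith
        linarith
      have hl1 := neg_abs_le lox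
      have hl2 := neg_abs_le loy
      have h3 := abs_nonneg lox
      have h4 := abs_nonneg loy
      rw [hp]
      simp only
      rw [hP]
      apply pot_zero
      intro i
      have h5 : (sh n j ((0 : ℤ), (-1 : ℤ))).1 = n * j := by simp [sh]
      rw [h5, hA]
      simp only
      rw [halfS_left bx2 (by simp only; linarith), halfS_left by2 (by simp only; linarith)]
      have h6 : Perc.one g1 ((n : ℤ) * j, i, false) = 0 := by
        unfold Perc.one
        rw [if_neg]
        intro h7
        have h8 : (n : ℤ) * j = 0 := congrArg Prod.fst h7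
        linarith
      have h7 : Perc.one g2 ((n : ℤ) * j, i, false) = 0 := by
        unfold Perc.one
        rw [if_neg]
        intro h7
        have h8 : false = true := congrArg (fun x : Edge => x.2.2) h7
        exact absurd h8 (by decide)
      rw [h6, h7]
      simp
    · intro j hj
      have h1 : j ≤ (n : ℤ) * j := by
        have h2 : (n : ℤ) * j ≥ 1 * j := by
          apply mul_le_mul_of_nonneg_right (by omega)
          have := abs_nonneg hix
          have := abs_nonneg hiy
          linarith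
        linarith
      have hl1 := le_abs_self hix
      have hl2 := le_abs_self hiy
      have h3 := abs_nonneg hix
      have h4 := abs_nonneg hiy
      have h5 : (sh n j ((0 : ℤ), (-1 : ℤ))).1 = n * j := by simp [sh]
      have h8 : P (sh n j (0, -1)) = Gx (sh n j (0, -1)) + Gy (sh n j (0, -1)) := by
        rw [hP, hGx, hGy, ← pot_add]
        apply pot_congr
        intro i
        rw [h5, hA]
        simp only
        rw [halfS_right bx1 (by simp only; linarith), halfS_right by1 (by simp only; linarith)]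
        have h6 : Perc.one g1 ((n : ℤ) * j, i, false) = 0 := by
          unfold Perc.one
          rw [if_neg]
          intro h7
          have h8 : (n : ℤ) * j = 0 := congrArg Prod.fst h7
          linarith
        have h7 : Perc.one g2 ((n : ℤ) * j, i, false) = 0 := by
          unfold Perc.one
          rw [if_neg]
          intro h7
          have h8 : false = true := congrArg (fun x : Edge => x.2.2) h7
          exact absurd h8 (by decide)
        rw [h6, h7]
        simp
      rw [hp]
      simp only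
      rw [h8, hGx, hGy, pot_sh (fun e k => perS_per n cx k e), pot_sh (fun e k => perS_per n cy k e)]
      exact hsum
  obtain ⟨A0, B0, hA0, hB0, hp0, hp1⟩ := hbound
  -- primal separation of the two strands
  have hpv0 : ∀ a : ℤ, pv (((0 : Fin 2) : ℕ) + L * a) = sh n a xx := by
    intro a
    have h1 : ((((0 : Fin 2) : ℕ) : ℤ) + L * a + 1) / 2 = n * a := by
      subst hL
      have : (((0 : Fin 2) : ℕ) : ℤ) + ((2 * n : ℕ) : ℤ) * a + 1 = 1 + (n * a) * 2 := by
        push_cast; simp; ring
      rw [this, Int.add_mul_ediv_right _ _ (by norm_num)]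
      norm_num
    unfold pv sh xx
    rw [h1]
    ext <;> simp only <;> ring
  have hpv1 : ∀ a : ℤ, pv (((1 : Fin 2) : ℕ) + L * a) = sh n a yy := by
    intro a
    have h1 : ((((1 : Fin 2) : ℕ) : ℤ) + L * a + 1) / 2 = 1 + n * a := by
      subst hL
      have : (((1 : Fin 2) : ℕ) : ℤ) + ((2 * n : ℕ) : ℤ) * a + 1 = 0 + (1 + n * a) * 2 := by
        push_cast; simp; ring
      rw [this, Int.add_mul_ediv_right _ _ (by norm_num)]
      norm_num
    unfold pv sh yy
    rw [h1]
    ext <;> simp only
    ring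
  have hxsh : ∀ k : ℤ, Perc.Conn η Set.univ xx (sh n k xx) := by
    have hu1 : Perc.Conn η Set.univ xx (sh n 1 xx) := hx1.mono_set (Set.subset_univ _)
    intro k
    induction k using Int.induction_on with
    | zero => rw [sh_zero]; exact Perc.Conn.refl trivial
    | succ k ih =>
      have h1 := conn_sh n ω k hu1
      rw [sh_sh] at h1
      exact ih.trans h1
    | pred k ih =>
      have h1 := conn_sh n ω (-(k : ℤ) - 1) hu1
      rw [sh_sh, show -(k : ℤ) - 1 + 1 = -k by ring] at h1
      exact ih.trans h1.symm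
  have hysh : ∀ k : ℤ, Perc.Conn η Set.univ yy (sh n k yy) := by
    have hu1 : Perc.Conn η Set.univ yy (sh n 1 yy) := hy1.mono_set (Set.subset_univ _)
    intro k
    induction k using Int.induction_on with
    | zero => rw [sh_zero]; exact Perc.Conn.refl trivial
    | succ k ih =>
      have h1 := conn_sh n ω k hu1
      rw [sh_sh] at h1
      exact ih.trans h1
    | pred k ih =>
      have h1 := conn_sh n ω (-(k : ℤ) - 1) hu1
      rw [sh_sh, show -(k : ℤ) - 1 + 1 = -k by ring] at h1
      exact ih.trans h1.symm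
  have hsep : ∀ (t t' : Fin 2) (a b : ℤ), F (pv ((t : ℕ) + L * a)) = F (pv ((t' : ℕ) + L * b)) →
      t = t' := by
    intro t t' a b hFF
    have h1 := hFeq _ _ hFF
    rcases (by fin_cases t <;> simp : t = 0 ∨ t = 1) with rfl | rfl <;>
    rcases (by fin_cases t' <;> simp : t' = 0 ∨ t' = 1) with rfl | rfl
    · rfl
    · exfalso
      rw [hpv0, hpv1] at h1
      exact hf3 (((hxsh a).trans h1).trans (hysh b).symm)
    · exfalso
      rw [hpv0, hpv1] at h1
      exact hf3 (((hxsh b).trans h1.symm).trans (hysh a).symm)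
    · rfl
  -- invariance of the colours under a connection
  intro u v a b hconn
  have hcc : ∀ k : ℤ, col k (hpos L L 2 2 u a) = col k (hpos L L 2 2 v b) :=
    fun k => comp_const (hcolS k) hconn
  have hpp := comp_const hprimS hconn
  by_cases hab : a = b
  · -- same sheet
    subst hab
    rcases u with t | t <;> rcases v with t' | t'
    · left; exact ⟨by rw [hsep t t' a a hpp], rfl⟩
    · exfalso
      have h1 := hcc a
      have e1 : col a (hpos L L 2 2 (Sum.inl t) a) = p (a - a) + if a - a = 0 then 1 else 0 :=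
        hcolt t a a
      have e2 : col a (hpos L L 2 2 (Sum.inr t') a) = p (a - a) := hcolb t' a a
      rw [e1, e2, if_pos (sub_self a)] at h1
      have h2 : (1 : ZMod 2) = 0 := by linear_combination h1
      exact absurd h2 (by decide)
    · exfalso
      have h1 := hcc a
      have e1 : col a (hpos L L 2 2 (Sum.inl t') a) = p (a - a) + if a - a = 0 then 1 else 0 :=
        hcolt t' a a
      have e2 : col a (hpos L L 2 2 (Sum.inr t) a) = p (a - a) := hcolb t a a
      rw [e1, e2, if_pos (sub_self a)] at h1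
      have h2 : (1 : ZMod 2) = 0 := by linear_combination -h1
      exact absurd h2 (by decide)
    · left; exact ⟨by rw [hsep t t' a a hpp], rfl⟩
  · have hd0 : b - a ≠ 0 := fun h1 => hab (by linarith)
    -- relation between top and bottom
    have hkeyodd : ∀ d : ℤ, d ≠ 0 → (∀ j : ℤ, p j + (if j = 0 then 1 else 0) = p (j + d)) →
        Odd d := by
      intro d hd1 hrel
      by_contra hodd
      have habs : ∀ m : ℤ, 1 + m * d ≠ 0 := by
        intro m h1
        apply hodd
        have h2 : d * (-m) = 1 := by linarith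
        have h3 : d ∣ 1 := ⟨-m, h2.symm⟩
        rcases Int.isUnit_iff.1 (isUnit_of_dvd_one h3) with h4 | h4
        · rw [h4]; exact ⟨0, by norm_num⟩
        · rw [h4]; exact ⟨-1, by norm_num⟩
      apply no_period (r := p) (r0 := 1) hd1 _ hp0 hp1
      intro m
      have h1 := hrel (1 + m * d)
      rw [if_neg (habs m), add_zero] at h1
      rw [h1]
      congr 1
      ring
    rcases u with t | t <;> rcases v with t' | t'
    · exfalso
      have hrel : ∀ j : ℤ, p j + (if j = 0 then 1 else 0) =
          p (j + (b - a)) + if j + (b - a) = 0 then 1 else 0 := by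
        intro j
        have h1 := hcc (a - j)
        have e1 : col (a - j) (hpos L L 2 2 (Sum.inl t) a) =
            p (a - (a - j)) + if a - (a - j) = 0 then 1 else 0 := hcolt t a (a - j)
        have e2 : col (a - j) (hpos L L 2 2 (Sum.inl t') b) =
            p (b - (a - j)) + if b - (a - j) = 0 then 1 else 0 := hcolt t' b (a - j)
        rw [e1, e2, show a - (a - j) = j by ring, show b - (a - j) = j + (b - a) by ring] at h1
        exact h1
      apply no_period (r := fun j => p j + if j = 0 then 1 else 0) (r0 := 0) hd0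
        (A := A0) (B := B0)
      · intro m
        have h1 := hrel (0 + m * (b - a))
        rw [show 0 + (m + 1) * (b - a) = 0 + m * (b - a) + (b - a) by ring]
        exact h1.symm
      · intro j hj
        rw [hp0 j hj, if_neg (by omega), add_zero]
      · intro j hj
        rw [hp1 j hj, if_neg (by omega), add_zero]
    · right
      apply hkeyodd _ hd0
      intro j
      have h1 := hcc (a - j)
      have e1 : col (a - j) (hpos L L 2 2 (Sum.inl t) a) =
          p (a - (a - j)) + if a - (a - j) = 0 then 1 else 0 := hcolt t a (a - j)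
      have e2 : col (a - j) (hpos L L 2 2 (Sum.inr t') b) = p (b - (a - j)) :=
        hcolb t' b (a - j)
      rw [e1, e2, show a - (a - j) = j by ring, show b - (a - j) = j + (b - a) by ring] at h1
      exact h1
    · right
      have h0 : Odd (a - b) := by
        apply hkeyodd _ (fun h1 => hab (by linarith))
        intro j
        have h1 := hcc (b - j)
        have e1 : col (b - j) (hpos L L 2 2 (Sum.inl t') b) =
            p (b - (b - j)) + if b - (b - j) = 0 then 1 else 0 := hcolt t' b (b - j)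
        have e2 : col (b - j) (hpos L L 2 2 (Sum.inr t) a) = p (a - (b - j)) :=
          hcolb t a (b - j)
        rw [e1, e2, show b - (b - j) = j by ring, show a - (b - j) = j + (a - b) by ring] at h1
        exact h1.symm
      have h2 : b - a = -(a - b) := by ring
      rw [h2]
      exact h0.neg
    · exfalso
      apply no_period (r := p) (r0 := 0) hd0 _ hp0 hp1
      intro m
      have h1 := hcc (a - (0 + m * (b - a)))
      have e1 : col (a - (0 + m * (b - a))) (hpos L L 2 2 (Sum.inr t) a) =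
          p (a - (a - (0 + m * (b - a)))) := hcolb t a _
      have e2 : col (a - (0 + m * (b - a))) (hpos L L 2 2 (Sum.inr t') b) =
          p (b - (a - (0 + m * (b - a)))) := hcolb t' b _
      rw [e1, e2, show a - (a - (0 + m * (b - a))) = 0 + m * (b - a) by ring,
        show b - (a - (0 + m * (b - a))) = 0 + (m + 1) * (b - a) by ring] at h1
      exact h1.symm

theorem leg_of_fc2 (hL : L = 2 * n) (hn : 2 ≤ n) {s : Pat L} (hs : IsStar s) {h H : ℕ}
    (he : Even h) (hH : H ≤ h) (ω : Config) (hf : per n ω ∈ Fc2 n H) :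
    Leg 2 2 (L - 2) (up s n h ω) (dn s n h ω) :=
  leg_of_wind hL (by omega) hs he hH ω hf

/-- The limit of real numbers in `ℂ` is real. -/
private lemma real_limit' {a : ℕ → ℝ} {z : ℂ} (h : Tendsto (fun n => (a n : ℂ)) atTop (𝓝 z)) :
    ∃ g : ℝ, (g : ℂ) = z ∧ Tendsto a atTop (𝓝 g) := by
  have h1 : Tendsto a atTop (𝓝 z.re) := by
    have := (Complex.continuous_re.tendsto z).comp h
    simpa [Function.comp_def] using this
  have h2 : Tendsto (fun n => (a n : ℂ)) atTop (𝓝 (z.re : ℂ)) :=
    (Complex.continuous_ofReal.tendsto z.re).comp h1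
  exact ⟨z.re, tendsto_nhds_unique h2 h, h1⟩

private lemma pr_mono' {A B : Set Config} (h : A ⊆ B) : Pr half A ≤ Pr half B :=
  measureReal_mono h

open Classical in
/-- **Four arms**, with both lower bounds. -/
theorem link_four2 (hL : L = 2 * n) (hn : 2 ≤ n) {v : Pat L → ℂ} (hv : Stat v) (hS : ∑ P, v P ≠ 0) :
    ∃ g : ℝ, (g : ℂ) = legSum 2 2 (L - 2) v v / (∑ P, v P) ^ 2 ∧
      (∀ k : ℕ, 1 ≤ k → 2 * k < n → k + 2 < n → g ≤ Pr half (FourD k)) ∧
      (∀ H : ℕ, Pr half {ω | per n ω ∈ Fc n H} ≤ g) ∧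
      ∀ H : ℕ, Pr half {ω | per n ω ∈ Fc2 n H} ≤ g := by
  obtain ⟨s, hs⟩ := exists_star hL (by omega : 1 ≤ n)
  have hT := pr_tendsto hL (by omega : 1 ≤ n) hs hv hS
    {PQ : Pat L × Pat L | Leg 2 2 (L - 2) PQ.1 PQ.2}
  obtain ⟨g, hg, ht⟩ := real_limit' hT
  refine ⟨g, ?_, ?_, ?_, ?_⟩
  · rw [hg]
    rfl
  · intro k hk1 hk2 hk3
    refine le_of_tendsto ht ?_
    filter_upwards [eventually_ge_atTop (2 * k + 2)] with h hh
    rw [← pr_per_fourD half hk2]
    refine pr_mono' fun ω hω => ?_
    exact fourD_of_leg hL hs (even_two_mul h) hk1 hk3 (by omega) ω hω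
  · intro H
    refine ge_of_tendsto ht ?_
    filter_upwards [eventually_ge_atTop H] with h hh
    refine pr_mono' fun ω hω => ?_
    exact leg_of_fc hL hn hs (even_two_mul h) (by omega) ω hω
  · intro H
    refine ge_of_tendsto ht ?_
    filter_upwards [eventually_ge_atTop H] with h hh
    refine pr_mono' fun ω hω => ?_
    exact leg_of_fc2 hL hn hs (even_two_mul h) (by omega) ω hω

end Pool.Agent.H89.Link
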