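import Pool.Agent.H89.Link.Half

/-!
# LINK module `Face`: colourings of primal or dual vertices give invariants of the patterns

`F : Vert → T` constant along the open edges of the rows `0, …, h - 1` (of `per n ω`) gives a colour of
the medial edges: the colour of the adjacent primal vertex.  In medial coordinates the face `(c, r)`
(between the columns `c, c + 1`, at level `r`) is primal iff `c + r` is odd and is then the vertex
`((c + r + 1) / 2, (r - c - 1) / 2)`.  Put (primal colouring)
  `K c r = F ((c + r + 1) / 2, (r - c - 1) / 2)`,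
  `V c r = if (c + r) % 2 = 1 then K c r else K (c - 1) r`   (vertical edge in column `c` at level `r`),
  `H c r = if (c + r) % 2 = 1 then K c r else K c (r + 1)`   (horizontal edge from `(c, r)` to `(c + 1, r)`).
Then `RowCol (tB (per n ω) · r) (V · (r + 1)) (H · r) (V · r)`:
* `c + r` even: `medge c r = (a, b, false)`, `a = (c + r) / 2`, `b = (r - c) / 2`; South-West face
  `(c - 1, r)` = `src`, North-East face `(c, r + 1)` = `tgt`; `V c r = K (c-1) r`, `V c (r+1) = K c (r+1)`,
  `H c r = K c (r+1)`, `H (c-1) r = K (c-1) r`; `tB = true` iff the edge is open.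
* `c + r` odd: `medge c r = (a, b, true)`, `a = (c + r + 1) / 2`, `b = (r - c - 1) / 2`; South-East face
  `(c, r)` = `src`, North-West face `(c - 1, r + 1)` = `tgt`; `V c r = K c r = H c r`,
  `V c (r+1) = K (c-1) (r+1) = H (c-1) r`; `tB = false` iff the edge is open.
At the top level `h` (even) the star joins `c` odd with `c + 1`, both are next to the primal face `(c, h)`.
The dual colouring is the same with parities exchanged: `K c r = G ((c + r) / 2, (r - c - 2) / 2)` for
`c + r` even, `V c r = if (c + r) % 2 = 0 then K c r else K (c - 1) r`, `H c r = if (c + r) % 2 = 0 then K c r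
else K c (r + 1)`; at the top all dual faces have the same colour `a`.
`V c 0` is `F (pv c)` resp. `G (dv c)`.
`tB (per n ω) (c + 2 n) r = tB (per n ω) c r` (`tB_per`).
For `dn` use the reflected colouring `V' c r = V c (-r)`, `H' c r = H c (-1 - r)`; the types are flipped:
at the vertex `(c, -1 - r)`, top and bottom are exchanged (`top' = V c (-r-1)` is the edge below it).
-/

set_option autoImplicit false

namespace Pool.Agent.H89.Link

open H56.EX
open Pool.Agent.H89.Perc (Vert Edge Config src tgt lowFace)

variable {L n : ℕ} {T : Type*}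

theorem per_shift (n : ℕ) (ω : Config) (e : Edge) (k : ℤ) :
    per n ω (e.1 + n * k, e.2.1 - n * k, e.2.2) = per n ω e := by
  unfold per
  simp only [Int.add_mul_emod_self_left]
  congr 2
  congr 1
  ring

theorem tB_per (hL : L = 2 * n) (ω : Config) (c r : ℤ) :
    tB (per n ω) (c + L) r = tB (per n ω) c r := by
  have hL' : (L : ℤ) = 2 * n := by rw [hL]; push_cast; ring
  have h1 : (c + L + r) % 2 = (c + r) % 2 := by rw [hL']; omega
  have h2 : per n ω (medge (c + L) r) = per n ω (medge c r) := by
    rw [← per_shift n ω (medge c r) 1]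
    congr 1
    unfold medge
    rw [h1]
    split_ifs with h
    · refine Prod.ext ?_ (Prod.ext ?_ rfl)
      · simp only; rw [hL']; omega
      · simp only; rw [hL']; omega
    · refine Prod.ext ?_ (Prod.ext ?_ rfl)
      · simp only; rw [hL']; omega
      · simp only; rw [hL']; omega
  unfold tB
  rw [h1, h2]

/-- Colour of the vertical medial edge, from a colouring of primal vertices. -/
private def faceV (F : Vert → T) (c r : ℤ) : T := F ((c + r + 1) / 2, (r - c) / 2)

/-- Colour of the horizontal medial edge, from a colouring of primal vertices. -/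
private def faceH (F : Vert → T) (c r : ℤ) : T := F ((c + r + 2) / 2, (r - c) / 2)

/-- Colour of the vertical medial edge, from a colouring of dual vertices. -/
private def faceV' (G : Vert → T) (c r : ℤ) : T := G ((c + r) / 2, (r - c - 1) / 2)

/-- Colour of the horizontal medial edge, from a colouring of dual vertices. -/
private def faceH' (G : Vert → T) (c r : ℤ) : T := G ((c + r + 1) / 2, (r - c - 1) / 2)

private theorem face_congr (F : Vert → T) {a b a' b' : ℤ} (h1 : a = a') (h2 : b = b') :
    F (a, b) = F (a', b') := by rw [h1, h2]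

private theorem medge_sum (c r : ℤ) : (medge c r).1 + (medge c r).2.1 = r := by
  unfold medge
  split_ifs with h
  · simp only; omega
  · simp only; omega

private theorem face_primal (η : Config) (F : Vert → T) (c r : ℤ)
    (hF : η (medge c r) = true → F (src (medge c r)) = F (tgt (medge c r))) :
    (tB η c r = true → faceV F c r = faceH F c r ∧ faceV F c (r + 1) = faceH F (c - 1) r) ∧
      (tB η c r = false → faceV F c r = faceH F (c - 1) r ∧ faceV F c (r + 1) = faceH F c r) := by
  by_cases h : (c + r) % 2 = 0
  · have hm : medge c r = ((c + r) / 2, (r - c) / 2, false) := by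
      unfold medge; rw [if_pos h]
    have ht : tB η c r = η (medge c r) := by unfold tB; rw [if_pos h]
    have hs : F (src (medge c r)) = F ((c + r) / 2, (r - c) / 2) := by rw [hm]; rfl
    have hg : F (tgt (medge c r)) = F ((c + r) / 2 + 1, (r - c) / 2) := by rw [hm]; rfl
    have v1 : faceV F c r = F ((c + r) / 2, (r - c) / 2) := face_congr F (by omega) (by omega)
    have v2 : faceV F c (r + 1) = F ((c + r) / 2 + 1, (r - c) / 2) :=
      face_congr F (by omega) (by omega)
    have v3 : faceH F c r = F ((c + r) / 2 + 1, (r - c) / 2) := face_congr F (by omega) (by omega)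
    have v4 : faceH F (c - 1) r = F ((c + r) / 2, (r - c) / 2) := face_congr F (by omega) (by omega)
    rw [ht, v1, v2, v3, v4, ← hs, ← hg]
    exact ⟨fun ho => ⟨hF ho, (hF ho).symm⟩, fun _ => ⟨rfl, rfl⟩⟩
  · have hm : medge c r = ((c + r + 1) / 2, (r - c - 1) / 2, true) := by
      unfold medge; rw [if_neg h]
    have ht : tB η c r = !η (medge c r) := by unfold tB; rw [if_neg h]
    have hs : F (src (medge c r)) = F ((c + r + 1) / 2, (r - c - 1) / 2) := by rw [hm]; rfl
    have hg : F (tgt (medge c r)) = F ((c + r + 1) / 2, (r - c - 1) / 2 + 1) := by rw [hm]; rfl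
    have v1 : faceV F c r = F ((c + r + 1) / 2, (r - c - 1) / 2) :=
      face_congr F (by omega) (by omega)
    have v2 : faceV F c (r + 1) = F ((c + r + 1) / 2, (r - c - 1) / 2 + 1) :=
      face_congr F (by omega) (by omega)
    have v3 : faceH F c r = F ((c + r + 1) / 2, (r - c - 1) / 2) :=
      face_congr F (by omega) (by omega)
    have v4 : faceH F (c - 1) r = F ((c + r + 1) / 2, (r - c - 1) / 2 + 1) :=
      face_congr F (by omega) (by omega)
    rw [ht, v1, v2, v3, v4, ← hs, ← hg]
    refine ⟨fun _ => ⟨rfl, rfl⟩, fun ho => ?_⟩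
    have ho' : η (medge c r) = true := by
      cases hη : η (medge c r)
      · rw [hη] at ho; exact absurd ho (by decide)
      · rfl
    exact ⟨hF ho', (hF ho').symm⟩

private theorem face_dual (η : Config) (G : Vert → T) (c r : ℤ)
    (hG : η (medge c r) = false → G (lowFace (medge c r)) = G (src (medge c r))) :
    (tB η c r = true → faceV' G c r = faceH' G c r ∧ faceV' G c (r + 1) = faceH' G (c - 1) r) ∧
      (tB η c r = false → faceV' G c r = faceH' G (c - 1) r ∧
        faceV' G c (r + 1) = faceH' G c r) := by
  by_cases h : (c + r) % 2 = 0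
  · have hm : medge c r = ((c + r) / 2, (r - c) / 2, false) := by
      unfold medge; rw [if_pos h]
    have ht : tB η c r = η (medge c r) := by unfold tB; rw [if_pos h]
    have hs : G (src (medge c r)) = G ((c + r) / 2, (r - c) / 2) := by rw [hm]; rfl
    have hg : G (lowFace (medge c r)) = G ((c + r) / 2, (r - c) / 2 - 1) := by rw [hm]; rfl
    have v1 : faceV' G c r = G ((c + r) / 2, (r - c) / 2 - 1) :=
      face_congr G (by omega) (by omega)
    have v2 : faceV' G c (r + 1) = G ((c + r) / 2, (r - c) / 2) :=
      face_congr G (by omega) (by omega)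
    have v3 : faceH' G c r = G ((c + r) / 2, (r - c) / 2 - 1) :=
      face_congr G (by omega) (by omega)
    have v4 : faceH' G (c - 1) r = G ((c + r) / 2, (r - c) / 2) :=
      face_congr G (by omega) (by omega)
    rw [ht, v1, v2, v3, v4, ← hs, ← hg]
    exact ⟨fun _ => ⟨rfl, rfl⟩, fun ho => ⟨hG ho, (hG ho).symm⟩⟩
  · have hm : medge c r = ((c + r + 1) / 2, (r - c - 1) / 2, true) := by
      unfold medge; rw [if_neg h]
    have ht : tB η c r = !η (medge c r) := by unfold tB; rw [if_neg h]
    have hs : G (src (medge c r)) = G ((c + r + 1) / 2, (r - c - 1) / 2) := by rw [hm]; rfl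
    have hg : G (lowFace (medge c r)) = G ((c + r + 1) / 2 - 1, (r - c - 1) / 2) := by
      rw [hm]; rfl
    have v1 : faceV' G c r = G ((c + r + 1) / 2 - 1, (r - c - 1) / 2) :=
      face_congr G (by omega) (by omega)
    have v2 : faceV' G c (r + 1) = G ((c + r + 1) / 2, (r - c - 1) / 2) :=
      face_congr G (by omega) (by omega)
    have v3 : faceH' G c r = G ((c + r + 1) / 2, (r - c - 1) / 2) :=
      face_congr G (by omega) (by omega)
    have v4 : faceH' G (c - 1) r = G ((c + r + 1) / 2 - 1, (r - c - 1) / 2) :=
      face_congr G (by omega) (by omega)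
    rw [ht, v1, v2, v3, v4, ← hs, ← hg]
    refine ⟨fun ho => ?_, fun _ => ⟨rfl, rfl⟩⟩
    have ho' : η (medge c r) = false := by
      cases hη : η (medge c r)
      · rfl
      · rw [hη] at ho; exact absurd ho (by decide)
    exact ⟨hG ho', (hG ho').symm⟩

private theorem face_star {s : Pat L} (hs : IsStar s) (F : Vert → T) {k : ℤ} (hk : k % 2 = 0)
    (x : ℤ) : faceV F (s.m x) k = faceV F x k := by
  rw [hs x]
  split_ifs with h
  · exact face_congr F (by omega) (by omega)
  · exact face_congr F (by omega) (by omega)

private theorem faceV_zero (F : Vert → T) (c : ℤ) : faceV F c 0 = F (pv c) :=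
  face_congr F (by omega) (by omega)

private theorem faceV'_zero (G : Vert → T) (c : ℤ) : faceV' G c 0 = G (dv c) :=
  face_congr G (by omega) (by omega)

theorem up_primal (hL : L = 2 * n) {s : Pat L} (hs : IsStar s) {h : ℕ} (he : Even h) (ω : Config)
    {F : Vert → T} (hF : ∀ e : Edge, 0 ≤ e.1 + e.2.1 → e.1 + e.2.1 < h → per n ω e = true →
      F (src e) = F (tgt e)) (x : ℤ) : F (pv ((up s n h ω).m x)) = F (pv x) := by
  have hk : (0 + (h : ℤ)) % 2 = 0 := by
    obtain ⟨m, hm⟩ := he
    rw [hm]; push_cast; omega
  have key := halfP_inv (s := s) (t := fun c r => tB (per n ω) c r) (tB_per hL ω)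
    (V := faceV F) (H := faceH F) h 0 ?_ (fun y => face_star hs F hk y) x
  · rw [faceV_zero, faceV_zero] at key
    exact key
  · intro r' h0 h1 c
    exact face_primal (per n ω) F c r' (hF _ (by rw [medge_sum]; exact h0)
      (by rw [medge_sum]; linarith))

theorem dn_primal (hL : L = 2 * n) {s : Pat L} (hs : IsStar s) {h : ℕ} (he : Even h) (ω : Config)
    {F : Vert → T} (hF : ∀ e : Edge, -(h : ℤ) ≤ e.1 + e.2.1 → e.1 + e.2.1 < 0 → per n ω e = true →
      F (src e) = F (tgt e)) (x : ℤ) : F (pv ((dn s n h ω).m x)) = F (pv x) := by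
  have hk : (-(0 + (h : ℤ))) % 2 = 0 := by
    obtain ⟨m, hm⟩ := he
    rw [hm]; push_cast; omega
  have key := halfP_inv (s := s) (t := fun c r => !tB (per n ω) c (-1 - r))
    (fun c r => by simp only [tB_per hL ω])
    (V := fun c r => faceV F c (-r)) (H := fun c r => faceH F c (-1 - r)) h 0 ?_
    (fun y => face_star hs F hk y) x
  · simp only [neg_zero] at key
    rw [faceV_zero, faceV_zero] at key
    exact key
  · intro r' h0 h1 c
    have hp := face_primal (per n ω) F c (-1 - r') (hF _ (by rw [medge_sum]; linarith)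
      (by rw [medge_sum]; linarith))
    have e1 : -1 - r' + 1 = -r' := by ring
    have e2 : -(r' + 1) = -1 - r' := by ring
    rw [e1] at hp
    simp only [e2]
    refine ⟨fun ht => ?_, fun ht => ?_⟩
    · have ht' : tB (per n ω) c (-1 - r') = false := by simpa using ht
      exact ⟨(hp.2 ht').2, (hp.2 ht').1⟩
    · have ht' : tB (per n ω) c (-1 - r') = true := by simpa using ht
      exact ⟨(hp.1 ht').2, (hp.1 ht').1⟩

theorem up_dual (hL : L = 2 * n) {s : Pat L} (hs : IsStar s) {h : ℕ} (he : Even h) (ω : Config)
    {G : Vert → T} (hG : ∀ e : Edge, 0 ≤ e.1 + e.2.1 → e.1 + e.2.1 < h → per n ω e = false →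
      G (lowFace e) = G (src e)) (a : T) (ha : ∀ f : Vert, f.1 + f.2 + 1 = h → G f = a) (x : ℤ) :
    G (dv ((up s n h ω).m x)) = G (dv x) := by
  have hv : ∀ y : ℤ, faceV' G y (0 + (h : ℤ)) = a := by
    intro y
    refine ha _ ?_
    simp only
    omega
  have key := halfP_inv (s := s) (t := fun c r => tB (per n ω) c r) (tB_per hL ω)
    (V := faceV' G) (H := faceH' G) h 0 ?_ (fun y => by rw [hv, hv]) x
  · rw [faceV'_zero, faceV'_zero] at key
    exact key
  · intro r' h0 h1 c
    exact face_dual (per n ω) G c r' (hG _ (by rw [medge_sum]; exact h0)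
      (by rw [medge_sum]; linarith))

theorem dn_dual (hL : L = 2 * n) {s : Pat L} (hs : IsStar s) {h : ℕ} (he : Even h) (ω : Config)
    {G : Vert → T} (hG : ∀ e : Edge, -(h : ℤ) ≤ e.1 + e.2.1 → e.1 + e.2.1 < 0 → per n ω e = false →
      G (lowFace e) = G (src e)) (a : T) (ha : ∀ f : Vert, f.1 + f.2 + 1 = -(h : ℤ) → G f = a) (x : ℤ) :
    G (dv ((dn s n h ω).m x)) = G (dv x) := by
  have hv : ∀ y : ℤ, faceV' G y (-(0 + (h : ℤ))) = a := by
    intro y
    refine ha _ ?_
    simp only
    omega
  have key := halfP_inv (s := s) (t := fun c r => !tB (per n ω) c (-1 - r))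
    (fun c r => by simp only [tB_per hL ω])
    (V := fun c r => faceV' G c (-r)) (H := fun c r => faceH' G c (-1 - r)) h 0 ?_
    (fun y => by simp only [hv]) x
  · simp only [neg_zero] at key
    rw [faceV'_zero, faceV'_zero] at key
    exact key
  · intro r' h0 h1 c
    have hp := face_dual (per n ω) G c (-1 - r') (hG _ (by rw [medge_sum]; linarith)
      (by rw [medge_sum]; linarith))
    have e1 : -1 - r' + 1 = -r' := by ring
    have e2 : -(r' + 1) = -1 - r' := by ring
    rw [e1] at hp
    simp only [e2]
    refine ⟨fun ht => ?_, fun ht => ?_⟩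
    · have ht' : tB (per n ω) c (-1 - r') = false := by simpa using ht
      exact ⟨(hp.2 ht').2, (hp.2 ht').1⟩
    · have ht' : tB (per n ω) c (-1 - r') = true := by simpa using ht
      exact ⟨(hp.1 ht').2, (hp.1 ht').1⟩

end Pool.Agent.H89.Link
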