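import Pool.Agent.H89.Link.PerProb
import Pool.Agent.H61.NC.A4Basic
import Pool.Agent.H89.Link.Potential
import Pool.Agent.H89.Perc.Symm

/-!
# LINK module `Diag`: four arms at a diagonal pair of vertices and four arms of an edge

`x = (0, 0)`, `y = (1, -1)`, `z = (1, 0)`, `w = (0, -1)`: the corners of the face `q = (0, -1)`;
`e = (0, 0, false)` joins `x, z`; `g = (1, -1, true)` joins `y, z`; `f = (0, -1, true)` joins `w, x`.
Clusters `C(v)` are taken in `ball 0 k` (all four points are in it for `k ≥ 1`).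

`fourD_le_a4`.  Let `ω ∈ FourD k`.
* `z ∈ C(y)`: `e` is closed, `ω ∈ A4 e k`.
* `z ∈ C(x)`: `g` is closed; restricted to `ball (1, -1) (k - 1) ⊆ ball 0 k` this is `A4 g (k - 1)` (`src g = y`; the
  path from `z` goes through `x` to the sphere; cut it at `sphere y (k-1)`).
* otherwise: `Function.update ω g true ∈ A4 e k` (now `z ∈ C(y)`, `x` is not joined to it).
  `Pr p {ω | update ω g true ∈ A} ≤ Pr p A / p` (independence of the edge `g`).
Then `Pr_A4` and `a4_anti`.

`a4_le_fourD`.  Let `ω ∈ A4 e k`, `ω₀ = close e ω` (the clusters are now those of `ω₀`).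
* `y ∈ C(z)`: `ω₀ ∈ FourD k`.
* `y ∉ C(z)`, `y ∉ C(x)`: `update ω₀ g true ∈ FourD k`.
* `y ∈ C(x)`, `w ∈ C(x)`: the reflection `(a, b) ↦ (1 - a, b)` of `ω₀` is in `FourD (k - 1)`
  (`z ↦ x`, `w ↦ y`; `ball (1, 0) (k - 1) ⊆ ball 0 k`).
* `y ∈ C(x)`, `w ∉ C(x)`, `w ∉ C(z)`: the same for `update ω₀ f true`.
* `y ∈ C(x)`, `w ∈ C(z)`: impossible (planarity).  Let `c` be a path sum (`exists_pathSum` of `Link/Potential.lean`) of an
  open path from `x` to `y` in `ball 0 k`, `A = c + 1_e + 1_g` (all degrees even, finite support), `G = pot A H`,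
  `G (lowFace e') + G (src e') = A e'` (`pot_even`).  `A` has no edge at any vertex of `C(z)` except `z` (its edges join
  vertices of `C(x)`, or are `e`, `g`).  So around every vertex `v ∈ C(z)`, `v ≠ z`, the four faces have the same colour
  `G`, and neighbours in `C(z) \ {z}` share a face, so this colour is constant along an open path from `w` to the last
  vertex `v` before `z`; around `w` it is `G q` (`q = (0, -1)` is a face at `w`).  `v ∈ {(2, 0), (1, 1)}` (`v ≠ x, y`), and the
  face `(1, 0)` contains both; so `G (1, 0) = G q`.  But from `q` to the face `(0, 0)` one crosses `e` (`A e = 1`,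
  because `c e = 0`), and from `(0, 0)` to `(1, 0)` one crosses `(1, 0, true)` (`A = 0`, it joins `z` and `(1, 1)`, not
  in `C(x)`; if it is closed also `c = 0`).  So `G (1, 0) = G q + 1`, contradiction.
  (Take the path from `w` to `z` with `z` only at the end: `Conn` in `ball 0 k \ {z}` to a neighbour of `z`.)
-/

set_option autoImplicit false

open MeasureTheory ProbabilityTheory unitInterval

namespace Pool.Agent.H89.Link

open Pool.Agent.H89.Perc (Vert Edge Config Pr half)
open Pool.Agent.H61.NC (a4)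
open Pool.Agent.H89.Perc (src tgt lowFace ball sphere)

private abbrev dz : Vert := (1, 0)
private abbrev dw : Vert := (0, -1)
private abbrev dE : Edge := (0, 0, false)
private abbrev dG : Edge := (1, -1, true)
private abbrev dF : Edge := (0, -1, true)

/-! ### Clusters -/

/-- A path stays in the cluster of its first vertex. -/
private lemma diag_inside {ω : Config} {S : Set Vert} {u v : Vert} (h : Perc.Conn ω S u v) :
    Perc.Conn ω {t | Perc.Conn ω S u t} u v := by
  refine h.induction_right (P := fun t => Perc.Conn ω {t | Perc.Conn ω S u t} u t) ?_ ?_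
  · exact Perc.Conn.refl (Perc.Conn.refl h.mem_left)
  · intro a b ha hs ih
    exact ih.tail ⟨ha, ha.tail hs, hs.2.2⟩

/-- Opening an edge which has no end point in the cluster of `u` does not change this cluster. -/
private lemma diag_update {ω : Config} {S : Set Vert} {u v : Vert} {e : Edge}
    (h1 : ¬ Perc.Conn ω S u (src e)) (h2 : ¬ Perc.Conn ω S u (tgt e))
    (h : Perc.Conn (Function.update ω e true) S u v) : Perc.Conn ω S u v := by
  refine h.induction_right (P := fun t => Perc.Conn ω S u t) (Perc.Conn.refl h.mem_left) ?_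
  rintro a b - ⟨ha, hb, e', he', ho⟩ ih
  by_cases hee : e' = e
  · subst hee
    rcases he' with ⟨h3, _⟩ | ⟨h3, _⟩
    · exact absurd (h3 ▸ ih) h1
    · exact absurd (h3 ▸ ih) h2
  · rw [Function.update_of_ne hee] at ho
    exact ih.tail ⟨ha, hb, e', he', ho⟩

private lemma diag_mono {ω : Config} {S : Set Vert} {u v : Vert} (e : Edge)
    (h : Perc.Conn ω S u v) : Perc.Conn (Function.update ω e true) S u v := by
  refine h.mono le_rfl fun e' he' => ?_
  by_cases hee : e' = e
  · subst hee; simp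
  · rw [Function.update_of_ne hee]; exact he'

private lemma diag_step (ω : Config) {S : Set Vert} {e : Edge} (h1 : src e ∈ S) (h2 : tgt e ∈ S) :
    Perc.Conn (Function.update ω e true) S (src e) (tgt e) :=
  Perc.Step.conn ⟨h1, h2, e, Or.inl ⟨rfl, rfl⟩, by simp⟩

private lemma diag_open {ω : Config} {S : Set Vert} {e : Edge} (h1 : src e ∈ S) (h2 : tgt e ∈ S)
    (h : ω e = true) : Perc.Conn ω S (src e) (tgt e) :=
  Perc.Step.conn ⟨h1, h2, e, Or.inl ⟨rfl, rfl⟩, h⟩

private lemma diag_close_eq {ω : Config} {e : Edge} (h : ω e = false) :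
    Pool.Agent.H61.NC.close e ω = ω := by
  unfold Pool.Agent.H61.NC.close
  rw [← h, Function.update_eq_self]

/-! ### Probabilities -/

private lemma diag_pr_true (p : I) (h1 : 1 / 4 ≤ (p : ℝ)) {s : Finset Edge} {A : Set Config}
    (hA : Perc.LocalOn s A) (e : Edge) :
    Pr p {ω | Function.update ω e true ∈ A} ≤ 4 * Pr p A := by
  have h := Perc.Pr_eq_update (p := p) hA e
  have h2 : 0 ≤ Pr p {ω | Function.update ω e true ∈ A} := Perc.Pr_nonneg
  have h3 : 0 ≤ Pr p {ω | Function.update ω e false ∈ A} := Perc.Pr_nonneg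
  have h4 : (p : ℝ) ≤ 1 := p.2.2
  have h5 : 0 ≤ (1 - (p : ℝ)) * Pr p {ω | Function.update ω e false ∈ A} :=
    mul_nonneg (by linarith) h3
  have h6 : (1 / 4 : ℝ) * Pr p {ω | Function.update ω e true ∈ A} ≤
      (p : ℝ) * Pr p {ω | Function.update ω e true ∈ A} := mul_le_mul_of_nonneg_right h1 h2
  linarith

private lemma diag_pr_false (p : I) (h1 : (p : ℝ) ≤ 3 / 4) {s : Finset Edge} {A : Set Config}
    (hA : Perc.LocalOn s A) (e : Edge) :
    Pr p {ω | Function.update ω e false ∈ A} ≤ 4 * Pr p A := by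
  have h := Perc.Pr_eq_update (p := p) hA e
  have h2 : 0 ≤ Pr p {ω | Function.update ω e true ∈ A} := Perc.Pr_nonneg
  have h3 : 0 ≤ Pr p {ω | Function.update ω e false ∈ A} := Perc.Pr_nonneg
  have h5 : 0 ≤ (p : ℝ) * Pr p {ω | Function.update ω e true ∈ A} :=
    mul_nonneg p.2.1 h2
  have h6 : (1 / 4 : ℝ) * Pr p {ω | Function.update ω e false ∈ A} ≤
      (1 - (p : ℝ)) * Pr p {ω | Function.update ω e false ∈ A} :=
    mul_le_mul_of_nonneg_right (by linarith) h3
  linarith

/-! ### The first inequality -/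

private lemma diag_sub1 {k : ℕ} (hk : 2 ≤ k) :
    FourD k ⊆ (Pool.Agent.H61.NC.A4 dE k ∪ Pool.Agent.H61.NC.A4 dG (k - 1)) ∪
      {ω | Function.update ω dG true ∈ Pool.Agent.H61.NC.A4 dE k} := by
  rintro ω ⟨⟨u, hu, hxu⟩, ⟨u', hu', hyu⟩, hxy⟩
  have hx : xx ∈ ball 0 k := hxu.mem_left
  have hy : yy ∈ ball 0 k := hyu.mem_left
  have hz : dz ∈ ball 0 k := by
    simp only [Perc.mem_ball, Prod.fst_zero, Prod.snd_zero]; omega
  by_cases h1 : Perc.Conn ω (ball 0 k) yy dz
  · left; left
    have hcl : ω dE = false := by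
      by_contra h
      rw [Bool.not_eq_false] at h
      exact hxy ((diag_open (e := dE) (S := ball 0 k) hx hz h).trans h1.symm)
    refine ⟨⟨u, hu, ?_⟩, ⟨u', hu', ?_⟩, ?_⟩
    · rw [diag_close_eq hcl]; exact hxu
    · rw [diag_close_eq hcl]; exact h1.symm.trans hyu
    · rw [diag_close_eq hcl]
      intro h
      exact hxy (h.trans h1.symm)
  by_cases h2 : Perc.Conn ω (ball 0 k) xx dz
  · left; right
    have hcl : ω dG = false := by
      by_contra h
      rw [Bool.not_eq_false] at h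
      exact h1 (diag_open (e := dG) (S := ball 0 k) hy hz h)
    have hsub : ball (src dG) (k - 1) ⊆ ball 0 k := by
      intro t ht
      simp only [Perc.mem_ball, src, Prod.fst_zero, Prod.snd_zero] at ht ⊢
      omega
    have hout : ∀ t ∈ sphere 0 k, t ∉ ball (src dG) (k - 1) ∨ t ∈ sphere (src dG) (k - 1) := by
      rintro t ⟨ht1, ht2⟩
      by_cases ht3 : t ∈ ball (src dG) (k - 1)
      · right
        refine ⟨ht3, ?_⟩
        simp only [Perc.mem_ball, src, Prod.fst_zero, Prod.snd_zero] at ht1 ht2 ht3 ⊢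
        omega
      · exact Or.inl ht3
    have hz' : dz ∈ ball (src dG) (k - 1) := by
      simp only [Perc.mem_ball, src]; omega
    obtain ⟨a, ha, hca⟩ := hyu.to_sphere (v := src dG) (r := k - 1) Perc.self_mem_ball (hout _ hu')
    obtain ⟨b, hb, hcb⟩ := (h2.symm.trans hxu).to_sphere (v := src dG) (r := k - 1) hz'
      (hout _ hu)
    refine ⟨⟨a, ha, ?_⟩, ⟨b, hb, ?_⟩, ?_⟩
    · rw [diag_close_eq hcl]; exact hca.mono_set Set.inter_subset_right
    · rw [diag_close_eq hcl]; exact hcb.mono_set Set.inter_subset_right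
    · rw [diag_close_eq hcl]
      intro h
      exact h1 (h.mono_set hsub)
  right
  have hcl0 : ω dE = false := by
    by_contra h
    rw [Bool.not_eq_false] at h
    exact h2 (diag_open (e := dE) (S := ball 0 k) hx hz h)
  have hcl : Function.update ω dG true dE = false := by
    rw [Function.update_of_ne (by decide)]; exact hcl0
  refine ⟨⟨u, hu, ?_⟩, ⟨u', hu', ?_⟩, ?_⟩
  · rw [diag_close_eq hcl]; exact diag_mono _ hxu
  · rw [diag_close_eq hcl]
    exact (diag_step ω (e := dG) (S := ball 0 k) hy hz).symm.trans (diag_mono _ hyu)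
  · rw [diag_close_eq hcl]
    intro h
    exact h2 (diag_update (e := dG) hxy h2 h)

theorem fourD_le_a4 (p : I) (h1 : 1 / 4 ≤ (p : ℝ)) {k : ℕ} (hk : 2 ≤ k) :
    Pr p (FourD k) ≤ 6 * a4 p (k - 1) := by
  have h2 := Perc.Pr_mono (p := p) (diag_sub1 hk)
  have h3 := Perc.Pr_union_le (p := p) (A := Pool.Agent.H61.NC.A4 dE k ∪
    Pool.Agent.H61.NC.A4 dG (k - 1))
    (B := {ω | Function.update ω dG true ∈ Pool.Agent.H61.NC.A4 dE k})
  have h4 := Perc.Pr_union_le (p := p) (A := Pool.Agent.H61.NC.A4 dE k)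
    (B := Pool.Agent.H61.NC.A4 dG (k - 1))
  have h5 := diag_pr_true p h1 (Pool.Agent.H61.NC.localOn_A4 dE k) dG
  rw [Pool.Agent.H61.NC.Pr_A4] at h4 h5
  rw [Pool.Agent.H61.NC.Pr_A4] at h4
  have h6 := Pool.Agent.H61.NC.a4_anti p (r := k - 1) (r' := k) (by omega) (by omega)
  linarith

/-! ### The second inequality -/

/-- Planarity. -/
private lemma diag_planar {k : ℕ} {ω : Config} (he : ω dE = false)
    (hxy : Perc.Conn ω (ball 0 k) xx yy) (hzw : Perc.Conn ω (ball 0 k) dw dz)
    (hxz : ¬ Perc.Conn ω (ball 0 k) xx dz) : False := by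
  obtain ⟨c, hc1, -, hc3⟩ := exists_pathSum (diag_inside hxy)
  set A : Edge → ZMod 2 := fun e' => (c e' + Perc.one dE e') + Perc.one dG e' with hA
  have hA0 : ∀ e', c e' = 0 → e' ≠ dE → e' ≠ dG → A e' = 0 := by
    intro e' h1 h2 h3
    simp only [hA, h1, Perc.one, h2, h3, if_false, add_zero]
  have hsup : ∀ e' : Edge, ¬ (-((2 * k + 2 : ℕ) : ℤ) < e'.1 + e'.2.1 ∧
      e'.1 + e'.2.1 + 1 < ((2 * k + 2 : ℕ) : ℤ)) → A e' = 0 := by
    intro e' h
    apply hA0
    · by_contra hce
      have h1 := (hc1 e' hce).2.1.mem_right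
      simp only [Perc.mem_ball, src, Prod.fst_zero, Prod.snd_zero] at h1
      omega
    · rintro rfl
      simp only at h
      omega
    · rintro rfl
      simp only at h
      omega
  have hv : ∀ V, Perc.vsum A V = 0 := by
    intro V
    have h1 := Perc.vsum_add (fun e' => c e' + Perc.one dE e') (Perc.one dG) V
    have h2 := Perc.vsum_add c (Perc.one dE) V
    rw [hA, h1, h2, hc3, Perc.vsum_one, Perc.vsum_one]
    have s1 : src dE = xx := rfl
    have s2 : tgt dE = dz := rfl
    have s3 : src dG = yy := rfl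
    have s4 : tgt dG = dz := rfl
    rw [s1, s2, s3, s4]
    have t1 := CharTwo.add_self_eq_zero (if V = xx then (1 : ZMod 2) else 0)
    have t2 := CharTwo.add_self_eq_zero (if V = yy then (1 : ZMod 2) else 0)
    have t3 := CharTwo.add_self_eq_zero (if V = dz then (1 : ZMod 2) else 0)
    linear_combination t1 + t2 + t3
  have hG := pot_even (A := A) (H := 2 * k + 2) hsup hv
  set G := pot A (2 * k + 2) with hGdef
  -- the clusters of `x` and `z` are disjoint
  have hdis : ∀ v, Perc.Conn ω (ball 0 k) dw v → ¬ Perc.Conn ω (ball 0 k) xx v :=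
    fun v h1 h2 => hxz (h2.trans (h1.symm.trans hzw))
  -- no edge of `A` at the vertices of `C(z) \ {z}`
  have hvert : ∀ v, Perc.Conn ω (ball 0 k) dw v → v ≠ dz → ∀ e', (src e' = v ∨ tgt e' = v) →
      A e' = 0 := by
    intro v h1 h2 e' h3
    have hx := hdis v h1
    apply hA0
    · by_contra hce
      obtain ⟨-, g1, g2⟩ := hc1 e' hce
      rcases h3 with h3 | h3
      · exact hx (h3 ▸ g1)
      · exact hx (h3 ▸ g2)
    · rintro rfl
      rcases h3 with h3 | h3
      · exact hx (h3 ▸ Perc.Conn.refl hxy.mem_left)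
      · exact h2 h3.symm
    · rintro rfl
      rcases h3 with h3 | h3
      · exact hx (h3 ▸ hxy)
      · exact h2 h3.symm
  -- the four faces at a vertex of `C(z) \ {z}`
  have hface : ∀ a b : ℤ, Perc.Conn ω (ball 0 k) dw (a, b) → (a, b) ≠ dz →
      G (a, b) = G (a - 1, b) ∧ G (a, b) = G (a, b - 1) ∧ G (a, b) = G (a - 1, b - 1) := by
    intro a b h1 h2
    have g1 := hG (a, b, true)
    rw [hvert (a, b) h1 h2 (a, b, true) (Or.inl rfl)] at g1
    have g2 := hG (a, b, false)
    rw [hvert (a, b) h1 h2 (a, b, false) (Or.inl rfl)] at g2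
    have g3 := hG (a - 1, b, false)
    rw [hvert (a, b) h1 h2 (a - 1, b, false) (Or.inr (by simp [tgt]))] at g3
    rw [Perc.z2_add_eq_zero] at g1 g2 g3
    simp only [lowFace, src, if_true, Bool.false_eq_true, if_false] at g1 g2 g3
    exact ⟨g1.symm, g2.symm, by rw [g3]; exact g1.symm⟩
  -- the path from `w` to `z`
  have hw : dw ∈ ({dz} : Set Vert)ᶜ := by
    simp only [Set.mem_compl_iff, Set.mem_singleton_iff]; decide
  obtain ⟨v, v', hv1, hv2, hv3, -⟩ := hzw.exists_hit (T := {dz}) hw rfl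
  rw [Set.mem_singleton_iff] at hv3
  subst hv3
  have hGc : G dw = G v := by
    have hin : Perc.Conn ω {t | Perc.Conn ω (ball 0 k \ {dz}) dw t} dw v := diag_inside hv1
    refine Perc.Conn.const (f := G) hin ?_
    intro e' g1 g2 _
    have k1 : Perc.Conn ω (ball 0 k) dw (src e') := Perc.Conn.mono_set Set.sdiff_subset g1
    have k2 : Perc.Conn ω (ball 0 k) dw (tgt e') := Perc.Conn.mono_set Set.sdiff_subset g2
    have k3 : tgt e' ≠ dz := fun h => g2.mem_right.2 h
    obtain ⟨a, b, t⟩ := e'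
    cases t
    · have := (hface (a + 1) b k2 k3).1
      rw [add_sub_cancel_right] at this
      exact this.symm
    · have := (hface a (b + 1) k2 k3).2.1
      rw [add_sub_cancel_right] at this
      exact this.symm
  have hvz : Perc.Conn ω (ball 0 k) dw v := hv1.mono_set Set.sdiff_subset
  have hvne : v ≠ dz := fun h => hv1.mem_right.2 h
  have hvx : v ≠ xx := by
    rintro rfl
    exact hdis _ hvz (Perc.Conn.refl hxy.mem_left)
  have hvy : v ≠ yy := by
    rintro rfl
    exact hdis _ hvz hxy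
  have hv10 : G v = G (1, 0) := by
    obtain ⟨a, b⟩ := v
    have h1 := hv2.cases
    have h2 := hface a b hvz hvne
    have h3 : (a = 2 ∧ b = 0) ∨ (a = 1 ∧ b = 1) := by
      simp only [ne_eq, Prod.mk.injEq, xx, yy] at h1 hvx hvy
      omega
    rcases h3 with ⟨rfl, rfl⟩ | ⟨rfl, rfl⟩
    · exact h2.1
    · exact h2.2.1
  have he1 : c dE = 0 := by
    by_contra h
    have := (hc1 _ h).1
    rw [he] at this
    exact Bool.false_ne_true this
  have hl1 := hG dE
  have hA1 : A dE = 1 := by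
    simp [hA, he1, Perc.one]
  rw [hA1, Perc.z2_add_eq_one] at hl1
  have hl2 := hG (1, 0, true)
  have hA2 : A (1, 0, true) = 0 := by
    apply hA0
    · by_contra hce
      exact hxz (hc1 _ hce).2.1
    · decide
    · decide
  rw [hA2, Perc.z2_add_eq_zero] at hl2
  simp only [lowFace, src, if_true, Bool.false_eq_true, if_false] at hl1 hl2
  norm_num at hl1 hl2
  apply hl1
  rw [hl2, ← hv10]
  exact hGc

private lemma diag_fourD_anti {k : ℕ} (hk : 2 ≤ k) : FourD k ⊆ FourD (k - 1) := by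
  rintro ω ⟨⟨u, hu, h1⟩, ⟨u', hu', h2⟩, h3⟩
  have hsub : ball 0 (k - 1) ⊆ ball 0 k := by
    intro t ht
    simp only [Perc.mem_ball, Prod.fst_zero, Prod.snd_zero] at ht ⊢
    omega
  have hout : ∀ t ∈ sphere 0 k, t ∉ ball 0 (k - 1) := by
    rintro t ⟨ht1, ht2⟩ ht3
    simp only [Perc.mem_ball, Prod.fst_zero, Prod.snd_zero] at ht1 ht2 ht3
    omega
  obtain ⟨x, hx, hcx⟩ := h1.to_sphere (v := 0) (r := k - 1)
    (by simp only [Perc.mem_ball, xx, Prod.fst_zero, Prod.snd_zero]; omega) (Or.inl (hout u hu))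
  obtain ⟨x', hx', hcx'⟩ := h2.to_sphere (v := 0) (r := k - 1)
    (by simp only [Perc.mem_ball, yy, Prod.fst_zero, Prod.snd_zero]; omega) (Or.inl (hout u' hu'))
  exact ⟨⟨x, hx, hcx.mono_set Set.inter_subset_right⟩,
    ⟨x', hx', hcx'.mono_set Set.inter_subset_right⟩, fun h5 => h3 (h5.mono_set hsub)⟩

/-- The reflected configuration. -/
private lemma diag_refl {k : ℕ} (hk : 2 ≤ k) {ω : Config} {u u' : Vert} (hu : u ∈ sphere 0 k)
    (hu' : u' ∈ sphere 0 k) (h1 : Perc.Conn ω (ball 0 k) dz u) (h2 : Perc.Conn ω (ball 0 k) dw u')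
    (h3 : ¬ Perc.Conn ω (ball 0 k) dz dw) :
    (fun e => ω (Perc.reflX 1 e)) ∈ FourD (k - 1) := by
  have hb : {w : Vert | (1 - w.1, w.2) ∈ ball 0 (k - 1)} = ball dz (k - 1) := by
    ext w
    simp only [Set.mem_ofPred_eq, Perc.mem_ball, Prod.fst_zero, Prod.snd_zero]
    omega
  have hsub : ball dz (k - 1) ⊆ ball 0 k := by
    intro t ht
    simp only [Perc.mem_ball, Prod.fst_zero, Prod.snd_zero] at ht ⊢
    omega
  have hout : ∀ t ∈ sphere 0 k, t ∉ ball dz (k - 1) ∨ t ∈ sphere dz (k - 1) := by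
    rintro t ⟨ht1, ht2⟩
    by_cases ht3 : t ∈ ball dz (k - 1)
    · right
      refine ⟨ht3, ?_⟩
      simp only [Perc.mem_ball, Prod.fst_zero, Prod.snd_zero] at ht1 ht2 ht3 ⊢
      omega
    · exact Or.inl ht3
  have key : ∀ a b : Vert, Perc.Conn (fun e => ω (Perc.reflX 1 e)) (ball 0 (k - 1)) a b ↔
      Perc.Conn ω (ball dz (k - 1)) (1 - a.1, a.2) (1 - b.1, b.2) := by
    intro a b
    rw [Perc.conn_reflX, hb]
  have ex : ∀ a : Vert, (∃ t ∈ sphere dz (k - 1), Perc.Conn ω (ball dz (k - 1)) (1 - a.1, a.2) t) →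
      ∃ t ∈ sphere 0 (k - 1), Perc.Conn (fun e => ω (Perc.reflX 1 e)) (ball 0 (k - 1)) a t := by
    rintro a ⟨t, ht, hc⟩
    refine ⟨(1 - t.1, t.2), ?_, ?_⟩
    · obtain ⟨ht1, ht2⟩ := ht
      simp only [sphere, Set.mem_ofPred_eq, Perc.mem_ball, Prod.fst_zero, Prod.snd_zero]
        at ht1 ht2 ⊢
      omega
    · rw [key]
      simpa using hc
  have hw' : dw ∈ ball dz (k - 1) := by
    simp only [Perc.mem_ball]; omega
  obtain ⟨a, ha, hca⟩ := h1.to_sphere (v := dz) (r := k - 1) Perc.self_mem_ball (hout _ hu)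
  obtain ⟨b, hb', hcb⟩ := h2.to_sphere (v := dz) (r := k - 1) hw' (hout _ hu')
  refine ⟨ex xx ⟨a, ha, ?_⟩, ex yy ⟨b, hb', ?_⟩, ?_⟩
  · exact hca.mono_set Set.inter_subset_right
  · exact hcb.mono_set Set.inter_subset_right
  · rw [key]
    intro h
    exact h3 (h.mono_set hsub)

private lemma diag_sub2 {k : ℕ} (hk : 2 ≤ k) :
    Pool.Agent.H61.NC.A4 dE k ⊆
      ({ω | Function.update ω dE false ∈ FourD k} ∪
        {ω | Function.update ω dE false ∈ {ω | Function.update ω dG true ∈ FourD k}}) ∪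
      ({ω | Function.update ω dE false ∈
          {ω : Config | (fun e => ω (Perc.reflX 1 e)) ∈ FourD (k - 1)}} ∪
        {ω | Function.update ω dE false ∈ {ω | Function.update ω dF true ∈
          {ω : Config | (fun e => ω (Perc.reflX 1 e)) ∈ FourD (k - 1)}}}) := by
  rintro ω ⟨⟨u, hu, hxu⟩, ⟨u', hu', hzu⟩, hxz⟩
  set ω₀ : Config := Function.update ω dE false with hω₀
  have e1 : Pool.Agent.H61.NC.close dE ω = ω₀ := rfl
  have s1 : src dE = xx := rfl
  have s2 : tgt dE = dz := rfl
  have s0 : (xx : Vert) = 0 := rfl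
  rw [s1, s0] at hu hu'
  rw [e1, s1] at hxu hzu hxz
  rw [s2] at hzu hxz
  rw [show ball xx k = ball 0 k from rfl] at hxu hzu hxz
  have he : ω₀ dE = false := by simp [hω₀]
  have hx : xx ∈ ball 0 k := hxu.mem_left
  have hz : dz ∈ ball 0 k := hzu.mem_left
  have hy : yy ∈ ball 0 k := by
    simp only [Perc.mem_ball, yy, Prod.fst_zero, Prod.snd_zero]; omega
  have hw : dw ∈ ball 0 k := by
    simp only [Perc.mem_ball, Prod.fst_zero, Prod.snd_zero]; omega
  by_cases h1 : Perc.Conn ω₀ (ball 0 k) dz yy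
  · left; left
    exact ⟨⟨u, hu, hxu⟩, ⟨u', hu', h1.symm.trans hzu⟩, fun h => hxz (h.trans h1.symm)⟩
  by_cases h2 : Perc.Conn ω₀ (ball 0 k) xx yy
  · by_cases h3 : Perc.Conn ω₀ (ball 0 k) xx dw
    · right; left
      exact diag_refl hk hu' hu hzu (h3.symm.trans hxu) fun h => hxz (h3.trans h.symm)
    by_cases h4 : Perc.Conn ω₀ (ball 0 k) dw dz
    · exact (diag_planar he h2 h4 hxz).elim
    right; right
    have hwx : Perc.Conn (Function.update ω₀ dF true) (ball 0 k) dw xx :=
      diag_step ω₀ (e := dF) (S := ball 0 k) hw hx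
    refine diag_refl hk hu' hu (diag_mono _ hzu) (hwx.trans (diag_mono _ hxu)) ?_
    intro h
    exact h4 (diag_update (e := dF) (fun h => h4 h.symm) (fun h => hxz h.symm) h).symm
  · left; right
    have hyz : Perc.Conn (Function.update ω₀ dG true) (ball 0 k) yy dz :=
      diag_step ω₀ (e := dG) (S := ball 0 k) hy hz
    exact ⟨⟨u, hu, diag_mono _ hxu⟩, ⟨u', hu', hyz.trans (diag_mono _ hzu)⟩,
      fun h => h2 (diag_update (e := dG) h2 hxz h)⟩

theorem a4_le_fourD (p : I) (h1 : 1 / 4 ≤ (p : ℝ)) (h2 : (p : ℝ) ≤ 3 / 4) {k : ℕ} (hk : 2 ≤ k) :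
    a4 p k ≤ 100 * Pr p (FourD (k - 1)) := by
  classical
  have hloc : Perc.LocalOn (Perc.eRect (-(k : ℤ)) k (-(k : ℤ)) k) (FourD k) := perProb_localOn k
  have hloc' := perProb_localOn (k - 1)
  set B : Set Config := {ω : Config | (fun e => ω (Perc.reflX 1 e)) ∈ FourD (k - 1)} with hB
  have hR : Pr p B = Pr p (FourD (k - 1)) := Perc.Pr_comp hloc' (Perc.reflX_injective 1).injOn
  obtain ⟨s, hs⟩ : ∃ s : Finset Edge, Perc.LocalOn s B := by
    refine ⟨(Perc.eRect (-((k - 1 : ℕ) : ℤ)) (k - 1 : ℕ) (-((k - 1 : ℕ) : ℤ))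
      (k - 1 : ℕ)).image (Perc.reflX 1), ?_⟩
    intro ω ω' h hA'
    exact hloc' _ _ (fun e he => h _ (Finset.mem_image_of_mem _ he)) hA'
  have k1 := diag_pr_false p h2 hloc dE
  have k2 := diag_pr_false p h2 (hloc.update dG true) dE
  have k3 := diag_pr_false p h2 hs dE
  have k4 := diag_pr_false p h2 (hs.update dF true) dE
  have k5 := diag_pr_true p h1 hloc dG
  have k6 := diag_pr_true p h1 hs dF
  have k7 : Pr p (FourD k) ≤ Pr p (FourD (k - 1)) := Perc.Pr_mono (diag_fourD_anti hk)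
  have k8 := Perc.Pr_mono (p := p) (diag_sub2 hk)
  rw [Pool.Agent.H61.NC.Pr_A4] at k8
  have k9 := Perc.Pr_union_le (p := p)
    (A := {ω | Function.update ω dE false ∈ FourD k} ∪
        {ω | Function.update ω dE false ∈ {ω | Function.update ω dG true ∈ FourD k}})
    (B := {ω | Function.update ω dE false ∈ B} ∪
        {ω | Function.update ω dE false ∈ {ω | Function.update ω dF true ∈ B}})
  have k10 := Perc.Pr_union_le (p := p)
    (A := {ω | Function.update ω dE false ∈ FourD k})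
    (B := {ω | Function.update ω dE false ∈ {ω | Function.update ω dG true ∈ FourD k}})
  have k11 := Perc.Pr_union_le (p := p)
    (A := {ω | Function.update ω dE false ∈ B})
    (B := {ω | Function.update ω dE false ∈ {ω | Function.update ω dF true ∈ B}})
  have k12 : 0 ≤ Pr p (FourD (k - 1)) := Perc.Pr_nonneg
  rw [hR] at k3 k6
  linarith

end Pool.Agent.H89.Link
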