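import Pool.Agent.H89.Link.Row

/-!
# LINK module `Half`: colours are transported through a half cylinder

`halfP_inv`: induction on `h` with `row_inv` (the upper part has rows `r + 1, …, r + h`).
`halfP_congr`: induction on `h`; `row t P` only uses `t 0, …, t (L - 1)` (`wires_congr`).
-/

set_option autoImplicit false

namespace Pool.Agent.H89.Link

open H56.EX

variable {L : ℕ} {T : Type*}

theorem wires_congr {t t' : ℤ → Bool} {k : ℕ} (h : ∀ c : ℤ, 0 ≤ c → c < k → t c = t' c)
    (P : Pat (L + 2)) : wires t k P = wires t' k P := by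
  induction k with
  | zero => rfl
  | succ k ih =>
    have ih' := ih (fun c h1 h2 => h c h1 (by push_cast; omega))
    have hk := h k (by positivity) (by push_cast; omega)
    simp only [wires]
    rw [ih', hk]

theorem row_congr {t t' : ℤ → Bool} (h : ∀ c : ℤ, 0 ≤ c → c < L → t c = t' c) (P : Pat L) :
    row t P = row t' P := by
  unfold row
  rw [wires_congr h]

theorem halfP_congr {t t' : ℤ → ℤ → Bool} (s : Pat L) (h : ℕ) (r : ℤ)
    (ht : ∀ c r', 0 ≤ c → c < L → r ≤ r' → r' < r + h → t c r' = t' c r') :
    halfP s t h r = halfP s t' h r := by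
  induction h generalizing r with
  | zero => rfl
  | succ h ih =>
    simp only [halfP]
    rw [ih (r + 1) (fun c r' h1 h2 h3 h4 => ht c r' h1 h2 (by omega) (by push_cast; omega))]
    refine row_congr (fun c h1 h2 => ?_) _
    have h3 := ht c.toNat r (Nat.zero_le _) (by omega) le_rfl (by push_cast; omega)
    rwa [Int.toNat_of_nonneg h1] at h3

/-- **Colours are transported through a half cylinder.** -/
theorem halfP_inv {s : Pat L} {t : ℤ → ℤ → Bool} (ht : ∀ c r, t (c + L) r = t c r)
    {V H : ℤ → ℤ → T} (h : ℕ) (r : ℤ)
    (hV : ∀ r', r ≤ r' → r' < r + h →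
      RowCol (fun c => t c r') (fun c => V c (r' + 1)) (fun c => H c r') (fun c => V c r'))
    (hs : ∀ x, V (s.m x) (r + h) = V x (r + h)) (x : ℤ) :
    V ((halfP s t h r).m x) r = V x r := by
  induction h generalizing r x with
  | zero => simpa [halfP] using hs x
  | succ h ih =>
    simp only [halfP]
    have ih' := ih (r + 1) (fun r' h1 h2 => hV r' (by omega) (by push_cast; omega))
      (fun y => by
        have e : r + 1 + (h : ℤ) = r + ((h + 1 : ℕ) : ℤ) := by push_cast; ring
        rw [e]; exact hs y)
    exact row_inv (fun c => ht c r) _ (hV r le_rfl (by push_cast; omega)) ih' x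

end Pool.Agent.H89.Link
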