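import Pool.Agent.H89.Link.Row

/-!
# LINK module `Star`: the pattern of small arcs, reset by an alternating row

`exists_star`: write down the involution `x ↦ if x % 2 = 0 then x - 1 else x + 1`.
`row_alt`: apply `row_inv` with `T = ℤ`, `bot c = (c + 1) / 2`, `hor c = if c % 2 = 1 then (c + 1) / 2 else C`
and `top = C` constant (`C` any constant, e.g. `C = 0` and colours in `Option ℤ`): so
`bot ((row t P).m x) = bot x`, hence `(row t P).m x ∈ {x, x + 1}` for odd `x` and `∈ {x - 1, x}` for even `x`,
and `(row t P).m x ≠ x` (`Pat.ne`).  Conclude with `Pat.ext`.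
-/

set_option autoImplicit false

namespace Pool.Agent.H89.Link

open H56.EX

variable {L : ℕ}

theorem exists_star {n : ℕ} (hL : L = 2 * n) (hn : 1 ≤ n) : ∃ s : Pat L, IsStar s := by
  refine ⟨⟨fun x => if x % 2 = 0 then x - 1 else x + 1, ?_, ?_, ?_, ?_, ?_⟩, fun x => rfl⟩
  · intro x
    split_ifs <;> omega
  · intro x
    subst hL
    push_cast
    split_ifs <;> omega
  · intro x
    split_ifs <;> omega
  · intro x
    subst hL
    push_cast
    rw [abs_lt]
    split_ifs <;> constructor <;> omega
  · intro x y
    split_ifs <;> intro h1 h2 <;> exfalso <;> omega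

/-- A row with alternating types resets every pattern. -/
theorem row_alt {n : ℕ} (hL : L = 2 * n) {s : Pat L} (hs : IsStar s) (P : Pat L) {t : ℤ → Bool}
    (ht : ∀ c, t c = decide (c % 2 = 1)) : row t P = s := by
  have hper : ∀ c, t (c + L) = t c := by
    intro c
    rw [ht, ht]
    subst hL
    push_cast
    congr 1
    apply propext
    constructor <;> intro h <;> omega
  have hcol : RowCol t (fun _ => (none : Option ℤ))
      (fun c => if c % 2 = 1 then some ((c + 1) / 2) else none) (fun c => some ((c + 1) / 2)) := by
    intro c
    constructor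
    · intro h
      rw [ht] at h
      have h1 : c % 2 = 1 := by simpa using h
      have h2 : ¬ (c - 1) % 2 = 1 := by omega
      simp [h1, h2]
    · intro h
      rw [ht] at h
      have h1 : ¬ c % 2 = 1 := by simpa using h
      have h2 : (c - 1) % 2 = 1 := by omega
      have h3 : (c - 1 + 1) / 2 = (c + 1) / 2 := by omega
      simp only [h1, h2, h3, if_true, if_false]
      simp
  apply Pat.ext
  funext x
  have h := row_inv hper P hcol (fun _ => rfl) x
  have hne := (row t P).ne x
  simp only [Option.some.injEq] at h
  rw [hs x]
  split_ifs <;> omega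

end Pool.Agent.H89.Link
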