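import Pool.Agent.H89.Link.Half
import Pool.Agent.H89.Link.Star
import Pool.Agent.H89.Perc.Prob

/-!
# LINK module `Law`: the law of the two patterns, and its limit

`pr_up_dn`: for `L = 2 n`, the bits `tB (per n ω) c r`, `0 ≤ c < L`, `-h ≤ r < h`, are the values of `ω`
(or their negations) at pairwise different edges: `per n ω (medge c r) = ω (medge' c r)` with
`medge' c r = (e.1 % n, e.2.1 + (e.1 - e.1 % n), e.2.2)`, `e = medge c r`; the map `(c, r) ↦ medge' c r` is
injective on `0 ≤ c < 2 n` (`e.1 + e.2.1 = r` and the orientation and `e.1 - e.2.1` determine `c` modulo `2 n`).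
So they are independent fair bits (`Pr half`, product measure), and the same holds for the reflected and
flipped bits of the lower half.  Then induction over the rows (the row next to the seam is applied last;
peel it off).  A convenient formulation: the probability of a set of bit arrays is
(number of arrays) / 2 ^ (2 h L); see `Pool.Agent.H89.Perc.Prob` for cylinder probabilities.
`law_tendsto`: the kernel `K P Q = 2 ^ (-L) #{t | row (bits t) P = Q}` satisfies `K P s ≥ 2 ^ (-L)` for all `P`
by `row_alt`.  For a signed/complex vector `w` with sum zero, `‖K w‖₁ ≤ (1 - 2 ^ (-L)) ‖w‖₁`.  Apply it to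
`w = law s h - v / ∑ v` (`law s h` has sum one, is the `h`-th iterate, and `v` is fixed by `Stat v`).
-/

set_option autoImplicit false

open MeasureTheory ProbabilityTheory Filter Topology

namespace Pool.Agent.H89.Link

open H56.EX
open Pool.Agent.H89.Perc (Vert Edge Config Pr half)

variable {L n : ℕ}

/-! ### Fair bits -/

open Pool.Agent.H89.Perc (LocalOn ofS ofS_apply Pr_eq_Ex)
open Pool.Agent.Perc (Ex ind ind_of ind_of_not ind_congr)

open Classical in
/-- Finitely many different edges, some of them flipped, are independent fair bits. -/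
private theorem law_bits {ι : Type*} [Fintype ι] [DecidableEq ι] (φ : ι → Edge)
    (hφ : Function.Injective φ) (sg : ι → Bool) (B : Set (ι → Bool)) :
    Pr half {ω | (fun i => xor (ω (φ i)) (sg i)) ∈ B} =
      (1 / 2) ^ Fintype.card ι * ∑ b : ι → Bool, if b ∈ B then 1 else 0 := by
  set s : Finset Edge := Finset.univ.image φ with hs
  have hloc : LocalOn s {ω | (fun i => xor (ω (φ i)) (sg i)) ∈ B} := by
    intro ω ω' h hB
    have : (fun i => xor (ω' (φ i)) (sg i)) = (fun i => xor (ω (φ i)) (sg i)) := by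
      funext i
      rw [h (φ i) (Finset.mem_image_of_mem _ (Finset.mem_univ i))]
    show (fun i => xor (ω' (φ i)) (sg i)) ∈ B
    rw [this]
    exact hB
  rw [Pr_eq_Ex hloc]
  have hcard : s.card = Fintype.card ι := by
    rw [hs, Finset.card_image_of_injective _ hφ, Finset.card_univ]
  unfold Ex
  have hhalf : ((half : unitInterval) : ℝ) = 1 / 2 := rfl
  have hterm : ∀ S ∈ s.powerset, ((half : unitInterval) : ℝ) ^ S.card *
      (1 - ((half : unitInterval) : ℝ)) ^ (s \ S).card *
      ind (fun S => ofS S ∈ {ω : Config | (fun i => xor (ω (φ i)) (sg i)) ∈ B}) S =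
      (1 / 2) ^ Fintype.card ι *
        (if (fun i => xor (decide (φ i ∈ S)) (sg i)) ∈ B then 1 else 0) := by
    intro S hS
    rw [hhalf, show (1 : ℝ) - 1 / 2 = 1 / 2 by norm_num, ← pow_add,
      Finset.card_sdiff_of_subset (Finset.mem_powerset.1 hS),
      Nat.add_sub_cancel' (Finset.card_le_card (Finset.mem_powerset.1 hS)), hcard]
    by_cases h : (fun i => xor (decide (φ i ∈ S)) (sg i)) ∈ B
    · rw [if_pos h, ind_of]
      exact h
    · rw [if_neg h, ind_of_not]
      exact h
  rw [Finset.sum_congr rfl hterm, ← Finset.mul_sum]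
  congr 1
  refine Finset.sum_bij' (fun S _ => fun i => xor (decide (φ i ∈ S)) (sg i))
    (fun b _ => (Finset.univ.filter (fun i => xor (b i) (sg i) = true)).image φ)
    ?_ ?_ ?_ ?_ ?_
  · intro S _
    exact Finset.mem_univ _
  · intro b _
    rw [Finset.mem_powerset, hs]
    exact Finset.image_subset_image (Finset.subset_univ _)
  · intro S hS
    ext e
    rw [Finset.mem_image]
    constructor
    · rintro ⟨i, hi, rfl⟩
      have := (Finset.mem_filter.1 hi).2
      simpa using this
    · intro he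
      obtain ⟨i, _, hi⟩ := Finset.mem_image.1 (Finset.mem_powerset.1 hS he)
      refine ⟨i, Finset.mem_filter.2 ⟨Finset.mem_univ _, ?_⟩, hi⟩
      show xor (xor (decide (φ i ∈ S)) (sg i)) (sg i) = true
      rw [hi]
      simp [he]
  · intro b _
    funext i
    have : φ i ∈ (Finset.univ.filter (fun i => xor (b i) (sg i) = true)).image φ ↔
        xor (b i) (sg i) = true := by
      rw [Finset.mem_image]
      constructor
      · rintro ⟨j, hj, hji⟩
        rw [← hφ hji]
        exact (Finset.mem_filter.1 hj).2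
      · intro h
        exact ⟨i, Finset.mem_filter.2 ⟨Finset.mem_univ _, h⟩, rfl⟩
    simp only [this]
    cases b i <;> cases sg i <;> rfl
  · intro S _
    rfl

/-! ### Patterns of arrays of bits -/

/-- The pattern below the rows `b 0` (lowest), `b 1`, … -/
private noncomputable def law_hp (s : Pat L) : (h : ℕ) → (Fin h → Fin L → Bool) → Pat L
  | 0, _ => s
  | h + 1, b => row (bits (b 0)) (law_hp s h (fun i => b i.succ))

private theorem law_bits_apply {t : ℤ → Bool} {c : ℤ} (h0 : 0 ≤ c) (h1 : c < L) :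
    bits (fun x : Fin L => t ((x : ℕ) : ℤ)) c = t c := by
  have hc : c % (L : ℤ) = c := Int.emod_eq_of_lt h0 h1
  unfold bits
  have h2 : (c % (L : ℤ)).toNat < L := by rw [hc]; omega
  rw [dif_pos h2]
  show t (((c % (L : ℤ)).toNat : ℕ) : ℤ) = t c
  rw [hc, Int.toNat_of_nonneg h0]

private theorem law_halfP (s : Pat L) (t : ℤ → ℤ → Bool) (h : ℕ) (r : ℤ) :
    halfP s t h r = law_hp s h (fun i c => t ((c : ℕ) : ℤ) (r + ((i : ℕ) : ℤ))) := by
  induction h generalizing r with
  | zero => rfl
  | succ h ih =>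
    show row (fun c => t c r) (halfP s t h (r + 1)) = row _ _
    rw [ih (r + 1)]
    have h1 : (fun (i : Fin h) (c : Fin L) => t ((c : ℕ) : ℤ) (r + 1 + ((i : ℕ) : ℤ))) =
        (fun (i : Fin h) (c : Fin L) => t ((c : ℕ) : ℤ) (r + ((i.succ : ℕ) : ℤ))) := by
      funext i c
      congr 1
      rw [Fin.val_succ]
      push_cast
      ring
    rw [h1]
    apply row_congr
    intro c hc0 hc1
    have h2 := law_bits_apply (t := fun c => t c (r + (((0 : Fin (h + 1)) : ℕ) : ℤ))) hc0 hc1
    rw [h2]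
    simp

open Classical in
private theorem law_eq_sum (s : Pat L) (h : ℕ) (Q : Pat L) :
    law s h Q = (1 / 2) ^ (h * L) *
      ∑ b : Fin h → Fin L → Bool, if law_hp s h b = Q then (1 : ℝ) else 0 := by
  induction h generalizing Q with
  | zero =>
    have h0 : ∀ b : Fin 0 → Fin L → Bool, law_hp s 0 b = s := fun _ => rfl
    show (if Q = s then (1 : ℝ) else 0) = _
    rw [zero_mul, pow_zero, one_mul, Fintype.sum_unique, h0]
    by_cases hQ : Q = s
    · rw [if_pos hQ, if_pos hQ.symm]
    · rw [if_neg hQ, if_neg (Ne.symm hQ)]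
  | succ h ih =>
    show (1 / 2) ^ L * ∑ t : Fin L → Bool, ∑ P : Pat L,
      (if row (bits t) P = Q then law s h P else 0) = _
    have h1 : (∑ b : Fin (h + 1) → Fin L → Bool, if law_hp s (h + 1) b = Q then (1 : ℝ) else 0) =
        ∑ t : Fin L → Bool, ∑ b : Fin h → Fin L → Bool,
          if row (bits t) (law_hp s h b) = Q then (1 : ℝ) else 0 := by
      rw [← Fintype.sum_prod_type' (f := fun (t : Fin L → Bool) (b : Fin h → Fin L → Bool) =>
        if row (bits t) (law_hp s h b) = Q then (1 : ℝ) else 0)]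
      symm
      refine Fintype.sum_equiv (Fin.consEquiv (fun _ => Fin L → Bool)) _ _ ?_
      rintro ⟨t, b⟩
      rfl
    rw [h1, Nat.succ_mul, pow_add, mul_comm ((1 / 2 : ℝ) ^ (h * L)), mul_assoc]
    congr 1
    rw [Finset.mul_sum]
    apply Finset.sum_congr rfl
    intro t _
    have h2 : ∀ b : Fin h → Fin L → Bool,
        (if row (bits t) (law_hp s h b) = Q then (1 : ℝ) else 0) =
        ∑ P : Pat L, if row (bits t) P = Q then (if law_hp s h b = P then (1 : ℝ) else 0)
          else 0 := by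
      intro b
      rw [Finset.sum_eq_single (law_hp s h b)]
      · simp
      · intro P _ hP
        have h4 : ¬ law_hp s h b = P := Ne.symm hP
        simp only [if_neg h4, ite_self]
      · intro hcon
        exact absurd (Finset.mem_univ _) hcon
    rw [Finset.sum_congr rfl (fun b _ => h2 b), Finset.sum_comm, Finset.mul_sum]
    apply Finset.sum_congr rfl
    intro P _
    by_cases h3 : row (bits t) P = Q
    · simp only [if_pos h3]
      exact ih P
    · simp only [if_neg h3]
      simp

/-! ### The edges -/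

/-- representative of the edge `medge c r` in the fundamental strip -/
private def law_me (n : ℕ) (c r : ℤ) : Edge :=
  ((medge c r).1 % n, (medge c r).2.1 + ((medge c r).1 - (medge c r).1 % n), (medge c r).2.2)

private theorem law_per_me (n : ℕ) (ω : Config) (c r : ℤ) :
    per n ω (medge c r) = ω (law_me n c r) := rfl

private theorem law_tB (n : ℕ) (ω : Config) (c r : ℤ) :
    tB (per n ω) c r = xor (ω (law_me n c r)) (decide ((c + r) % 2 ≠ 0)) := by
  unfold tB
  rw [law_per_me]
  by_cases h : (c + r) % 2 = 0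
  · rw [if_pos h]
    simp [h]
  · rw [if_neg h]
    simp [h]

private theorem law_me_inj {n : ℕ} {c r c' r' : ℤ} (h0 : 0 ≤ c) (h1 : c < 2 * n)
    (h0' : 0 ≤ c') (h1' : c' < 2 * n) (h : law_me n c r = law_me n c' r') : c = c' ∧ r = r' := by
  unfold law_me at h
  simp only [Prod.mk.injEq] at h
  obtain ⟨e1, e2, e3⟩ := h
  have hr : r = r' := by
    have a1 : (medge c r).1 + (medge c r).2.1 = r := by
      unfold medge
      split_ifs with h2
      · show (c + r) / 2 + (r - c) / 2 = r
        omega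
      · show (c + r + 1) / 2 + (r - c - 1) / 2 = r
        omega
    have a2 : (medge c' r').1 + (medge c' r').2.1 = r' := by
      unfold medge
      split_ifs with h2
      · show (c' + r') / 2 + (r' - c') / 2 = r'
        omega
      · show (c' + r' + 1) / 2 + (r' - c' - 1) / 2 = r'
        omega
    omega
  subst hr
  refine ⟨?_, rfl⟩
  have hmod : (n : ℤ) ∣ (medge c r).1 - (medge c' r).1 := Int.ModEq.dvd e1.symm
  obtain ⟨k, hk⟩ := hmod
  have hdiff : c - c' = 2 * ((medge c r).1 - (medge c' r).1) := by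
    unfold medge at e3 ⊢
    by_cases h2 : (c + r) % 2 = 0
    · by_cases h3 : (c' + r) % 2 = 0
      · rw [if_pos h2, if_pos h3]
        show c - c' = 2 * ((c + r) / 2 - (c' + r) / 2)
        omega
      · rw [if_pos h2, if_neg h3] at e3
        exact absurd e3 (by simp)
    · by_cases h3 : (c' + r) % 2 = 0
      · rw [if_neg h2, if_pos h3] at e3
        exact absurd e3 (by simp)
      · rw [if_neg h2, if_neg h3]
        show c - c' = 2 * ((c + r + 1) / 2 - (c' + r + 1) / 2)
        omega
  rw [hk] at hdiff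
  have hk0 : k = 0 := by
    by_contra hk0
    rcases lt_or_gt_of_ne hk0 with hk1 | hk1
    · have : (n : ℤ) * k ≤ -n := by nlinarith
      omega
    · have : (n : ℤ) * k ≥ n := by nlinarith
      omega
  rw [hk0] at hdiff
  omega

open Classical in
theorem pr_up_dn (hL : L = 2 * n) (hn : 1 ≤ n) (s : Pat L) (h : ℕ) (A : Set (Pat L × Pat L)) :
    Pr half {ω | (up s n h ω, dn s n h ω) ∈ A} =
      ∑ P : Pat L, ∑ Q : Pat L, if (P, Q) ∈ A then law s h P * law s h Q else 0 := by
  have _ := hn
  -- the index set and the edges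
  let ι := (Fin h × Fin L) ⊕ (Fin h × Fin L)
  let rw' : ι → ℤ := Sum.elim (fun x => ((x.1 : ℕ) : ℤ)) (fun x => -1 - ((x.1 : ℕ) : ℤ))
  let cl : ι → ℤ := Sum.elim (fun x => ((x.2 : ℕ) : ℤ)) (fun x => ((x.2 : ℕ) : ℤ))
  let φ : ι → Edge := fun i => law_me n (cl i) (rw' i)
  let sg : ι → Bool := Sum.elim
    (fun x => decide ((((x.2 : ℕ) : ℤ) + ((x.1 : ℕ) : ℤ)) % 2 ≠ 0))
    (fun x => !decide ((((x.2 : ℕ) : ℤ) + (-1 - ((x.1 : ℕ) : ℤ))) % 2 ≠ 0))
  have hcl : ∀ i : ι, 0 ≤ cl i ∧ cl i < 2 * n := by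
    rintro (⟨x, y⟩ | ⟨x, y⟩)
    · have := y.2
      show 0 ≤ ((y : ℕ) : ℤ) ∧ ((y : ℕ) : ℤ) < 2 * n
      omega
    · have := y.2
      show 0 ≤ ((y : ℕ) : ℤ) ∧ ((y : ℕ) : ℤ) < 2 * n
      omega
  have hφ : Function.Injective φ := by
    intro i j hij
    obtain ⟨hc, hr⟩ := law_me_inj (hcl i).1 (hcl i).2 (hcl j).1 (hcl j).2 hij
    rcases i with ⟨x, y⟩ | ⟨x, y⟩ <;> rcases j with ⟨x', y'⟩ | ⟨x', y'⟩
    · have h1 : ((y : ℕ) : ℤ) = ((y' : ℕ) : ℤ) := hc
      have h2 : ((x : ℕ) : ℤ) = ((x' : ℕ) : ℤ) := hr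
      have h3 : y = y' := Fin.ext (by omega)
      have h4 : x = x' := Fin.ext (by omega)
      rw [h3, h4]
    · have h2 : ((x : ℕ) : ℤ) = -1 - ((x' : ℕ) : ℤ) := hr
      omega
    · have h2 : -1 - ((x : ℕ) : ℤ) = ((x' : ℕ) : ℤ) := hr
      omega
    · have h1 : ((y : ℕ) : ℤ) = ((y' : ℕ) : ℤ) := hc
      have h2 : -1 - ((x : ℕ) : ℤ) = -1 - ((x' : ℕ) : ℤ) := hr
      have h3 : y = y' := Fin.ext (by omega)
      have h4 : x = x' := Fin.ext (by omega)
      rw [h3, h4]
  let B : Set (ι → Bool) := {b | (law_hp s h (fun i c => b (Sum.inl (i, c))),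
    law_hp s h (fun i c => b (Sum.inr (i, c)))) ∈ A}
  have hset : {ω : Config | (up s n h ω, dn s n h ω) ∈ A} =
      {ω | (fun i => xor (ω (φ i)) (sg i)) ∈ B} := by
    ext ω
    have h1 : up s n h ω = law_hp s h
        (fun i c => xor (ω (φ (Sum.inl (i, c)))) (sg (Sum.inl (i, c)))) := by
      unfold up
      rw [law_halfP]
      congr 1
      funext i c
      rw [law_tB]
      show xor (ω (law_me n ((c : ℕ) : ℤ) (0 + ((i : ℕ) : ℤ))))
        (decide ((((c : ℕ) : ℤ) + (0 + ((i : ℕ) : ℤ))) % 2 ≠ 0)) =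
        xor (ω (law_me n ((c : ℕ) : ℤ) ((i : ℕ) : ℤ)))
          (decide ((((c : ℕ) : ℤ) + ((i : ℕ) : ℤ)) % 2 ≠ 0))
      rw [zero_add]
    have h2 : dn s n h ω = law_hp s h
        (fun i c => xor (ω (φ (Sum.inr (i, c)))) (sg (Sum.inr (i, c)))) := by
      unfold dn
      rw [law_halfP]
      congr 1
      funext i c
      rw [law_tB]
      show (!xor (ω (law_me n ((c : ℕ) : ℤ) (-1 - (0 + ((i : ℕ) : ℤ)))))
        (decide ((((c : ℕ) : ℤ) + (-1 - (0 + ((i : ℕ) : ℤ)))) % 2 ≠ 0))) =
        xor (ω (law_me n ((c : ℕ) : ℤ) (-1 - ((i : ℕ) : ℤ))))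
          (!decide ((((c : ℕ) : ℤ) + (-1 - ((i : ℕ) : ℤ))) % 2 ≠ 0))
      rw [zero_add]
      generalize ω (law_me n ((c : ℕ) : ℤ) (-1 - ((i : ℕ) : ℤ))) = a
      generalize decide ((((c : ℕ) : ℤ) + (-1 - ((i : ℕ) : ℤ))) % 2 ≠ 0) = b
      cases a <;> cases b <;> rfl
    show (up s n h ω, dn s n h ω) ∈ A ↔ _
    rw [h1, h2]
    exact Iff.rfl
  rw [hset, law_bits φ hφ sg B]
  have hcard : Fintype.card ι = h * L + h * L := by
    show Fintype.card ((Fin h × Fin L) ⊕ (Fin h × Fin L)) = _
    rw [Fintype.card_sum, Fintype.card_prod, Fintype.card_fin, Fintype.card_fin]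
  rw [hcard]
  -- arrays
  have hsum : (∑ b : ι → Bool, if b ∈ B then (1 : ℝ) else 0) =
      ∑ b : Fin h → Fin L → Bool, ∑ b' : Fin h → Fin L → Bool,
        if (law_hp s h b, law_hp s h b') ∈ A then (1 : ℝ) else 0 := by
    rw [← Fintype.sum_prod_type' (f := fun (b b' : Fin h → Fin L → Bool) =>
      if (law_hp s h b, law_hp s h b') ∈ A then (1 : ℝ) else 0)]
    refine Fintype.sum_equiv ((Equiv.sumArrowEquivProdArrow _ _ _).trans
      (Equiv.prodCongr (Equiv.curry _ _ _) (Equiv.curry _ _ _))) _ _ ?_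
    intro b
    rfl
  rw [hsum]
  have hexp : ∀ P Q : Pat L, (if (P, Q) ∈ A then law s h P * law s h Q else 0) =
      (1 / 2) ^ (h * L + h * L) * ∑ b : Fin h → Fin L → Bool, ∑ b' : Fin h → Fin L → Bool,
        if law_hp s h b = P then (if law_hp s h b' = Q then (if (P, Q) ∈ A then (1 : ℝ) else 0)
          else 0) else 0 := by
    intro P Q
    rw [law_eq_sum s h P, law_eq_sum s h Q, pow_add]
    by_cases hPQ : (P, Q) ∈ A
    · simp only [if_pos hPQ]
      have h5 : (∑ b : Fin h → Fin L → Bool, ∑ b' : Fin h → Fin L → Bool,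
          if law_hp s h b = P then (if law_hp s h b' = Q then (1 : ℝ) else 0) else 0) =
          (∑ b : Fin h → Fin L → Bool, if law_hp s h b = P then (1 : ℝ) else 0) *
          ∑ b' : Fin h → Fin L → Bool, if law_hp s h b' = Q then (1 : ℝ) else 0 := by
        rw [Finset.sum_mul]
        apply Finset.sum_congr rfl
        intro b _
        by_cases hb : law_hp s h b = P
        · simp only [if_pos hb, one_mul]
        · simp only [if_neg hb, zero_mul, Finset.sum_const_zero]
      rw [h5]
      ring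
    · simp only [if_neg hPQ, ite_self, Finset.sum_const_zero, mul_zero]
  rw [Finset.sum_congr rfl (fun P _ => Finset.sum_congr rfl (fun Q _ => hexp P Q))]
  simp only [← Finset.mul_sum]
  congr 1
  let f : Pat L → Pat L → (Fin h → Fin L → Bool) → (Fin h → Fin L → Bool) → ℝ :=
    fun P Q b b' => if law_hp s h b = P then
      (if law_hp s h b' = Q then (if (P, Q) ∈ A then (1 : ℝ) else 0) else 0) else 0
  symm
  calc ∑ P : Pat L, ∑ Q : Pat L, ∑ b : Fin h → Fin L → Bool, ∑ b' : Fin h → Fin L → Bool,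
        f P Q b b'
      = ∑ P : Pat L, ∑ b : Fin h → Fin L → Bool, ∑ Q : Pat L, ∑ b' : Fin h → Fin L → Bool,
        f P Q b b' := Finset.sum_congr rfl (fun P _ => Finset.sum_comm)
    _ = ∑ b : Fin h → Fin L → Bool, ∑ P : Pat L, ∑ Q : Pat L, ∑ b' : Fin h → Fin L → Bool,
        f P Q b b' := Finset.sum_comm
    _ = ∑ b : Fin h → Fin L → Bool, ∑ P : Pat L, ∑ b' : Fin h → Fin L → Bool, ∑ Q : Pat L,
        f P Q b b' :=
        Finset.sum_congr rfl (fun b _ => Finset.sum_congr rfl (fun P _ => Finset.sum_comm))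
    _ = ∑ b : Fin h → Fin L → Bool, ∑ b' : Fin h → Fin L → Bool, ∑ P : Pat L, ∑ Q : Pat L,
        f P Q b b' := Finset.sum_congr rfl (fun b _ => Finset.sum_comm)
    _ = ∑ b : Fin h → Fin L → Bool, ∑ b' : Fin h → Fin L → Bool,
        if (law_hp s h b, law_hp s h b') ∈ A then (1 : ℝ) else 0 := by
        apply Finset.sum_congr rfl
        intro b _
        apply Finset.sum_congr rfl
        intro b' _
        rw [Finset.sum_eq_single (law_hp s h b), Finset.sum_eq_single (law_hp s h b')]
        · simp [f]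
        · intro Q _ hQ
          have h7 : ¬ law_hp s h b' = Q := Ne.symm hQ
          simp only [f, if_neg h7, ite_self]
        · intro hcon
          exact absurd (Finset.mem_univ _) hcon
        · intro P _ hP
          have h7 : ¬ law_hp s h b = P := Ne.symm hP
          simp only [f, if_neg h7, Finset.sum_const_zero]
        · intro hcon
          exact absurd (Finset.mem_univ _) hcon

/-! ### Convergence -/

open Classical in
/-- transition probabilities -/
private noncomputable def law_K (P Q : Pat L) : ℝ :=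
  (1 / 2) ^ L * ∑ t : Fin L → Bool, if row (bits t) P = Q then (1 : ℝ) else 0

private theorem law_K_nonneg (P Q : Pat L) : 0 ≤ law_K P Q := by
  unfold law_K
  apply mul_nonneg (by positivity)
  apply Finset.sum_nonneg
  intro t _
  split_ifs <;> norm_num

private theorem law_K_sum (P : Pat L) : ∑ Q : Pat L, law_K P Q = 1 := by
  classical
  unfold law_K
  rw [← Finset.mul_sum, Finset.sum_comm]
  have h1 : ∀ t : Fin L → Bool, (∑ Q : Pat L, if row (bits t) P = Q then (1 : ℝ) else 0) = 1 := by
    intro t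
    rw [Finset.sum_eq_single (row (bits t) P)]
    · simp
    · intro Q _ hQ
      rw [if_neg (fun e => hQ e.symm)]
    · intro hcon
      exact absurd (Finset.mem_univ _) hcon
  rw [Finset.sum_congr rfl (fun t _ => h1 t)]
  simp only [Finset.sum_const, Finset.card_univ, Fintype.card_fun, Fintype.card_bool,
    Fintype.card_fin, nsmul_eq_mul, mul_one]
  push_cast
  rw [← mul_pow]
  norm_num

private theorem law_K_law (s : Pat L) (h : ℕ) (Q : Pat L) :
    law s (h + 1) Q = ∑ P : Pat L, law_K P Q * law s h P := by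
  classical
  show (1 / 2) ^ L * ∑ t : Fin L → Bool, ∑ P : Pat L,
      (if row (bits t) P = Q then law s h P else 0) = _
  unfold law_K
  rw [Finset.sum_comm, Finset.mul_sum]
  apply Finset.sum_congr rfl
  intro P _
  rw [mul_assoc, Finset.sum_mul]
  congr 1
  apply Finset.sum_congr rfl
  intro t _
  split_ifs <;> simp

private theorem law_K_stat {v : Pat L → ℂ} (hv : Stat v) (Q : Pat L) :
    ∑ P : Pat L, (law_K P Q : ℂ) * v P = v Q := by
  classical
  have h1 := hv Q
  unfold pushRow at h1
  rw [Finset.sum_comm] at h1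
  have h2 : ∑ P : Pat L, (law_K P Q : ℂ) * v P = (1 / 2) ^ L * ∑ P : Pat L,
      ∑ t : Fin L → Bool, if row (bits t) P = Q then v P else 0 := by
    rw [Finset.mul_sum]
    apply Finset.sum_congr rfl
    intro P _
    unfold law_K
    push_cast
    rw [mul_assoc, Finset.sum_mul]
    congr 1
    apply Finset.sum_congr rfl
    intro t _
    split_ifs <;> simp
  rw [h2, h1, ← mul_assoc, ← mul_pow]
  norm_num

private theorem law_sum_one (s : Pat L) (h : ℕ) : ∑ Q : Pat L, law s h Q = 1 := by
  classical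
  induction h with
  | zero =>
    show (∑ Q : Pat L, if Q = s then (1 : ℝ) else 0) = 1
    rw [Finset.sum_eq_single s]
    · simp
    · intro Q _ hQ
      rw [if_neg hQ]
    · intro hcon
      exact absurd (Finset.mem_univ _) hcon
  | succ h ih =>
    rw [Finset.sum_congr rfl (fun Q _ => law_K_law s h Q), Finset.sum_comm]
    have : ∀ P : Pat L, ∑ Q : Pat L, law_K P Q * law s h P = law s h P := by
      intro P
      rw [← Finset.sum_mul, law_K_sum, one_mul]
    rw [Finset.sum_congr rfl (fun P _ => this P), ih]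

private theorem law_K_star (hL : L = 2 * n) (hn : 1 ≤ n) {s : Pat L} (hs : IsStar s)
    (P : Pat L) : (1 / 2) ^ L ≤ law_K P s := by
  classical
  unfold law_K
  have h1 : (1 : ℝ) ≤ ∑ t : Fin L → Bool, if row (bits t) P = s then (1 : ℝ) else 0 := by
    let t0 : Fin L → Bool := fun c => decide ((((c : ℕ) : ℤ)) % 2 = 1)
    have hbits : ∀ c : ℤ, bits t0 c = decide (c % 2 = 1) := by
      intro c
      have hLpos : (0 : ℤ) < L := by omega
      have h2 : 0 ≤ c % (L : ℤ) := Int.emod_nonneg _ (by omega)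
      have h3 : c % (L : ℤ) < L := Int.emod_lt_of_pos _ hLpos
      unfold bits
      rw [dif_pos (by omega)]
      show decide ((((c % (L : ℤ)).toNat : ℕ) : ℤ) % 2 = 1) = decide (c % 2 = 1)
      rw [Int.toNat_of_nonneg h2]
      have h4 : c % (L : ℤ) % 2 = c % 2 := by
        apply Int.emod_emod_of_dvd
        exact ⟨n, by rw [hL]; push_cast; ring⟩
      rw [h4]
    have h5 : row (bits t0) P = s := row_alt hL hs P hbits
    have h6 := Finset.single_le_sum
      (f := fun t : Fin L → Bool => if row (bits t) P = s then (1 : ℝ) else 0)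
      (fun t _ => by split_ifs <;> norm_num) (Finset.mem_univ t0)
    simp only [h5, if_true] at h6
    exact h6
  calc (1 / 2 : ℝ) ^ L = (1 / 2) ^ L * 1 := (mul_one _).symm
    _ ≤ _ := mul_le_mul_of_nonneg_left h1 (by positivity)

theorem law_tendsto (hL : L = 2 * n) (hn : 1 ≤ n) {s : Pat L} (hs : IsStar s) {v : Pat L → ℂ}
    (hv : Stat v) (hS : ∑ P, v P ≠ 0) (Q : Pat L) :
    Tendsto (fun h : ℕ => (law s h Q : ℂ)) atTop (𝓝 (v Q / ∑ P, v P)) := by
  classical
  set S := ∑ P, v P with hSdef
  set ε : ℝ := (1 / 2) ^ L with hε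
  have hε0 : 0 < ε := by positivity
  have hε1 : ε ≤ 1 := pow_le_one₀ (by norm_num) (by norm_num)
  let w : ℕ → Pat L → ℂ := fun h Q => (law s h Q : ℂ) - v Q / S
  have hw0 : ∀ h, ∑ Q, w h Q = 0 := by
    intro h
    show ∑ Q, ((law s h Q : ℂ) - v Q / S) = 0
    rw [Finset.sum_sub_distrib, ← Finset.sum_div, ← hSdef, div_self hS]
    have := law_sum_one s h
    have h2 : ∑ Q : Pat L, (law s h Q : ℂ) = 1 := by
      exact_mod_cast this
    rw [h2, sub_self]
  have hrec : ∀ h Q, w (h + 1) Q = ∑ P, ((law_K P Q - if Q = s then ε else 0 : ℝ) : ℂ) * w h P := by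
    intro h Q
    have h1 : ∑ P, ((law_K P Q - if Q = s then ε else 0 : ℝ) : ℂ) * w h P =
        ∑ P, (law_K P Q : ℂ) * w h P - ((if Q = s then ε else 0 : ℝ) : ℂ) * ∑ P, w h P := by
      rw [Finset.mul_sum, ← Finset.sum_sub_distrib]
      apply Finset.sum_congr rfl
      intro P _
      push_cast
      ring
    rw [h1, hw0, mul_zero, sub_zero]
    show (law s (h + 1) Q : ℂ) - v Q / S = ∑ P, (law_K P Q : ℂ) * ((law s h P : ℂ) - v P / S)
    have h2 : ∑ P, (law_K P Q : ℂ) * ((law s h P : ℂ) - v P / S) =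
        ∑ P, (law_K P Q : ℂ) * (law s h P : ℂ) - (∑ P, (law_K P Q : ℂ) * v P) / S := by
      rw [Finset.sum_div, ← Finset.sum_sub_distrib]
      apply Finset.sum_congr rfl
      intro P _
      ring
    rw [h2, law_K_stat hv Q, law_K_law]
    push_cast
    rfl
  have hcoef : ∀ P Q : Pat L, 0 ≤ law_K P Q - if Q = s then ε else 0 := by
    intro P Q
    by_cases hQ : Q = s
    · rw [if_pos hQ, hQ]
      exact sub_nonneg.2 (law_K_star hL hn hs P)
    · rw [if_neg hQ, sub_zero]
      exact law_K_nonneg P Q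
  have hcoefsum : ∀ P : Pat L, ∑ Q : Pat L, (law_K P Q - if Q = s then ε else 0) = 1 - ε := by
    intro P
    rw [Finset.sum_sub_distrib, law_K_sum, Finset.sum_ite_eq' Finset.univ s (fun _ => ε)]
    simp
  have hcontr : ∀ h, ∑ Q, ‖w (h + 1) Q‖ ≤ (1 - ε) * ∑ P, ‖w h P‖ := by
    intro h
    calc ∑ Q, ‖w (h + 1) Q‖
        ≤ ∑ Q, ∑ P, (law_K P Q - if Q = s then ε else 0) * ‖w h P‖ := by
          apply Finset.sum_le_sum
          intro Q _
          rw [hrec h Q]
          refine (norm_sum_le _ _).trans ?_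
          apply Finset.sum_le_sum
          intro P _
          rw [norm_mul, Complex.norm_real, Real.norm_eq_abs, abs_of_nonneg (hcoef P Q)]
      _ = ∑ P, (1 - ε) * ‖w h P‖ := by
          rw [Finset.sum_comm]
          apply Finset.sum_congr rfl
          intro P _
          rw [← Finset.sum_mul, hcoefsum]
      _ = (1 - ε) * ∑ P, ‖w h P‖ := by rw [Finset.mul_sum]
  have hbound : ∀ h, ∑ Q, ‖w h Q‖ ≤ (1 - ε) ^ h * ∑ Q, ‖w 0 Q‖ := by
    intro h
    induction h with
    | zero => simp
    | succ h ih =>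
      calc ∑ Q, ‖w (h + 1) Q‖ ≤ (1 - ε) * ∑ P, ‖w h P‖ := hcontr h
        _ ≤ (1 - ε) * ((1 - ε) ^ h * ∑ Q, ‖w 0 Q‖) :=
          mul_le_mul_of_nonneg_left ih (by linarith)
        _ = (1 - ε) ^ (h + 1) * ∑ Q, ‖w 0 Q‖ := by ring
  have hlim : Tendsto (fun h : ℕ => (1 - ε) ^ h * ∑ Q, ‖w 0 Q‖) atTop (𝓝 0) := by
    have h1 : Tendsto (fun h : ℕ => (1 - ε) ^ h) atTop (𝓝 0) :=
      tendsto_pow_atTop_nhds_zero_of_lt_one (by linarith) (by linarith)
    simpa using h1.mul_const (∑ Q, ‖w 0 Q‖)
  rw [tendsto_iff_norm_sub_tendsto_zero]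
  refine squeeze_zero (fun h => norm_nonneg _) (fun h => ?_) hlim
  refine le_trans ?_ (hbound h)
  exact Finset.single_le_sum (f := fun Q => ‖w h Q‖) (fun _ _ => norm_nonneg _)
    (Finset.mem_univ Q)

end Pool.Agent.H89.Link
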