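import Pool.Agent.H89.Link.Defs

/-!
# LINK module `Row`: colours are transported by the row map

Proof of `row_inv`.  All facts hold on the universal covers; colours are NOT assumed periodic.
1. (`cap_spec`) for `2 ≤ L`: `E i P` has a small arc at `i` (`E.self`), so `exists_ins` gives
   `E i P = ins i (cap i P Q0)`.
2. (`E_inv`) if `f (P.m x) = f x` for all `x`, `g x = f x` for `x` not congruent to `i`, `i + 1`
   (mod `L`), and for every `y` congruent to `i`: `f y = f (y + 1)` and `g y = g (y + 1)`, then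
   `g ((E i P).m x) = g x` (cases of `tl`, `H56.EX.tl_cases` or `E.of_i`, `E.of_succ`, `E.of_m`,
   `E.of_m_succ`, `E.other`, `E.mem_not`).
3. (`ins_inv`) if `f (phi L i y) = g y`, `g (P.m y) = g y` and `f y = f (y + 1)` for `y` congruent to `i`
   mod `L + 2`, then `f ((ins i P).m x) = f x`; conversely if `f ((ins i P).m x) = f x` for all `x` then
   `f (phi L i (P.m y)) = f (phi L i y)`.
4. Colour of position `X = (L + 2) j + s`, `0 ≤ s < L + 2`, when the wire has passed the columns
   `0, …, k - 1`:  `s = 0`: `hor (j L - 1)`;  `1 ≤ s ≤ k`: `bot (j L + s - 1)`;  `s = k + 1`: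
   `hor (j L + k - 1)`;  `k + 2 ≤ s ≤ L + 1`: `top (j L + s - 2)`.
   Step `k → k + 1` changes only the positions `s = k + 1, k + 2`: from `hor (j L + k - 1), top (j L + k)` to
   `bot (j L + k), hor (j L + k)`; if `t k = true` use `E_inv` with `i = k + 1`, if `t k = false` nothing
   changes.  (`t (j L + k) = t k` by periodicity.)
5. At the end (`k = L`) the positions `(L+2) j - 1` and `(L+2) j` both have colour `hor (j L - 1)`; use
   `E_inv` with `i = -1`, then `cap_spec` and the second part of 3; the position `(L+2) j + c + 1`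
   (`0 ≤ c < L`) is `phi L (-1) (j L + c - 1)`; finally `rot` shifts by one.
-/

set_option autoImplicit false

namespace Pool.Agent.H89.Link

open H56.EX

variable {L : ℕ} {T : Type*}

theorem cap_spec (hL : 2 ≤ L) (i : ℤ) (P : Pat (L + 2)) (Q0 : Pat L) :
    E i P = ins i (cap i P Q0) := by
  have h : ∃ Q : Pat L, E i P = ins i Q := exists_ins hL i (E i P) (E.self P i)
  unfold cap
  rw [dif_pos h]
  exact h.choose_spec

/-- Colours and the move `E i`. -/
lemma E_inv {N : ℕ} {i : ℤ} {P : Pat N} {f g : ℤ → T} (hf : ∀ x, f (P.m x) = f x)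
    (hfi : ∀ y, Cg N y i → f y = f (y + 1)) (hgi : ∀ y, Cg N y i → g y = g (y + 1))
    (hg : ∀ x, ¬ Cg N x i → ¬ Cg N x (i + 1) → g x = f x) (x : ℤ) :
    g ((E i P).m x) = g x := by
  by_cases h1 : Cg N x i
  · rw [E.of_i P i h1]; exact (hgi x h1).symm
  by_cases h2 : Cg N x (i + 1)
  · rw [E.of_succ P i h2]
    have h3 : Cg N (x - 1) i := by
      have := Cg.sub 1 h2
      rwa [show i + 1 - 1 = i by ring] at this
    have := hgi (x - 1) h3
    rwa [show x - 1 + 1 = x by ring] at this
  obtain ⟨m1, m2⟩ := E.mem_not P i h1 h2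
  rw [hg x h1 h2, hg _ m1 m2]
  by_cases h3 : Cg N (P.m x) i
  · rw [E.of_m P i h1 h2 h3, hf, ← hfi _ h3, hf]
  by_cases h4 : Cg N (P.m x) (i + 1)
  · rw [E.of_m_succ P i h1 h2 h4, hf]
    have h5 : Cg N (P.m x - 1) i := by
      have := Cg.sub 1 h4
      rwa [show i + 1 - 1 = i by ring] at this
    rw [hfi _ h5, show P.m x - 1 + 1 = P.m x by ring, hf]
  · rw [E.other P i h1 h2 h3 h4, hf]

/-- Colours and the insertion of a small arc. -/
lemma ins_inv {i : ℤ} {P : Pat L} {f g : ℤ → T} (hfg : ∀ y, f (phi L i y) = g y)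
    (hg : ∀ y, g (P.m y) = g y) (hfi : ∀ y, Cg (L + 2) y i → f y = f (y + 1)) (x : ℤ) :
    f ((ins i P).m x) = f x := by
  have hL : 1 ≤ L := le_trans (by norm_num) P.two_le
  rcases pos_cases hL i x with h | h | ⟨y, rfl⟩
  · rw [ins_i i P h]; exact (hfi x h).symm
  · rw [ins_succ i P h]
    have h3 : Cg (L + 2) (x - 1) i := by
      have := Cg.sub 1 h
      rwa [show i + 1 - 1 = i by ring] at this
    have := hfi (x - 1) h3
    rwa [show x - 1 + 1 = x by ring] at this
  · rw [ins_phi, hfg, hfg, hg]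

/-- Colour of the position `(L + 2) j + s` when the wire has passed the columns `0, …, k - 1`. -/
def wcol (L : ℕ) (top hor bot : ℤ → T) (k : ℕ) (x : ℤ) : T :=
  if x % ((L : ℤ) + 2) = 0 then hor (x / ((L : ℤ) + 2) * L - 1)
  else if x % ((L : ℤ) + 2) ≤ k then bot (x / ((L : ℤ) + 2) * L + x % ((L : ℤ) + 2) - 1)
  else if x % ((L : ℤ) + 2) = k + 1 then hor (x / ((L : ℤ) + 2) * L + k - 1)
  else top (x / ((L : ℤ) + 2) * L + x % ((L : ℤ) + 2) - 2)

lemma wcol_form (top hor bot : ℤ → T) (k : ℕ) (j s : ℤ) (h0 : 0 ≤ s) (h1 : s < L + 2) :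
    wcol L top hor bot k (s + (L + 2) * j) =
      if s = 0 then hor (j * L - 1)
      else if s ≤ k then bot (j * L + s - 1)
      else if s = k + 1 then hor (j * L + k - 1)
      else top (j * L + s - 2) := by
  have e1 : (s + ((L : ℤ) + 2) * j) % ((L : ℤ) + 2) = s := by
    rw [show s + ((L : ℤ) + 2) * j = s + j * ((L : ℤ) + 2) by ring, Int.add_mul_emod_self_right]
    exact Int.emod_eq_of_lt h0 h1
  have e2 : (s + ((L : ℤ) + 2) * j) / ((L : ℤ) + 2) = j := by
    rw [show s + ((L : ℤ) + 2) * j = s + j * ((L : ℤ) + 2) by ring,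
      Int.add_mul_ediv_right _ _ (by omega), Int.ediv_eq_zero_of_lt h0 h1]
    ring
  unfold wcol
  rw [e1, e2]

lemma exists_pos_form (L : ℕ) (x : ℤ) :
    ∃ j s : ℤ, 0 ≤ s ∧ s < (L : ℤ) + 2 ∧ x = s + ((L : ℤ) + 2) * j := by
  obtain ⟨a, r, h0, h1, h2⟩ := exists_form (N := ((L : ℤ) + 2)) (by omega) 0 x
  exact ⟨a, r, h0, h1, by rw [h2]; ring⟩

lemma Cg_form {L : ℕ} {j s i : ℤ} : Cg (L + 2) (s + ((L : ℤ) + 2) * j) i ↔ Cg (L + 2) s i := by
  unfold Cg
  push_cast
  rw [show s + ((L : ℤ) + 2) * j - i = (s - i) + ((L : ℤ) + 2) * j by ring]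
  exact (Int.dvd_add_left (Dvd.intro _ rfl))

lemma Cg_small {L : ℕ} {s i : ℤ} (h0 : 0 ≤ s) (h1 : s < (L : ℤ) + 2) (h2 : 0 ≤ i)
    (h3 : i < (L : ℤ) + 2) (h : Cg (L + 2) s i) : s = i := by
  unfold Cg at h
  push_cast at h
  have h5 : s % ((L : ℤ) + 2) = i % ((L : ℤ) + 2) := Int.emod_eq_emod_iff_emod_sub_eq_zero.2
    (Int.emod_eq_zero_of_dvd h)
  rwa [Int.emod_eq_of_lt h0 h1, Int.emod_eq_of_lt h2 h3] at h5

lemma per_mul' {t : ℤ → Bool} (ht : ∀ c, t (c + L) = t c) (c j : ℤ) : t (j * L + c) = t c := by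
  induction j using Int.induction_on with
  | zero => simp
  | succ a ih => rw [show ((a : ℤ) + 1) * L + c = (a : ℤ) * L + c + L by ring, ht, ih]
  | pred a ih =>
    have := ht ((-(a : ℤ) - 1) * L + c)
    rw [show (-(a : ℤ) - 1) * L + c + L = -(a : ℤ) * L + c by ring, ih] at this
    exact this.symm

/-- The colours of the positions while the wire passes. -/
lemma wires_inv {t : ℤ → Bool} (ht : ∀ c, t (c + L) = t c) (P : Pat L) {top hor bot : ℤ → T}
    (h : RowCol t top hor bot) (hP : ∀ x, top (P.m x) = top x) (k : ℕ) (hk : k ≤ L) (x : ℤ) :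
    wcol L top hor bot k ((wires t k (ins 0 P)).m x) = wcol L top hor bot k x := by
  have hL : 2 ≤ L := P.two_le
  induction k generalizing x with
  | zero =>
    refine ins_inv (g := top) ?_ hP ?_ x
    · intro y
      obtain ⟨a, r, h0, h1, rfl⟩ := exists_form (N := (L : ℤ)) (by omega) 0 y
      rw [phi_form (by omega) 0 a r h0 h1,
        show 0 + r + 2 + ((L : ℤ) + 2) * a = (r + 2) + ((L : ℤ) + 2) * a by ring,
        wcol_form top hor bot 0 a (r + 2) (by omega) (by omega), if_neg (by omega),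
        if_neg (by push_cast; omega), if_neg (by push_cast; omega)]
      congr 1
      ring
    · intro y hy
      obtain ⟨j, s, h0, h1, rfl⟩ := exists_pos_form L y
      rw [Cg_form] at hy
      obtain rfl : s = 0 := Cg_small h0 h1 le_rfl (by omega) hy
      rw [show 0 + ((L : ℤ) + 2) * j + 1 = 1 + ((L : ℤ) + 2) * j by ring,
        wcol_form top hor bot 0 j 0 le_rfl (by omega),
        wcol_form top hor bot 0 j 1 (by norm_num) (by omega), if_pos rfl, if_neg (by norm_num),
        if_neg (by push_cast; norm_num), if_pos (by norm_num)]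
      congr 1
      push_cast
      ring
  | succ k ih =>
    have ih' := ih (by omega)
    have hstep : ∀ j s : ℤ, 0 ≤ s → s < (L : ℤ) + 2 → s ≠ (k : ℤ) + 1 → s ≠ (k : ℤ) + 2 →
        wcol L top hor bot (k + 1) (s + ((L : ℤ) + 2) * j) =
          wcol L top hor bot k (s + ((L : ℤ) + 2) * j) := by
      intro j s h0 h1 h2 h3
      rw [wcol_form _ _ _ _ _ _ h0 h1, wcol_form _ _ _ _ _ _ h0 h1]
      by_cases c0 : s = 0
      · rw [if_pos c0, if_pos c0]
      rw [if_neg c0, if_neg c0]
      by_cases c1 : s ≤ (k : ℤ)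
      · rw [if_pos c1, if_pos (by push_cast; omega)]
      · rw [if_neg c1, if_neg (by push_cast; omega), if_neg (by omega),
          if_neg (by push_cast; omega)]
    have v1 : ∀ j : ℤ, wcol L top hor bot k (((k : ℤ) + 1) + ((L : ℤ) + 2) * j) =
        hor (j * L + k - 1) := by
      intro j
      rw [wcol_form _ _ _ _ _ _ (by omega) (by omega), if_neg (by omega), if_neg (by omega),
        if_pos rfl]
    have v2 : ∀ j : ℤ, wcol L top hor bot k (((k : ℤ) + 2) + ((L : ℤ) + 2) * j) =
        top (j * L + k) := by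
      intro j
      rw [wcol_form _ _ _ _ _ _ (by omega) (by omega), if_neg (by omega), if_neg (by omega),
        if_neg (by omega)]
      congr 1
      ring
    have w1 : ∀ j : ℤ, wcol L top hor bot (k + 1) (((k : ℤ) + 1) + ((L : ℤ) + 2) * j) =
        bot (j * L + k) := by
      intro j
      rw [wcol_form _ _ _ _ _ _ (by omega) (by omega), if_neg (by omega),
        if_pos (by push_cast; omega)]
      congr 1
      ring
    have w2 : ∀ j : ℤ, wcol L top hor bot (k + 1) (((k : ℤ) + 2) + ((L : ℤ) + 2) * j) =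
        hor (j * L + k) := by
      intro j
      rw [wcol_form _ _ _ _ _ _ (by omega) (by omega), if_neg (by omega),
        if_neg (by push_cast; omega), if_pos (by push_cast; ring)]
      congr 1
      push_cast
      ring
    by_cases htk : t k = true
    · have e : wires t (k + 1) (ins 0 P) = E ((k : ℤ) + 1) (wires t k (ins 0 P)) := by
        rw [wires, if_pos htk]
      rw [e]
      have hr : ∀ j : ℤ, bot (j * L + k) = hor (j * L + k) ∧
          top (j * L + k) = hor (j * L + k - 1) := fun j =>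
        (h (j * L + k)).1 (by rw [per_mul' ht]; exact htk)
      refine E_inv (f := wcol L top hor bot k) ih' ?_ ?_ ?_ x
      · intro y hy
        obtain ⟨j, s, h0, h1, rfl⟩ := exists_pos_form L y
        rw [Cg_form] at hy
        obtain rfl : s = (k : ℤ) + 1 := Cg_small h0 h1 (by omega) (by omega) hy
        rw [show (k : ℤ) + 1 + ((L : ℤ) + 2) * j + 1 = ((k : ℤ) + 2) + ((L : ℤ) + 2) * j by ring,
          v1, v2, (hr j).2]
      · intro y hy
        obtain ⟨j, s, h0, h1, rfl⟩ := exists_pos_form L y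
        rw [Cg_form] at hy
        obtain rfl : s = (k : ℤ) + 1 := Cg_small h0 h1 (by omega) (by omega) hy
        rw [show (k : ℤ) + 1 + ((L : ℤ) + 2) * j + 1 = ((k : ℤ) + 2) + ((L : ℤ) + 2) * j by ring,
          w1, w2, (hr j).1]
      · intro y hy1 hy2
        obtain ⟨j, s, h0, h1, rfl⟩ := exists_pos_form L y
        rw [Cg_form] at hy1 hy2
        refine hstep j s h0 h1 ?_ ?_
        · rintro rfl
          exact hy1 (Cg.refl' _)
        · rintro rfl
          apply hy2
          rw [show (k : ℤ) + 1 + 1 = (k : ℤ) + 2 by ring]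
          exact Cg.refl' _
    · have htk' : t k = false := by simpa using htk
      have e : wires t (k + 1) (ins 0 P) = wires t k (ins 0 P) := by
        rw [wires, if_neg htk]
      rw [e]
      have hr : ∀ j : ℤ, bot (j * L + k) = hor (j * L + k - 1) ∧
          top (j * L + k) = hor (j * L + k) := fun j =>
        (h (j * L + k)).2 (by rw [per_mul' ht]; exact htk')
      have heq : wcol L top hor bot (k + 1) = wcol L top hor bot k := by
        funext y
        obtain ⟨j, s, h0, h1, rfl⟩ := exists_pos_form L y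
        by_cases c1 : s = (k : ℤ) + 1
        · rw [c1, v1, w1, (hr j).1]
        by_cases c2 : s = (k : ℤ) + 2
        · rw [c2, v2, w2, (hr j).2]
        exact hstep j s h0 h1 c1 c2
      rw [heq]
      exact ih' x

/-- **Colours are transported by the row map.** -/
theorem row_inv {t : ℤ → Bool} (ht : ∀ c, t (c + L) = t c) (P : Pat L) {top hor bot : ℤ → T}
    (h : RowCol t top hor bot) (hP : ∀ x, top (P.m x) = top x) (x : ℤ) :
    bot ((row t P).m x) = bot x := by
  have hL : 2 ≤ L := P.two_le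
  set W := wires t L (ins 0 P) with hW
  set C := cap (-1) W P with hC
  set f := wcol L top hor bot L with hf
  have hwi : ∀ y, f (W.m y) = f y := wires_inv ht P h hP L le_rfl
  -- values
  have v0 : ∀ j : ℤ, f (0 + ((L : ℤ) + 2) * j) = hor (j * L - 1) := by
    intro j
    rw [hf, wcol_form _ _ _ _ _ _ le_rfl (by omega), if_pos rfl]
  have v1 : ∀ j : ℤ, f (((L : ℤ) + 1) + ((L : ℤ) + 2) * j) = hor (j * L + L - 1) := by
    intro j
    rw [hf, wcol_form _ _ _ _ _ _ (by omega) (by omega), if_neg (by omega), if_neg (by omega),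
      if_pos rfl]
  have hfi : ∀ y, Cg (L + 2) y (-1) → f y = f (y + 1) := by
    intro y hy
    obtain ⟨j, s, h0, h1, rfl⟩ := exists_pos_form L y
    rw [Cg_form] at hy
    have hs : s = (L : ℤ) + 1 := by
      refine Cg_small h0 h1 (by omega) (by omega) ?_
      refine Cg.trans' hy ?_
      unfold Cg
      push_cast
      exact ⟨-1, by ring⟩
    rw [hs, show (L : ℤ) + 1 + ((L : ℤ) + 2) * j + 1 = 0 + ((L : ℤ) + 2) * (j + 1) by ring, v0, v1]
    congr 1
    ring
  have hE : ∀ y, f ((E (-1) W).m y) = f y :=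
    E_inv hwi hfi hfi (fun _ _ _ => rfl)
  have hcs : E (-1) W = ins (-1) C := cap_spec hL (-1) W P
  rw [hcs] at hE
  have hphi : ∀ y : ℤ, f (phi L (-1) y) = bot (y + 1) := by
    intro y
    obtain ⟨a, r, h0, h1, rfl⟩ := exists_form (N := (L : ℤ)) (by omega) (-1) y
    rw [phi_form (by omega) (-1) a r h0 h1,
      show -1 + r + 2 + ((L : ℤ) + 2) * a = (r + 1) + ((L : ℤ) + 2) * a by ring, hf,
      wcol_form _ _ _ _ _ _ (by omega) (by omega), if_neg (by omega), if_pos (by omega)]
    congr 1
    ring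
  have hCm : ∀ y : ℤ, bot (C.m y + 1) = bot (y + 1) := by
    intro y
    have := hE (phi L (-1) y)
    rw [ins_phi, hphi, hphi] at this
    exact this
  have hrow : (row t P).m x = C.m (x - 1) + 1 := rfl
  rw [hrow, hCm, show x - 1 + 1 = x by ring]

end Pool.Agent.H89.Link
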